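import Pool.Agent.MP_048773_co.Defs

/-!
# T2: the layered graph `R_n` and positivity of its transfer recursion
Layers are numbered from the top: layer `0` has `q/2` vertices, layer `1` has `q`, layer `2` has `2`,
layer `3` has `1`, and then `q, 2, 1, q, 2, 1, ...`; the last layer is `3 k + 3`.
-/

namespace Pool.MP_048773_co

open Finset Matrix

/-- layer sizes, from the top -/
def Sz (q i : ℕ) : ℕ := if i = 0 then q / 2 else if i % 3 = 1 then q else if i % 3 = 2 then 2 else 1

/-- inner degrees -/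
def dg (q i : ℕ) : ℕ := if i = 0 then 2 else if i = 1 then q / 2 else Sz q i - 1

/-- inner adjacency -/
def inn (i a b : ℕ) : Prop :=
  a ≠ b ∧ (if i = 0 then a / 3 = b / 3 else if i = 1 then a % 2 ≠ b % 2 else True)

/-- adjacency of `(i, a)` and `(j, b)` -/
def adjN (i a j b : ℕ) : Prop := i + 1 = j ∨ j + 1 = i ∨ (i = j ∧ inn i a b)

theorem inn_symm {i a b : ℕ} (h : inn i a b) : inn i b a := by
  obtain ⟨h1, h2⟩ := h
  refine ⟨h1.symm, ?_⟩
  split_ifs at h2 ⊢
  · exact h2.symm
  · exact h2.symm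

theorem adjN_symm {i a j b : ℕ} (h : adjN i a j b) : adjN j b i a := by
  rcases h with h | h | ⟨h, h'⟩
  · exact Or.inr (Or.inl h)
  · exact Or.inl h
  · subst h
    exact Or.inr (Or.inr ⟨rfl, inn_symm h'⟩)

/-- vertex set -/
abbrev VR (q k : ℕ) := Σ i : Fin (3 * k + 4), Fin (Sz q i)

/-- the layered graph -/
def GR (q k : ℕ) : SimpleGraph (VR q k) where
  Adj u v := adjN u.1 u.2 v.1 v.2
  symm := ⟨fun _ _ h => adjN_symm h⟩
  loopless := ⟨by
    rintro ⟨i, a⟩ (h | h | ⟨_, h, _⟩)
    · exact absurd h (by simp)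
    · exact absurd h (by simp)
    · exact h rfl⟩

theorem Sz_pos {q : ℕ} (hq : 12 ≤ q) (i : ℕ) : 0 < Sz q i := by
  unfold Sz
  split_ifs <;> omega

theorem deg_zero {q : ℕ} : Sz q 1 + dg q 0 = q + 2 := by
  simp [Sz, dg]

theorem deg_succ {q : ℕ} (hq : 12 ≤ q) (hq6 : 6 ∣ q) (i : ℕ) :
    Sz q i + Sz q (i + 2) + dg q (i + 1) = q + 2 := by
  rcases Nat.eq_zero_or_pos i with h0 | h0
  · subst h0
    simp [Sz, dg]
    omega
  have hd : dg q (i + 1) = Sz q (i + 1) - 1 := by
    unfold dg; rw [if_neg (by omega), if_neg (by omega)]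
  rw [hd]
  unfold Sz
  rw [if_neg (by omega : ¬ i = 0), if_neg (by omega : ¬ i + 2 = 0), if_neg (by omega : ¬ i + 1 = 0)]
  split_ifs <;> omega

theorem card_VR (q : ℕ) (k : ℕ) : Fintype.card (VR q k) = k * (q + 3) + (q + 3) + q / 2 := by
  rw [Fintype.card_sigma]
  simp only [Fintype.card_fin]
  rw [Fin.sum_univ_eq_sum_range (fun i => Sz q i) (3 * k + 4)]
  induction k with
  | zero =>
    simp [Finset.sum_range_succ, Sz]
    ring
  | succ k ih =>
    rw [show 3 * (k + 1) + 4 = 3 * k + 4 + 3 by ring, Finset.sum_range_succ, Finset.sum_range_succ,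
      Finset.sum_range_succ, ih]
    have h1 : Sz q (3 * k + 4) = q := by
      unfold Sz; rw [if_neg (by omega), if_pos (by omega)]
    have h2 : Sz q (3 * k + 4 + 1) = 2 := by
      unfold Sz; rw [if_neg (by omega), if_neg (by omega), if_pos (by omega)]
    have h3 : Sz q (3 * k + 4 + 2) = 1 := by
      unfold Sz; rw [if_neg (by omega), if_neg (by omega), if_neg (by omega)]
    rw [h1, h2, h3]
    ring

open Classical in
theorem card_inn {q : ℕ} (hq6 : 6 ∣ q) (i a : ℕ) (ha : a < Sz q i) :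
    ((range (Sz q i)).filter (fun b => inn i a b)).card = dg q i := by
  obtain ⟨m, rfl⟩ := hq6
  by_cases h0 : i = 0
  · subst h0
    have hS : Sz (6 * m) 0 = 3 * m := by simp [Sz]; omega
    have hd : dg (6 * m) 0 = 2 := by simp [dg]
    rw [hS] at ha ⊢
    rw [hd]
    have : (range (3 * m)).filter (fun b => inn 0 a b) = (Finset.Ico (3 * (a / 3)) (3 * (a / 3) + 3)).erase a := by
      ext b
      simp only [mem_filter, mem_range, inn, if_true, mem_erase, mem_Ico]
      omega
    rw [this, Finset.card_erase_of_mem (by rw [mem_Ico]; omega), Nat.card_Ico]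
    omega
  by_cases h1 : i = 1
  · subst h1
    have hS : Sz (6 * m) 1 = 2 * (3 * m) := by simp [Sz]; omega
    have hd : dg (6 * m) 1 = 3 * m := by simp [dg]; omega
    rw [hS, hd]
    have : ∀ t : ℕ, ((range (2 * t)).filter (fun b => inn 1 a b)).card = t := by
      intro t
      induction t with
      | zero => simp
      | succ t ih =>
        rw [show 2 * (t + 1) = 2 * t + 1 + 1 by ring, Finset.range_add_one, Finset.range_add_one,
          Finset.filter_insert, Finset.filter_insert]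
        have hin : ∀ b, inn 1 a b ↔ a % 2 ≠ b % 2 := by
          intro b
          simp only [inn, one_ne_zero, if_false, if_true]
          omega
        rcases Nat.mod_two_eq_zero_or_one a with h | h
        · rw [if_pos (by rw [hin]; omega), if_neg (by rw [hin]; omega),
            Finset.card_insert_of_notMem (by simp), ih]
        · rw [if_neg (by rw [hin]; omega), if_pos (by rw [hin]; omega),
            Finset.card_insert_of_notMem (by simp), ih]
    exact this _
  · have hd : dg (6 * m) i = Sz (6 * m) i - 1 := by simp [dg, h0, h1]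
    rw [hd]
    have : (range (Sz (6 * m) i)).filter (fun b => inn i a b) = (range (Sz (6 * m) i)).erase a := by
      ext b
      simp only [mem_filter, mem_range, inn, h0, h1, if_false, mem_erase, and_true]
      constructor
      · rintro ⟨h1, h2⟩; exact ⟨h2.symm, h1⟩
      · rintro ⟨h1, h2⟩; exact ⟨h2, h1.symm⟩
    rw [this, Finset.card_erase_of_mem (by rw [mem_range]; exact ha), Finset.card_range]

/-- contribution of the layer above -/
def prv (q : ℕ) (F : ℕ → ℝ) : ℕ → ℝ
  | 0 => 0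
  | (i + 1) => Sz q i * F i

/-- neighbour sum of a function constant on layers -/
def Nb (q : ℕ) (F : ℕ → ℝ) (i : ℕ) : ℝ := prv q F i + Sz q (i + 1) * F (i + 1) + dg q i * F i

open Classical in
theorem nb_sum {q k : ℕ} (hq6 : 6 ∣ q) (F : ℕ → ℝ) (hF : F (3 * k + 4) = 0)
    (v : VR q k) :
    ∑ u : VR q k, (if (GR q k).Adj v u then F u.1 else 0) = Nb q F v.1 := by
  obtain ⟨i, a⟩ := v
  rw [Fintype.sum_sigma]
  have h1 : ∀ j : Fin (3 * k + 4), ∑ b : Fin (Sz q j), (if (GR q k).Adj ⟨i, a⟩ ⟨j, b⟩ then F j else 0)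
      = (((range (Sz q j)).filter (fun b => adjN i a j b)).card : ℝ) * F j := by
    intro j
    have : ∀ b : Fin (Sz q j), (if (GR q k).Adj ⟨i, a⟩ ⟨j, b⟩ then F j else 0) =
        (fun b : ℕ => if adjN i a j b then F j else 0) b := by
      intro b
      rfl
    rw [Finset.sum_congr rfl (fun b _ => this b),
      Fin.sum_univ_eq_sum_range (fun b : ℕ => if adjN i a j b then F j else 0) (Sz q j),
      ← Finset.sum_filter, Finset.sum_const, nsmul_eq_mul]
  rw [Finset.sum_congr rfl (fun j _ => h1 j)]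
  rw [Fin.sum_univ_eq_sum_range
    (fun j : ℕ => (((range (Sz q j)).filter (fun b => adjN i a j b)).card : ℝ) * F j) (3 * k + 4)]
  obtain ⟨i, hi⟩ := i
  obtain ⟨a, ha⟩ := a
  simp only at ha ⊢
  have hcnt : ∀ j : ℕ, (((range (Sz q j)).filter (fun b => adjN i a j b)).card : ℝ) * F j =
      (if j = i + 1 then Sz q j * F j else 0) + (if j + 1 = i then Sz q j * F j else 0) +
        (if j = i then dg q i * F j else 0) := by
    intro j
    by_cases hj1 : j = i + 1
    · subst hj1
      have : (range (Sz q (i + 1))).filter (fun b => adjN i a (i + 1) b) = range (Sz q (i + 1)) := by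
        apply Finset.filter_true_of_mem
        intro b _
        exact Or.inl rfl
      rw [this, Finset.card_range, if_pos rfl, if_neg (by omega), if_neg (by omega)]
      ring
    by_cases hj2 : j + 1 = i
    · subst hj2
      have : (range (Sz q j)).filter (fun b => adjN (j + 1) a j b) = range (Sz q j) := by
        apply Finset.filter_true_of_mem
        intro b _
        exact Or.inr (Or.inl rfl)
      rw [this, Finset.card_range, if_neg (by omega), if_pos rfl, if_neg (by omega)]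
      ring
    by_cases hj3 : j = i
    · subst hj3
      have : (range (Sz q j)).filter (fun b => adjN j a j b) = (range (Sz q j)).filter (fun b => inn j a b) := by
        apply Finset.filter_congr
        intro b _
        constructor
        · rintro (h | h | ⟨_, h⟩)
          · omega
          · omega
          · exact h
        · intro h
          exact Or.inr (Or.inr ⟨rfl, h⟩)
      rw [this, card_inn hq6 j a ha, if_neg (by omega), if_neg (by omega), if_pos rfl]
      ring
    · have : (range (Sz q j)).filter (fun b => adjN i a j b) = ∅ := by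
        apply Finset.filter_false_of_mem
        rintro b _ (h | h | ⟨h, _⟩)
        · exact hj1 h.symm
        · exact hj2 h
        · exact hj3 h.symm
      rw [this, if_neg hj1, if_neg hj2, if_neg hj3]
      simp
  rw [Finset.sum_congr rfl (fun j _ => hcnt j), Finset.sum_add_distrib, Finset.sum_add_distrib]
  have e1 : ∑ j ∈ range (3 * k + 4), (if j = i + 1 then (Sz q j : ℝ) * F j else 0) = Sz q (i + 1) * F (i + 1) := by
    by_cases hlast : i + 1 < 3 * k + 4
    · rw [Finset.sum_eq_single (i + 1)]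
      · rw [if_pos rfl]
      · intro j _ hj
        rw [if_neg hj]
      · intro h
        exact absurd (mem_range.mpr hlast) h
    · have : i + 1 = 3 * k + 4 := by omega
      rw [this, hF, mul_zero]
      apply Finset.sum_eq_zero
      intro j hj
      rw [mem_range] at hj
      rw [if_neg (by omega)]
  have e2 : ∑ j ∈ range (3 * k + 4), (if j + 1 = i then (Sz q j : ℝ) * F j else 0) = prv q F i := by
    cases i with
    | zero =>
      simp [prv]
    | succ i =>
      rw [Finset.sum_eq_single i]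
      · rw [if_pos rfl]; rfl
      · intro j _ hj
        rw [if_neg (by omega)]
      · intro h
        exact absurd (mem_range.mpr (by omega)) h
  have e3 : ∑ j ∈ range (3 * k + 4), (if j = i then (dg q i : ℝ) * F j else 0) = dg q i * F i := by
    rw [Finset.sum_eq_single i]
    · rw [if_pos rfl]
    · intro j _ hj
      rw [if_neg hj]
    · intro h
      exact absurd (mem_range.mpr hi) h
  rw [e1, e2, e3]
  unfold Nb
  ring

theorem sum_layers {q k : ℕ} (P : ℕ → ℝ) :
    ∑ v : VR q k, P v.1 = ∑ i ∈ range (3 * k + 4), Sz q i * P i := by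
  rw [Fintype.sum_sigma, ← Fin.sum_univ_eq_sum_range (fun i : ℕ => (Sz q i : ℝ) * P i) (3 * k + 4)]
  refine Finset.sum_congr rfl fun i _ => ?_
  simp

/-- the energy identity -/
theorem energy {q : ℕ} (hq : 12 ≤ q) (hq6 : 6 ∣ q) (F : ℕ → ℝ) (M : ℕ) :
    (q + 2) * ∑ i ∈ range (M + 1), (Sz q i : ℝ) * F i ^ 2 - ∑ i ∈ range (M + 1), (Sz q i : ℝ) * (F i * Nb q F i)
      = ∑ i ∈ range (M + 1), (Sz q i * Sz q (i + 1) : ℝ) * (F i - F (i + 1)) ^ 2
        - Sz q M * Sz q (M + 1) * F (M + 1) * (F (M + 1) - F M) := by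
  induction M with
  | zero =>
    simp only [zero_add, Finset.sum_range_one, Nb, prv]
    have h : (Sz q 1 : ℝ) + dg q 0 = q + 2 := by exact_mod_cast deg_zero (q := q)
    have h' : (dg q 0 : ℝ) = q + 2 - Sz q 1 := by linarith
    rw [h']
    ring
  | succ M ih =>
    rw [Finset.sum_range_succ, Finset.sum_range_succ _ (M + 1), Finset.sum_range_succ _ (M + 1)]
    have h : (Sz q M : ℝ) + Sz q (M + 2) + dg q (M + 1) = q + 2 := by
      exact_mod_cast deg_succ hq hq6 M
    have h' : (dg q (M + 1) : ℝ) = q + 2 - Sz q M - Sz q (M + 2) := by linarith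
    have h2 : Nb q F (M + 1) = Sz q M * F M + Sz q (M + 2) * F (M + 2) + dg q (M + 1) * F (M + 1) := rfl
    rw [h2, h']
    rw [show M + 1 + 1 = M + 2 by ring]
    linear_combination ih

/-- the abstract chain lemma -/
theorem chain_nonneg (N : ℕ) (S C : ℕ → ℝ) (μ : ℝ) (hC : ∀ i, 0 < C i)
    (H : ∀ G : ℕ → ℝ, G (N + 1) = 0 →
      μ * ∑ i ∈ range (N + 1), S i * G i ^ 2 ≤ ∑ i ∈ range (N + 1), C i * (G i - G (i + 1)) ^ 2)
    (g J : ℕ → ℝ) (g0 : g 0 = 1) (J0 : J 0 = μ * S 0 * g 0)
    (hg : ∀ i, g (i + 1) = g i - J i / C i)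
    (hJ : ∀ i, J (i + 1) = J i + μ * S (i + 1) * g (i + 1)) :
    ∀ i ≤ N, 0 < g i ∧ 0 ≤ g (i + 1) := by
  -- energy identity
  have hJC : ∀ i, J i = C i * (g i - g (i + 1)) := by
    intro i
    rw [hg i]
    field_simp [(hC i).ne']
    ring
  have hE : ∀ i, ∑ j ∈ range i, C j * (g j - g (j + 1)) ^ 2 - μ * ∑ j ∈ range (i + 1), S j * g j ^ 2
      = - (J i * g i) := by
    intro i
    induction i with
    | zero =>
      simp only [Finset.range_zero, Finset.sum_empty, zero_add, Finset.sum_range_one]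
      rw [J0]; ring
    | succ i ih =>
      rw [Finset.sum_range_succ, Finset.sum_range_succ _ (i + 1), hJ i]
      have := hJC i
      linear_combination ih - (g i - g (i + 1)) * this
  -- test functions
  have htest : ∀ i ≤ N, ∀ η : ℝ, (i = N → η = 0) →
      0 ≤ C i * (g i - η) ^ 2 + C (i + 1) * η ^ 2 - μ * S (i + 1) * η ^ 2 - J i * g i := by
    intro i hi η hη
    set G : ℕ → ℝ := fun j => if j ≤ i then g j else if j = i + 1 then η else 0 with hG
    have hGN : G (N + 1) = 0 := by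
      simp only [hG]
      rw [if_neg (by omega)]
      split_ifs with h
      · exact hη (by omega)
      · rfl
    have hGN2 : G (N + 2) = 0 := by
      simp only [hG]
      rw [if_neg (by omega), if_neg (by omega)]
    have h1 := H G hGN
    have e1 : ∑ j ∈ range (N + 1), S j * G j ^ 2 = ∑ j ∈ range (i + 2), S j * G j ^ 2 := by
      have : ∑ j ∈ range (N + 2), S j * G j ^ 2 = ∑ j ∈ range (N + 1), S j * G j ^ 2 := by
        rw [Finset.sum_range_succ, hGN]; ring
      rw [← this]
      symm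
      apply Finset.sum_subset
      · intro j hj
        rw [mem_range] at hj ⊢
        omega
      · intro j _ hj
        rw [mem_range] at hj
        simp only [hG]
        rw [if_neg (by omega), if_neg (by omega)]
        ring
    have e2 : ∑ j ∈ range (N + 1), C j * (G j - G (j + 1)) ^ 2 =
        ∑ j ∈ range (i + 2), C j * (G j - G (j + 1)) ^ 2 := by
      have : ∑ j ∈ range (N + 2), C j * (G j - G (j + 1)) ^ 2 =
          ∑ j ∈ range (N + 1), C j * (G j - G (j + 1)) ^ 2 := by
        rw [Finset.sum_range_succ, hGN, hGN2]; ring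
      rw [← this]
      symm
      apply Finset.sum_subset
      · intro j hj
        rw [mem_range] at hj ⊢
        omega
      · intro j _ hj
        rw [mem_range] at hj
        simp only [hG]
        rw [if_neg (by omega), if_neg (by omega), if_neg (by omega), if_neg (by omega)]
        ring
    have hGi : ∀ j ≤ i, G j = g j := by
      intro j hj
      simp only [hG]
      rw [if_pos hj]
    have hGi1 : G (i + 1) = η := by
      simp [hG]
    have hGi2 : G (i + 1 + 1) = 0 := by
      simp only [hG]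
      rw [if_neg (by omega), if_neg (by omega)]
    rw [e1, e2, Finset.sum_range_succ, Finset.sum_range_succ _ (i + 1),
      Finset.sum_range_succ (fun j => C j * (G j - G (j + 1)) ^ 2) i, hGi1, hGi2, hGi i le_rfl] at h1
    have e3 : ∑ j ∈ range (i + 1), S j * G j ^ 2 = ∑ j ∈ range (i + 1), S j * g j ^ 2 := by
      refine Finset.sum_congr rfl fun j hj => ?_
      rw [mem_range] at hj
      rw [hGi j (by omega)]
    have e4 : ∑ j ∈ range i, C j * (G j - G (j + 1)) ^ 2 = ∑ j ∈ range i, C j * (g j - g (j + 1)) ^ 2 := by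
      refine Finset.sum_congr rfl fun j hj => ?_
      rw [mem_range] at hj
      rw [hGi j (by omega), hGi (j + 1) (by omega)]
    rw [e3, e4] at h1
    have := hE i
    nlinarith
  have hstep : ∀ i ≤ N, 0 < g i → 0 ≤ g (i + 1) := by
    intro i hi hpos
    have h1 := htest i hi 0 (fun _ => rfl)
    rw [hJC i] at h1
    have h2 : 0 ≤ C i * g i * g (i + 1) := by nlinarith
    have h3 : 0 < C i * g i := mul_pos (hC i) hpos
    exact nonneg_of_mul_nonneg_right h2 h3
  have hstrict : ∀ i < N, 0 < g i → 0 < g (i + 1) := by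
    intro i hi hpos
    rcases (hstep i hi.le hpos).eq_or_lt with h0 | h
    · exfalso
      set K : ℝ := C i + C (i + 1) - μ * S (i + 1) with hK
      have hCg : 0 < C i * g i := mul_pos (hC i) hpos
      have hK1 : 0 < |K| + 1 := by positivity
      set η : ℝ := C i * g i / (|K| + 1) with hη
      have hηpos : 0 < η := div_pos hCg hK1
      have h1 := htest i hi.le η (fun h => absurd h (by omega))
      rw [hJC i, ← h0] at h1
      have h2 : 0 ≤ η * (K * η - 2 * (C i * g i)) := by
        have : η * (K * η - 2 * (C i * g i)) =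
          C i * (g i - η) ^ 2 + C (i + 1) * η ^ 2 - μ * S (i + 1) * η ^ 2 - C i * (g i - 0) * g i := by
          rw [hK]; ring
        rw [this]; exact h1
      have h3 : 0 ≤ K * η - 2 * (C i * g i) := nonneg_of_mul_nonneg_right h2 hηpos
      have h4 : K * η ≤ |K| * η := mul_le_mul_of_nonneg_right (le_abs_self _) hηpos.le
      have h5 : (|K| + 1) * η = C i * g i := by
        rw [hη]; field_simp
      nlinarith
    · exact h
  have hposall : ∀ i ≤ N, 0 < g i := by
    intro i
    induction i with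
    | zero => intro _; rw [g0]; norm_num
    | succ i ih => intro hi; exact hstrict i (by omega) (ih (by omega))
  intro i hi
  exact ⟨hposall i hi, hstep i hi (hposall i hi)⟩

/-- the transfer recursion, `(g_i, J_i)` -/
noncomputable def gJ (q : ℕ) (μ : ℝ) : ℕ → ℝ × ℝ
  | 0 => (1, μ * Sz q 0)
  | (i + 1) =>
    ((gJ q μ i).1 - (gJ q μ i).2 / (Sz q i * Sz q (i + 1)),
      (gJ q μ i).2 + μ * Sz q (i + 1) * ((gJ q μ i).1 - (gJ q μ i).2 / (Sz q i * Sz q (i + 1))))

theorem Sz_one (q i : ℕ) : Sz q (3 * i + 3) = 1 := by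
  unfold Sz; rw [if_neg (by omega), if_neg (by omega), if_neg (by omega)]

theorem Sz_q (q i : ℕ) : Sz q (3 * i + 4) = q := by
  unfold Sz; rw [if_neg (by omega), if_pos (by omega)]

theorem Sz_two (q i : ℕ) : Sz q (3 * i + 5) = 2 := by
  unfold Sz; rw [if_neg (by omega), if_neg (by omega), if_pos (by omega)]

theorem gJ_fst (q : ℕ) (μ : ℝ) (i : ℕ) : (gJ q μ (i + 1)).1 =
    (gJ q μ i).1 - (gJ q μ i).2 / (Sz q i * Sz q (i + 1)) := rfl

theorem gJ_snd (q : ℕ) (μ : ℝ) (i : ℕ) : (gJ q μ (i + 1)).2 =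
    (gJ q μ i).2 + μ * Sz q (i + 1) * (gJ q μ (i + 1)).1 := rfl

theorem stR_eq {q : ℕ} (hq : 12 ≤ q) (hq6 : 6 ∣ q) (ε : ℝ) (j : ℕ) :
    stR q ε j = ((gJ q (2 * q * ε) (3 * j + 3)).1, (gJ q (2 * q * ε) (3 * j + 2)).2 / (2 * q)) := by
  have hq0 : (0 : ℝ) < q := by exact_mod_cast (by omega : 0 < q)
  have hq0' : (q : ℝ) ≠ 0 := hq0.ne'
  induction j with
  | zero =>
    have h0 : (Sz q 0 : ℝ) = q / 2 := by
      obtain ⟨m, rfl⟩ := hq6
      have : Sz (6 * m) 0 = 3 * m := by simp [Sz]; omega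
      rw [this]; push_cast; ring
    have h1 : (Sz q 1 : ℝ) = q := by simp [Sz]
    have h2 : (Sz q 2 : ℝ) = 2 := by simp [Sz]
    have h3 : (Sz q 3 : ℝ) = 1 := by simp [Sz]
    simp only [zero_add, gJ, stR, topR, addMass, addRes, h0, h1, h2, h3]
    ext
    · simp only
      field_simp
      try ring
    · simp only
      field_simp
      try ring
  | succ j ih =>
    have h3 : (Sz q (3 * j + 3) : ℝ) = 1 := by rw [Sz_one]; norm_num
    have h4 : (Sz q (3 * j + 4) : ℝ) = q := by rw [Sz_q]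
    have h5 : (Sz q (3 * j + 5) : ℝ) = 2 := by rw [Sz_two]; norm_num
    have h6 : (Sz q (3 * j + 6) : ℝ) = 1 := by
      rw [show 3 * j + 6 = 3 * (j + 1) + 3 by ring, Sz_one]; norm_num
    have a3 := gJ_snd q (2 * q * ε) (3 * j + 2)
    have b4 := gJ_fst q (2 * q * ε) (3 * j + 3)
    have a4 := gJ_snd q (2 * q * ε) (3 * j + 3)
    have b5 := gJ_fst q (2 * q * ε) (3 * j + 4)
    have a5 := gJ_snd q (2 * q * ε) (3 * j + 4)
    have b6 := gJ_fst q (2 * q * ε) (3 * j + 5)
    simp only [show 3 * j + 2 + 1 = 3 * j + 3 by ring, show 3 * j + 3 + 1 = 3 * j + 4 by ring,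
      show 3 * j + 4 + 1 = 3 * j + 5 by ring, show 3 * j + 5 + 1 = 3 * j + 6 by ring, h3, h4, h5, h6]
      at a3 b4 a4 b5 a5 b6
    rw [show 3 * (j + 1) + 3 = 3 * j + 6 by ring, show 3 * (j + 1) + 2 = 3 * j + 5 by ring]
    simp only [stR, ih, stepR, addMass, addRes]
    rw [b6, a5, b5, a4, b4, a3]
    ext
    · simp only
      field_simp
      try ring
    · simp only
      field_simp
      try ring

theorem GR_connected {q k : ℕ} (hq : 12 ≤ q) : (GR q k).Connected := by
  have hS : ∀ i, 0 < Sz q i := Sz_pos hq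
  -- base vertex
  let b : VR q k := ⟨⟨3 * k + 3, by omega⟩, ⟨0, hS _⟩⟩
  have hreach : ∀ m : ℕ, ∀ v : VR q k, (v.1 : ℕ) + m = 3 * k + 3 → (GR q k).Reachable v b := by
    intro m
    induction m with
    | zero =>
      rintro ⟨⟨i, hi⟩, ⟨a, ha⟩⟩ hv
      simp only [add_zero] at hv
      subst hv
      have : Sz q (3 * k + 3) = 1 := Sz_one q k
      have ha0 : a = 0 := by
        simp only [this] at ha
        omega
      subst ha0
      exact SimpleGraph.Reachable.refl _
    | succ m ih =>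
      rintro ⟨⟨i, hi⟩, a⟩ hv
      simp only at hv
      let w : VR q k := ⟨⟨i + 1, by omega⟩, ⟨0, hS _⟩⟩
      have h1 : (GR q k).Adj ⟨⟨i, hi⟩, a⟩ w := Or.inl rfl
      have h2 : (GR q k).Reachable w b := ih w (by simp only [w]; omega)
      exact h1.reachable.trans h2
  have : Nonempty (VR q k) := ⟨b⟩
  refine ⟨fun u v => ?_⟩
  have hu := hreach (3 * k + 3 - u.1) u (by have := u.1.2; omega)
  have hv := hreach (3 * k + 3 - v.1) v (by have := v.1.2; omega)
  exact hu.trans hv.symm

open Classical in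
theorem deg_eq {q k n : ℕ} (hq6 : 6 ∣ q) (e : Fin n ≃ VR q k)
    (H : SimpleGraph (Fin n)) [DecidableRel H.Adj] (hadj : ∀ v u, H.Adj v u ↔ (GR q k).Adj (e v) (e u))
    (v : Fin n) : (H.degree v : ℝ) = Nb q (fun j => if j ≤ 3 * k + 3 then 1 else 0) (e v).1 := by
  rw [← nb_sum hq6 (fun j => if j ≤ 3 * k + 3 then 1 else 0) (by simp) (e v)]
  rw [← SimpleGraph.card_neighborFinset_eq_degree, SimpleGraph.neighborFinset_eq_filter,
    Finset.card_filter]
  push_cast
  rw [← Equiv.sum_comp e]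
  refine Finset.sum_congr rfl fun u _ => ?_
  rw [if_pos (show ((e u).1 : ℕ) ≤ 3 * k + 3 by have := (e u).1.2; omega)]
  by_cases h : (GR q k).Adj (e v) (e u)
  · rw [if_pos h, if_pos ((hadj v u).mpr h)]
  · rw [if_neg h, if_neg (fun h' => h ((hadj v u).mp h'))]

open Classical in
theorem form_eq {q k n : ℕ} (hq6 : 6 ∣ q) (e : Fin n ≃ VR q k)
    (H : SimpleGraph (Fin n)) [DecidableRel H.Adj] (hadj : ∀ v u, H.Adj v u ↔ (GR q k).Adj (e v) (e u))
    (G : ℕ → ℝ) (hG : G (3 * k + 4) = 0) :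
    (fun a => G (e a).1) ⬝ᵥ (H.adjMatrix ℝ *ᵥ (fun a => G (e a).1)) =
          ∑ i ∈ range (3 * k + 4), (Sz q i : ℝ) * (G i * Nb q G i) := by
  rw [← sum_layers (k := k) (fun i => G i * Nb q G i), ← Equiv.sum_comp e]
  unfold dotProduct
  refine Finset.sum_congr rfl fun a _ => ?_
  congr 1
  rw [← nb_sum hq6 G hG (e a), ← Equiv.sum_comp e]
  unfold mulVec dotProduct
  refine Finset.sum_congr rfl fun b _ => ?_
  show H.adjMatrix ℝ a b * G (e b).1 = _
  rw [SimpleGraph.adjMatrix_apply]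
  by_cases h : (GR q k).Adj (e a) (e b)
  · rw [if_pos h, if_pos ((hadj a b).mpr h), one_mul]
  · rw [if_neg h, if_neg (fun h' => h ((hadj a b).mp h')), zero_mul]

theorem RGraph_props {q k n : ℕ} (hq : 12 ≤ q) (hq6 : 6 ∣ q) (e : Fin n ≃ VR q k)
    (H : SimpleGraph (Fin n)) [DecidableRel H.Adj] (hadj : ∀ v u, H.Adj v u ↔ (GR q k).Adj (e v) (e u)) :
    (∀ v, H.degree v ≤ q + 2) ∧ (∃ v, H.degree v = q + 2) ∧ (∃ v, H.degree v ≠ q + 2) ∧
      (∀ lam ε : ℝ, 0 < ε → ε * (q : ℝ) ^ 6 ≤ 1 → lam = q + 2 - 2 * q * ε →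
        (∀ f : Fin n → ℝ, f ⬝ᵥ (H.adjMatrix ℝ *ᵥ f) ≤ lam * (f ⬝ᵥ f)) →
        ∀ j ≤ k, 0 ≤ (1 - 2 * ε) * (stR q ε j).1 - 2 * (stR q ε j).2) := by
  set F1 : ℕ → ℝ := fun j => if j ≤ 3 * k + 3 then 1 else 0 with hF1
  have hdeg : ∀ v, (H.degree v : ℝ) = Nb q F1 (e v).1 := deg_eq hq6 e H hadj
  have hNb : ∀ i, i < 3 * k + 3 → Nb q F1 i = q + 2 := by
    intro i hi
    cases i with
    | zero =>
      have h : (Sz q 1 : ℝ) + dg q 0 = q + 2 := by exact_mod_cast deg_zero (q := q)
      simp only [Nb, prv, zero_add, hF1]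
      rw [if_pos (by omega), if_pos (by omega)]
      linarith
    | succ i =>
      have h : (Sz q i : ℝ) + Sz q (i + 2) + dg q (i + 1) = q + 2 := by
        exact_mod_cast deg_succ hq hq6 i
      simp only [Nb, prv, hF1]
      rw [if_pos (by omega), if_pos (by omega), if_pos (by omega), show i + 1 + 1 = i + 2 by ring]
      linarith
  have hNb' : Nb q F1 (3 * k + 3) = 2 := by
    have h : (Sz q (3 * k + 2) : ℝ) + Sz q (3 * k + 2 + 2) + dg q (3 * k + 2 + 1) = q + 2 := by
      exact_mod_cast deg_succ hq hq6 (3 * k + 2)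
    have h2 : (Sz q (3 * k + 2 + 2) : ℝ) = q := by
      rw [show 3 * k + 2 + 2 = 3 * k + 4 by ring, Sz_q]
    show Nb q F1 (3 * k + 2 + 1) = 2
    simp only [Nb, prv, hF1]
    rw [if_pos (by omega), if_neg (by omega), if_pos (by omega)]
    linarith
  have hSpos := Sz_pos hq
  have hn : 0 < 3 * k + 4 := by omega
  refine ⟨?_, ?_, ?_, ?_⟩
  · intro v
    have h1 := hdeg v
    rcases lt_or_ge ((e v).1 : ℕ) (3 * k + 3) with h | h
    · rw [hNb _ h] at h1
      have : (H.degree v : ℝ) ≤ ((q + 2 : ℕ) : ℝ) := by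
        push_cast; linarith
      exact_mod_cast this
    · have h3 : ((e v).1 : ℕ) = 3 * k + 3 := by have := (e v).1.2; omega
      rw [h3, hNb'] at h1
      have : (H.degree v : ℝ) ≤ ((q + 2 : ℕ) : ℝ) := by
        push_cast; rw [h1]
        have : (0 : ℝ) ≤ q := Nat.cast_nonneg q
        linarith
      exact_mod_cast this
  · refine ⟨e.symm ⟨⟨0, by omega⟩, ⟨0, hSpos _⟩⟩, ?_⟩
    have h1 := hdeg (e.symm ⟨⟨0, by omega⟩, ⟨0, hSpos _⟩⟩)
    rw [Equiv.apply_symm_apply] at h1
    simp only at h1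
    rw [hNb 0 (by omega)] at h1
    have : (H.degree (e.symm ⟨⟨0, by omega⟩, ⟨0, hSpos _⟩⟩) : ℝ) = ((q + 2 : ℕ) : ℝ) := by
      push_cast; exact h1
    exact_mod_cast this
  · refine ⟨e.symm ⟨⟨3 * k + 3, by omega⟩, ⟨0, hSpos _⟩⟩, ?_⟩
    intro hcon
    have h1 := hdeg (e.symm ⟨⟨3 * k + 3, by omega⟩, ⟨0, hSpos _⟩⟩)
    rw [Equiv.apply_symm_apply, hcon] at h1
    simp only at h1
    rw [hNb'] at h1
    push_cast at h1
    have : (0 : ℝ) < q := by exact_mod_cast (by omega : 0 < q)
    linarith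
  · intro lam ε hε _ hlam hray j hj
    have hq0 : (0 : ℝ) < q := by exact_mod_cast (by omega : 0 < q)
    set μ : ℝ := 2 * q * ε with hμ
    have H : ∀ G : ℕ → ℝ, G (3 * k + 3 + 1) = 0 →
        μ * ∑ i ∈ range (3 * k + 3 + 1), (Sz q i : ℝ) * G i ^ 2 ≤
          ∑ i ∈ range (3 * k + 3 + 1), (Sz q i * Sz q (i + 1) : ℝ) * (G i - G (i + 1)) ^ 2 := by
      intro G hG
      have h1 := hray (fun a => G (e a).1)
      have h2 : (fun a => G (e a).1) ⬝ᵥ (fun a => G (e a).1) = ∑ i ∈ range (3 * k + 4), (Sz q i : ℝ) * G i ^ 2 := by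
        rw [← sum_layers (k := k) (fun i => G i ^ 2), ← Equiv.sum_comp e]
        unfold dotProduct
        exact Finset.sum_congr rfl fun a _ => by ring
      have h3 := form_eq hq6 e H hadj G hG
      have h4 := energy hq hq6 G (3 * k + 3)
      rw [hG] at h4
      rw [show 3 * k + 3 + 1 = 3 * k + 4 by ring] at h4 ⊢
      rw [h3, h2, hlam] at h1
      nlinarith
    have hchain := chain_nonneg (3 * k + 3) (fun i => (Sz q i : ℝ)) (fun i => (Sz q i * Sz q (i + 1) : ℝ)) μ
      (fun i => by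
        have h1 : (0 : ℝ) < Sz q i := by exact_mod_cast hSpos i
        have h2 : (0 : ℝ) < Sz q (i + 1) := by exact_mod_cast hSpos (i + 1)
        exact mul_pos h1 h2) H (fun i => (gJ q μ i).1) (fun i => (gJ q μ i).2) rfl
      (by simp [gJ]) (fun i => rfl) (fun i => rfl) (3 * j + 3) (by omega)
    have h1 : 0 ≤ (gJ q μ (3 * j + 3 + 1)).1 := hchain.2
    have h2 : (gJ q μ (3 * j + 3 + 1)).1 = (gJ q μ (3 * j + 3)).1 - (gJ q μ (3 * j + 3)).2 / (Sz q (3 * j + 3) * Sz q (3 * j + 3 + 1)) := rfl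
    have h3 : (gJ q μ (3 * j + 2 + 1)).2 = (gJ q μ (3 * j + 2)).2 + μ * Sz q (3 * j + 2 + 1) * (gJ q μ (3 * j + 2 + 1)).1 := rfl
    rw [show 3 * j + 2 + 1 = 3 * j + 3 by ring, Sz_one] at h3
    rw [h2, h3, show 3 * j + 3 + 1 = 3 * j + 4 by ring, Sz_one, Sz_q] at h1
    rw [stR_eq hq hq6 ε j]
    simp only
    rw [← hμ]
    have h5 : (1 - 2 * ε) * (gJ q μ (3 * j + 3)).1 - 2 * ((gJ q μ (3 * j + 2)).2 / (2 * q)) =
      (gJ q μ (3 * j + 3)).1 - ((gJ q μ (3 * j + 2)).2 + μ * ((1 : ℕ) : ℝ) * (gJ q μ (3 * j + 3)).1) / (((1 : ℕ) : ℝ) * q) := by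
      rw [hμ]
      push_cast
      field_simp
      ring
    rw [h5]
    exact h1

/-- T2. The graph `R_n`. -/
theorem exists_RGraph (q k : ℕ) (hq : 12 ≤ q) (hq6 : 6 ∣ q) :
    ∃ H : SimpleGraph (Fin (k * (q + 3) + (q + 3) + q / 2)), ∃ _ : DecidableRel H.Adj,
      H.Connected ∧ (∀ v, H.degree v ≤ q + 2) ∧ (∃ v, H.degree v = q + 2) ∧ (∃ v, H.degree v ≠ q + 2) ∧
      (∀ lam ε : ℝ, 0 < ε → ε * (q : ℝ) ^ 6 ≤ 1 → lam = q + 2 - 2 * q * ε →
        (∀ f : Fin (k * (q + 3) + (q + 3) + q / 2) → ℝ, f ⬝ᵥ (H.adjMatrix ℝ *ᵥ f) ≤ lam * (f ⬝ᵥ f)) →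
        ∀ j ≤ k, 0 ≤ (1 - 2 * ε) * (stR q ε j).1 - 2 * (stR q ε j).2) := by
  let e : Fin (k * (q + 3) + (q + 3) + q / 2) ≃ VR q k := (Fintype.equivFinOfCardEq (card_VR q k)).symm
  let inst : DecidableRel ((GR q k).comap e).Adj := Classical.decRel _
  exact ⟨(GR q k).comap e, inst,
    (SimpleGraph.Iso.comap e (GR q k)).connected_iff.mpr (GR_connected hq),
    RGraph_props hq hq6 e _ (fun v u => Iff.rfl)⟩

end Pool.MP_048773_co
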