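import Mathlib

/-!
# The polynomial inequality for the exact `R`-block
-/

namespace Pool.MP_048773_co

theorem polyA {ε z : ℝ} (hε : 0 < ε) (hz : 0 < z) (hεs : ε ≤ 1 / 10 ^ 14) :
    0 ≤ 9/10*ε^2 + 3/5*ε*z + 1/10*z^2 + 72/5*ε^3 + 42/5*ε^2*z + 6/5*ε*z^2
        - 162/5*ε^4 - 204/5*ε^3*z - 48/5*ε^2*z^2 + 216/5*ε^4*z + 104/5*ε^3*z^2
        - 72/5*ε^4*z^2 := by
  have e : 9/10*ε^2 + 3/5*ε*z + 1/10*z^2 + 72/5*ε^3 + 42/5*ε^2*z + 6/5*ε*z^2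
        - 162/5*ε^4 - 204/5*ε^3*z - 48/5*ε^2*z^2 + 216/5*ε^4*z + 104/5*ε^3*z^2
        - 72/5*ε^4*z^2 = 9/10*ε^2 + 3/5*(ε*z) + 1/10*z^2 + ε^3 * (72/5 - 162/5*ε)
        + (ε^2*z) * (42/5 - 204/5*ε) + (ε*z^2) * (6/5 - 48/5*ε) + 216/5*(ε^4*z)
        + (ε^3*z^2) * (104/5 - 72/5*ε) := by ring
  rw [e]
  have p1 : 0 ≤ ε^3 * (72/5 - 162/5*ε) := mul_nonneg (by positivity) (by linarith)
  have p2 : 0 ≤ (ε^2*z) * (42/5 - 204/5*ε) := mul_nonneg (by positivity) (by linarith)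
  have p3 : 0 ≤ (ε*z^2) * (6/5 - 48/5*ε) := mul_nonneg (by positivity) (by linarith)
  have p4 : 0 ≤ (ε^3*z^2) * (104/5 - 72/5*ε) := mul_nonneg (by positivity) (by linarith)
  have p5 : 0 ≤ ε^4*z := by positivity
  have p6 : 0 ≤ ε*z := by positivity
  have p7 : 0 ≤ ε^2 := by positivity
  have p8 : 0 ≤ z^2 := by positivity
  linarith

theorem polyB {ε z : ℝ} (hε : 0 < ε) (hz : 0 < z) (hεs : ε ≤ 1 / 10 ^ 14)
    (hzs : z ≤ 1 / 10 ^ 14) :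
    1 / 10 * z ≤ 3/5*ε + 1/5*z + 891/100*ε^2 + 97/50*ε*z - 21/100*z^2
        - 891/25*ε^3 - 711/25*ε^2*z - 78/25*ε*z^2 - 729/25*ε^4 + 702/25*ε^3*z
        + 294/25*ε^2*z^2 + 972/25*ε^4*z - 72/25*ε^3*z^2 - 324/25*ε^4*z^2 := by
  have hε2 : ε ^ 2 ≤ 1 / 10 ^ 14 := by
    have : ε ^ 2 ≤ ε ^ 1 := pow_le_pow_of_le_one hε.le (by linarith) (by norm_num)
    linarith
  have hε20 : 0 ≤ ε ^ 2 := by positivity
  have e : 3/5*ε + 1/5*z + 891/100*ε^2 + 97/50*ε*z - 21/100*z^2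
        - 891/25*ε^3 - 711/25*ε^2*z - 78/25*ε*z^2 - 729/25*ε^4 + 702/25*ε^3*z
        + 294/25*ε^2*z^2 + 972/25*ε^4*z - 72/25*ε^3*z^2 - 324/25*ε^4*z^2 =
        3/5*ε + z * (1/5 - 21/100*z - 711/25*ε^2) + ε^2 * (891/100 - 891/25*ε - 729/25*ε^2)
        + (ε*z) * (97/50 - 78/25*z) + 702/25*(ε^3*z)
        + (ε^2*z^2) * (294/25 - 72/25*ε - 324/25*ε^2) + 972/25*(ε^4*z) := by ring
  rw [e]
  have p1 : z * (1/10) ≤ z * (1/5 - 21/100*z - 711/25*ε^2) :=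
    mul_le_mul_of_nonneg_left (by linarith) hz.le
  have p2 : 0 ≤ ε^2 * (891/100 - 891/25*ε - 729/25*ε^2) :=
    mul_nonneg (by positivity) (by linarith)
  have p3 : 0 ≤ (ε*z) * (97/50 - 78/25*z) := mul_nonneg (by positivity) (by linarith)
  have p4 : 0 ≤ (ε^2*z^2) * (294/25 - 72/25*ε - 324/25*ε^2) :=
    mul_nonneg (by positivity) (by linarith)
  have p5 : 0 ≤ ε^4*z := by positivity
  have p6 : 0 ≤ ε^3*z := by positivity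
  linarith

theorem polyC {ε z : ℝ} (hε : 0 < ε) (hz : 0 < z)
    (hzs : z ≤ 1 / 10 ^ 14) (hεz : 10 ^ 7 * ε ≤ z) :
    -z ≤ - 63/100*ε - 21/100*z - 243/20*ε^2 - 33/10*ε*z + 11/100*z^2
        - 729/50*ε^3 + 243/25*ε^2*z + 97/50*ε*z^2 + 486/25*ε^3*z - 27/25*ε^2*z^2
        - 162/25*ε^3*z^2 := by
  have hε2 : ε ^ 2 ≤ ε := by
    have : ε ^ 2 ≤ ε ^ 1 := pow_le_pow_of_le_one hε.le (by linarith) (by norm_num)
    linarith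
  have hε3 : ε ^ 3 ≤ ε := by
    have : ε ^ 3 ≤ ε ^ 1 := pow_le_pow_of_le_one hε.le (by linarith) (by norm_num)
    linarith
  have c2 : ε * z ≤ ε := mul_le_of_le_one_right hε.le (by linarith)
  have hz2 : z ^ 2 ≤ 1 := pow_le_one₀ hz.le (by linarith)
  have c4 : ε ^ 2 * z ^ 2 ≤ ε := by
    have : ε ^ 2 * z ^ 2 ≤ ε ^ 2 * 1 := mul_le_mul_of_nonneg_left hz2 (by positivity)
    linarith
  have c5 : ε ^ 3 * z ^ 2 ≤ ε := by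
    have : ε ^ 3 * z ^ 2 ≤ ε ^ 3 * 1 := mul_le_mul_of_nonneg_left hz2 (by positivity)
    linarith
  have p1 : 0 ≤ z ^ 2 := by positivity
  have p2 : 0 ≤ ε ^ 2 * z := by positivity
  have p3 : 0 ≤ ε * z ^ 2 := by positivity
  have p4 : 0 ≤ ε ^ 3 * z := by positivity
  linarith

theorem polyR {t ε z : ℝ} (ht : 0 < t) (hε : 0 < ε) (hz : 0 < z) (hεs : ε ≤ 1 / 10 ^ 14)
    (hzs : z ≤ 1 / 10 ^ 14) (hεz : 10 ^ 7 * ε ≤ z) (hts : t ≤ 1 / 10 ^ 7)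
    {Va Ib Vb Ic i1 v1 i2 v2 i3 : ℝ}
    (hVa : Va = 1 - (t + 2 * ε)) (hIb : Ib = (t + 2 * ε) + z * Va) (hVb : Vb = Va - 2 * Ib)
    (hIc : Ic = Ib + ε * Vb) (hi1 : i1 = t + ε * (1 + 9 / 10 * t))
    (hv1 : v1 = (1 + 9 / 10 * t) - 2 * i1) (hi2 : i2 = i1 + z * v1) (hv2 : v2 = v1 - i2)
    (hi3 : i3 = i2 + 2 * ε * v2) : (Vb + 9 / 10 * Ic) * i3 ≤ v2 * Ic := by
  have hA := polyA hε hz hεs
  have hB := mul_le_mul_of_nonneg_left (polyB hε hz hεs hzs) ht.le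
  have hC := mul_le_mul_of_nonneg_left (polyC hε hz hzs hεz) (sq_nonneg t)
  have htz : 0 ≤ t * z * (1 / 10 - t) := mul_nonneg (by positivity) (by linarith)
  have key : v2 * Ic - (Vb + 9 / 10 * Ic) * i3 =
      (9/10*ε^2 + 3/5*ε*z + 1/10*z^2 + 72/5*ε^3 + 42/5*ε^2*z + 6/5*ε*z^2
        - 162/5*ε^4 - 204/5*ε^3*z - 48/5*ε^2*z^2 + 216/5*ε^4*z + 104/5*ε^3*z^2
        - 72/5*ε^4*z^2) + t * (3/5*ε + 1/5*z + 891/100*ε^2 + 97/50*ε*z - 21/100*z^2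
        - 891/25*ε^3 - 711/25*ε^2*z - 78/25*ε*z^2 - 729/25*ε^4 + 702/25*ε^3*z
        + 294/25*ε^2*z^2 + 972/25*ε^4*z - 72/25*ε^3*z^2 - 324/25*ε^4*z^2)
        + t ^ 2 * (- 63/100*ε - 21/100*z - 243/20*ε^2 - 33/10*ε*z + 11/100*z^2
        - 729/50*ε^3 + 243/25*ε^2*z + 97/50*ε*z^2 + 486/25*ε^3*z - 27/25*ε^2*z^2
        - 162/25*ε^3*z^2) := by
    subst hVa hIb hVb hIc hi1 hv1 hi2 hv2 hi3
    ring
  have : t * z * (1 / 10 - t) = t * (1 / 10 * z) + t ^ 2 * (-z) := by ring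
  linarith

end Pool.MP_048773_co
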