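import Pool.Agent.MP_048773_co.Steps
import Pool.Agent.MP_048773_co.StepsPoly

/-!
# The exact blocks
-/

namespace Pool.MP_048773_co

noncomputable section

variable {q ε t t' s : ℝ}

/-- normalised `F`-state -/
theorem uu_state (h : Par q ε) (ht : 0 < t) (htq : t ≤ 1 / q) {Va Ib Vb Ic : ℝ}
    (hVa : Va = 1 - (t + 2 * ε)) (hIb : Ib = (t + 2 * ε) + (ε * q) * Va) (hVb : Vb = Va - 2 * Ib)
    (hIc : Ic = Ib + ε * Vb) : 0 < Vb ∧ 0 < Ic ∧ uu q ε t = Ic / Vb := by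
  have hq0 := h.q0
  have hε := h.hε
  have h1 := h.eqs
  have h2 := h.invq
  have h3 := h.es
  have ht7 : t ≤ 1 / 10 ^ 7 := htq.trans h2
  have hz0 : 0 < ε * q := by positivity
  have hy : t + 2 * ε ≤ 1 / 10 ^ 6 := by linarith
  have hVa0 : 1 / 2 < Va := by rw [hVa]; linarith
  have hVa1 : Va ≤ 1 := by rw [hVa]; linarith
  have hIb0 : 0 < Ib := by
    rw [hIb]
    have : 0 < (ε * q) * Va := by positivity
    linarith
  have hIb1 : Ib ≤ 1 / 10 ^ 5 := by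
    rw [hIb]
    have : (ε * q) * Va ≤ (ε * q) * 1 := mul_le_mul_of_nonneg_left hVa1 hz0.le
    linarith
  have hVb0 : 0 < Vb := by rw [hVb]; linarith
  have hIc0 : 0 < Ic := by rw [hIc]; positivity
  refine ⟨hVb0, hIc0, ?_⟩
  have hw : (t + 2 * ε) / (1 - (t + 2 * ε)) + q * ε = Ib / Va := by
    rw [hIb, hVa]
    have : (1 - (t + 2 * ε)) ≠ 0 := by rw [← hVa]; linarith
    field_simp
  unfold uu
  rw [hw]
  have hVa' : Va ≠ 0 := by linarith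
  have hVb' : Vb ≠ 0 := hVb0.ne'
  have e1 : 1 - 2 * (Ib / Va) = Vb / Va := by rw [hVb]; field_simp
  rw [e1, div_div_div_cancel_right₀ hVa', hIc]
  field_simp

/-- exact `F`-block -/
theorem core_F {V0 I0 : ℝ} (h : Par q ε) (ht : 0 < t) (htq : t ≤ 1 / q)
    (hst : Step q ε 0 t t') (h0 : I0 ≤ t * V0)
    (hI1 : 0 < (stepF q ε (V0, I0)).2) :
    (stepF q ε (V0, I0)).2 ≤ t' * (stepF q ε (V0, I0)).1 := by
  have ht' := hst.pos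
  have hm := hst.main
  have hg : gs q ε 0 t = t := by unfold gs; ring
  rw [hg] at hm
  obtain ⟨Va, hVa⟩ : ∃ Va, Va = 1 - (t + 2 * ε) := ⟨_, rfl⟩
  obtain ⟨Ib, hIb⟩ : ∃ Ib, Ib = (t + 2 * ε) + (ε * q) * Va := ⟨_, rfl⟩
  obtain ⟨Vb, hVb⟩ : ∃ Vb, Vb = Va - 2 * Ib := ⟨_, rfl⟩
  obtain ⟨Ic, hIc⟩ : ∃ Ic, Ic = Ib + ε * Vb := ⟨_, rfl⟩
  obtain ⟨hVb0, hIc0, huu⟩ := uu_state h ht htq hVa hIb hVb hIc
  obtain ⟨VB, hVB⟩ : ∃ VB, VB = (V0 - (I0 + ε * 2 * V0)) - 2 * ((I0 + ε * 2 * V0) +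
    ε * q * (V0 - (I0 + ε * 2 * V0))) := ⟨_, rfl⟩
  obtain ⟨IC, hIC⟩ : ∃ IC, IC = ((I0 + ε * 2 * V0) + ε * q * (V0 - (I0 + ε * 2 * V0))) +
    ε * VB := ⟨_, rfl⟩
  have hstate : stepF q ε (V0, I0) = (VB - q * IC, IC) := by
    unfold stepF addRes addMass
    simp only [hVB, hIC, one_mul, mul_one]
  rw [hstate] at hI1 ⊢
  simp only at hI1 ⊢
  have cross : IC * Vb - Ic * VB = I0 - t * V0 := by
    rw [hIc, hVb, hIb, hIC, hVB, hVa]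
    ring
  have e1 : IC * Vb ≤ Ic * VB := by linarith
  have e2 : 1 / uu q ε t * IC ≤ VB := by
    rw [huu, one_div_div, div_mul_eq_mul_div, div_le_iff₀ hIc0]
    linarith
  have e3 : (1 / t' + q) * IC ≤ VB := by
    refine (mul_le_mul_of_nonneg_right ?_ hI1.le).trans e2
    linarith
  have e4 : 1 / t' * IC ≤ VB - q * IC := by linarith
  rw [div_mul_eq_mul_div, one_mul, div_le_iff₀ ht'] at e4
  linarith

/-- exact `R`-block -/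
theorem core_R {V0 I0 : ℝ} (h : Par q ε) (ht : 0 < t) (htq : t ≤ 1 / q)
    (hst : Step q ε 0 t t') (h0 : I0 ≤ t * (V0 - 9 / 10 * I0))
    (hI1 : 0 < (stepR q ε (V0, I0)).2) :
    (stepR q ε (V0, I0)).2 ≤
      t' * ((stepR q ε (V0, I0)).1 - 9 / 10 * (stepR q ε (V0, I0)).2) := by
  have hq0 := h.q0
  have hε := h.hε
  have ht' := hst.pos
  have hm := hst.main
  have h1 := h.eqs
  have h2 := h.invq
  have h3 := h.es
  have hz0 : 0 < ε * q := by positivity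
  have hg : gs q ε 0 t = t := by unfold gs; ring
  rw [hg] at hm
  have ht7 : t ≤ 1 / 10 ^ 7 := htq.trans h2
  obtain ⟨Va, hVa⟩ : ∃ Va, Va = 1 - (t + 2 * ε) := ⟨_, rfl⟩
  obtain ⟨Ib, hIb⟩ : ∃ Ib, Ib = (t + 2 * ε) + (ε * q) * Va := ⟨_, rfl⟩
  obtain ⟨Vb, hVb⟩ : ∃ Vb, Vb = Va - 2 * Ib := ⟨_, rfl⟩
  obtain ⟨Ic, hIc⟩ : ∃ Ic, Ic = Ib + ε * Vb := ⟨_, rfl⟩
  obtain ⟨hVb0, hIc0, huu⟩ := uu_state h ht htq hVa hIb hVb hIc
  obtain ⟨i1, hi1⟩ : ∃ i1, i1 = t + ε * (1 + 9 / 10 * t) := ⟨_, rfl⟩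
  obtain ⟨v1, hv1⟩ : ∃ v1, v1 = (1 + 9 / 10 * t) - 2 * i1 := ⟨_, rfl⟩
  obtain ⟨i2, hi2⟩ : ∃ i2, i2 = i1 + (ε * q) * v1 := ⟨_, rfl⟩
  obtain ⟨v2, hv2⟩ : ∃ v2, v2 = v1 - i2 := ⟨_, rfl⟩
  obtain ⟨i3, hi3⟩ : ∃ i3, i3 = i2 + 2 * ε * v2 := ⟨_, rfl⟩
  have hεs : ε ≤ 1 / 10 ^ 14 := by linarith
  have poly := polyR ht hε hz0 hεs h1 h3 ht7 hVa hIb hVb hIc hi1 hv1 hi2 hv2 hi3
  have hi10 : 0 < i1 := by rw [hi1]; positivity
  have hi1s : i1 ≤ 1 / 10 ^ 6 := by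
    have : ε * (1 + 9 / 10 * t) ≤ ε * 2 := mul_le_mul_of_nonneg_left (by linarith) hε.le
    rw [hi1]; linarith
  have hv1l : 1 / 2 ≤ v1 := by rw [hv1]; linarith
  have hv1u : v1 ≤ 2 := by rw [hv1]; linarith
  have hzv : (ε * q) * v1 ≤ (ε * q) * 2 := mul_le_mul_of_nonneg_left hv1u hz0.le
  have hzv0 : 0 < (ε * q) * v1 := by positivity
  have hi20 : 0 < i2 := by rw [hi2]; linarith
  have hi2s : i2 ≤ 1 / 10 ^ 5 := by rw [hi2]; linarith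
  have hv20 : 0 < v2 := by rw [hv2]; linarith
  have hi30 : 0 < i3 := by rw [hi3]; positivity
  obtain ⟨V2, hV2⟩ : ∃ V2, V2 = (V0 - 2 * (I0 + ε * 1 * V0)) - ((I0 + ε * 1 * V0) +
    ε * q * (V0 - 2 * (I0 + ε * 1 * V0))) := ⟨_, rfl⟩
  obtain ⟨I3, hI3⟩ : ∃ I3, I3 = ((I0 + ε * 1 * V0) + ε * q * (V0 - 2 * (I0 + ε * 1 * V0))) +
    ε * 2 * V2 := ⟨_, rfl⟩
  have hstate : stepR q ε (V0, I0) = (V2 - q * I3, I3) := by
    unfold stepR addRes addMass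
    simp only [hV2, hI3, one_mul]
  rw [hstate] at hI1 ⊢
  simp only at hI1 ⊢
  have cross : I3 * v2 - i3 * V2 = I0 * (1 + 9 / 10 * t) - t * V0 := by
    rw [hI3, hV2, hi3, hv2, hi2, hv1, hi1]
    ring
  have e1 : I3 * v2 ≤ i3 * V2 := by linarith
  have e2 : (1 / uu q ε t + 9 / 10) * I3 ≤ V2 := by
    have f1 : (1 / uu q ε t + 9 / 10) ≤ v2 / i3 := by
      rw [huu, one_div_div, div_add' _ _ _ hIc0.ne', div_le_div_iff₀ hIc0 hi30]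
      linarith
    have f2 : v2 / i3 * I3 ≤ V2 := by
      rw [div_mul_eq_mul_div, div_le_iff₀ hi30]; linarith
    exact (mul_le_mul_of_nonneg_right f1 hI1.le).trans f2
  have e3 : (1 / t' + q + 9 / 10) * I3 ≤ V2 := by
    refine (mul_le_mul_of_nonneg_right ?_ hI1.le).trans e2
    linarith
  have e4 : 1 / t' * I3 ≤ V2 - q * I3 - 9 / 10 * I3 := by linarith
  rw [div_mul_eq_mul_div, one_mul, div_le_iff₀ ht'] at e4
  linarith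

end

end Pool.MP_048773_co
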