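import Pool.Agent.MP_048773_co.T3Blocks
import Pool.Agent.MP_048773_co.StepsFR

/-!
# T3, the main induction
-/

namespace Pool.MP_048773_co

open Finset Classical

noncomputable section

variable {q n : ℕ} {μ : ℝ} {x : ℕ → ℝ} {N : ℕ → Finset ℕ} {yB : ℕ → ℝ}

def ell (n : ℕ) (N : ℕ → Finset ℕ) (i : ℕ) : ℝ := if Sing1 n N i then 0 else 9 / 10

theorem ell_nonneg (i : ℕ) : 0 ≤ ell n N i := by
  unfold ell; split_ifs <;> norm_num

theorem ell_le (i : ℕ) : ell n N i ≤ 9 / 10 := by
  unfold ell; split_ifs <;> norm_num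

def Claim2 (q n : ℕ) (μ : ℝ) (x : ℕ → ℝ) (N : ℕ → Finset ℕ) (yB : ℕ → ℝ) (i : ℕ) : Prop :=
  Iv q μ x i ≤ yB i * (lowAvg x n N i - ell n N i * Iv q μ x i)

def ClaimX (q : ℕ) (μ : ℝ) (x : ℕ → ℝ) (yB : ℕ → ℝ) (i : ℕ) : Prop :=
  Iv q μ x i ≤ yB i * (x i - q / 3 * Iv q μ x i)

def TopOK (q n : ℕ) (μ : ℝ) (x : ℕ → ℝ) (N : ℕ → Finset ℕ) (yB : ℕ → ℝ) (i : ℕ) : Prop :=
  i = 0 ∨ (q + 3 ≤ i ∧ (((cutE n N i).card = 2 ∧ Claim2 q n μ x N yB i) ∨ ClaimX q μ x yB i))

theorem sing_both {i : ℕ} (hc : (cutE n N i).card = 2) (h2 : Sing2 n N i) : ¬ Sing1 n N i := by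
  rintro ⟨b, hb⟩
  obtain ⟨a, ha⟩ := h2
  have : cutE n N i ⊆ {(b, a)} := by
    intro e he
    rw [mem_singleton]
    ext
    · exact hb e he
    · exact ha e he
  have := card_le_card this
  rw [hc, card_singleton] at this
  omega

theorem PData.Iv_pos (hd : PData q n μ x N) (hμ : 0 < μ) (hq0 : (0 : ℝ) < q) {i : ℕ}
    (hi : 0 < i) : 0 < Iv q μ x i := by
  unfold Iv
  have := hd.J_pos hμ hi
  positivity

/-- crude bound at the bottom of a short run, 2-edge cut -/
theorem PData.low_crude (hd : PData q n μ x N) (hμ : 0 < μ) (hq : 10 ^ 7 ≤ q) {i0 i : ℕ}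
    (h0 : i0 < i) (hi : i ≤ n) (hlen : i - i0 ≤ 4 * (q + 3))
    (hns : ∀ j, i0 < j → j < i → ¬ Sig μ x j) (hc : (cutE n N i).card = 2) :
    x i0 - (q + q / 1000) * Iv q μ x i ≤ lowAvg x n N i := by
  have hq' : (10 ^ 7 : ℝ) ≤ q := by exact_mod_cast hq
  have hq0 : (0 : ℝ) < q := by linarith
  have hsp := hd.spread hμ hq h0 hi hlen hns
  have hJI := PData.J_eq_Iv (μ := μ) (x := x) hq0 i
  have hfl := hd.flux hi
  rw [sum_sub_distrib] at hfl
  have h1 : (2 : ℝ) * x (i - 1) ≤ ∑ e ∈ cutE n N i, x e.1 := by
    have := card_nsmul_le_sum (cutE n N i) (fun e => x e.1) (x (i - 1)) (fun e he =>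
      hd.anti (by have := (hd.mem_cutE hi).mp he; omega))
    rw [hc, nsmul_eq_mul] at this
    exact_mod_cast this
  unfold lowAvg
  linarith

/-- crude bound at the bottom of a short run, other cuts -/
theorem PData.low_crudeX (hd : PData q n μ x N) (hμ : 0 < μ) (hq : 10 ^ 7 ≤ q) {i0 i : ℕ}
    (h0 : i0 < i) (hi : i ≤ n) (hlen : i - i0 ≤ 4 * (q + 3))
    (hns : ∀ j, i0 < j → j < i → ¬ Sig μ x j) (hc : ¬ Sig μ x i ∨ 4 ≤ (cutE n N i).card) :
    x i0 - (q / 2 + q / 1000) * Iv q μ x i ≤ x i := by
  have hq' : (10 ^ 7 : ℝ) ≤ q := by exact_mod_cast hq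
  have hq0 : (0 : ℝ) < q := by linarith
  have hsp := hd.spread hμ hq h0 hi hlen hns
  have hJI := PData.J_eq_Iv (μ := μ) (x := x) hq0 i
  have hJ0 := hd.J_pos hμ (show 0 < i by omega)
  have h1 : x (i - 1) - x i ≤ J μ x i / 4 := by
    rcases hc with h | h
    · unfold Sig at h
      push Not at h
      linarith
    · have h1 := hd.card_mul_gap hi
      have h2 := hd.gap_nonneg i
      have h3 : (4 : ℝ) ≤ ((cutE n N i).card : ℝ) := by exact_mod_cast h
      have := mul_le_mul_of_nonneg_right h3 h2
      linarith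
  linarith

/-- one chunk -/
theorem PData.chunk (hd : PData q n μ x N) (hμ : 0 < μ) (hq : 10 ^ 7 ≤ q)
    (hB : Barrier q n (μ / (2 * q)) yB) (hε : μ / (2 * q) * (q : ℝ) ^ 6 ≤ 1) {i0 i : ℕ}
    (h0 : i0 < i) (hi : i ≤ n) (hge : q + 3 ≤ i - i0) (hlen : i - i0 < 4 * (q + 3))
    (hns : ∀ j, i0 < j → j < i → ¬ Sig μ x j) (htop : TopOK q n μ x N yB i0) :
    ((cutE n N i).card = 2 → Claim2 q n μ x N yB i) ∧
    ((¬ Sig μ x i ∨ 4 ≤ (cutE n N i).card) → ClaimX q μ x yB i) := by
  have hq' : (10 ^ 7 : ℝ) ≤ q := by exact_mod_cast hq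
  have hq0 : (0 : ℝ) < q := by linarith
  have hI := hd.Iv_pos hμ hq0 (show 0 < i by omega)
  have hsub := PData.Iv_sub (μ := μ) (x := x) hq0 h0
  have hcb := hd.cbar_le h0
  obtain ⟨ε, hεdef⟩ : ∃ ε, ε = μ / (2 * q) := ⟨_, rfl⟩
  rw [← hεdef] at hB hε hsub
  have hε0 : 0 < ε := by rw [hεdef]; positivity
  have hpar : Par q ε := ⟨hq', hε0, hε⟩
  have hy := hB.pos i (by omega) hi
  have hp0 : (0 : ℝ) < ((i - i0 : ℕ) : ℝ) := by
    have : 0 < i - i0 := by omega
    positivity
  rcases Nat.eq_zero_or_pos i0 with hz | hpos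
  · -- top cluster
    subst hz
    have hI00 : Iv q μ x 0 = 0 := by unfold Iv J; simp
    rw [hI00, zero_add, Nat.sub_zero] at hsub
    rw [Nat.sub_zero] at hp0
    have hcr := fun hc => hd.low_crude hμ hq h0 hi hlen.le hns hc
    have hcrX := fun hc => hd.low_crudeX hμ hq h0 hi hlen.le hns hc
    have hbase : 1 / yB i ≤ 1 / (ε * i) - q := by
      by_cases h5 : 5 * i ≤ 8 * (q + 3)
      · have := hB.base1 i (by omega) hi h5
        linarith
      · have := hB.base2 i (by omega) (by omega) hi
        linarith
    have hx0 : Iv q μ x i ≤ ε * i * x 0 := by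
      rw [hsub]
      exact mul_le_mul_of_nonneg_left hcb (by positivity)
    have hx0' : 1 / (ε * i) * Iv q μ x i ≤ x 0 := by
      rw [div_mul_eq_mul_div, one_mul, div_le_iff₀ (by positivity)]
      linarith
    constructor
    · intro hc
      unfold Claim2
      have goal' : 1 / yB i * Iv q μ x i ≤ lowAvg x n N i - ell n N i * Iv q μ x i := by
        by_cases h5 : 5 * i ≤ 8 * (q + 3)
        · have hb := hB.base1 i (by omega) hi h5
          obtain ⟨w1, w2⟩ := hd.dense_W hμ hq h0 hi (by omega) (by rw [cutE_zero]; simp) hc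
          have hcI : 1 / (ε * i) * Iv q μ x i = cbar x 0 i := by
            rw [hsub]; field_simp
          have hb' := mul_le_mul_of_nonneg_right hb hI.le
          by_cases hs : Sing1 n N i
          · have : ell n N i = 0 := if_pos hs
            rw [this]; linarith
          · have : ell n N i = 9 / 10 := if_neg hs
            have w3 := w2 hs
            rw [this]; linarith
        · have hb := hB.base2 i (by omega) (by omega) hi
          have hb' := mul_le_mul_of_nonneg_right hb hI.le
          have h6 := hcr hc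
          have h7 := mul_le_mul_of_nonneg_right (ell_le (n := n) (N := N) i) hI.le
          linarith
      rw [div_mul_eq_mul_div, one_mul, div_le_iff₀ hy] at goal'
      linarith
    · intro hc
      unfold ClaimX
      have h6 := hcrX hc
      have hb' := mul_le_mul_of_nonneg_right hbase hI.le
      have goal' : 1 / yB i * Iv q μ x i ≤ x i - q / 3 * Iv q μ x i := by
        have : 0 < (q : ℝ) * Iv q μ x i := by positivity
        linarith
      rw [div_mul_eq_mul_div, one_mul, div_le_iff₀ hy] at goal'
      linarith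
  · -- general step
    have htop' : q + 3 ≤ i0 ∧ (((cutE n N i0).card = 2 ∧ Claim2 q n μ x N yB i0) ∨
        ClaimX q μ x yB i0) := by
      rcases htop with h | h
      · omega
      · exact h
    obtain ⟨hi0, htop2⟩ := htop'
    have hI0 := hd.Iv_pos hμ hq0 hpos
    have ht := hB.pos i0 hi0 (by omega)
    have htq := hB.le_inv i0 hi0 (by omega)
    have hte := hB.ge_mul i0 hi0 (by omega)
    obtain ⟨s, hs⟩ : ∃ s, s = i - i0 - (q + 3) := ⟨_, rfl⟩
    have hst := hB.step i0 s hi0 (by omega) (by omega)
    have his : i0 + (q + 3) + s = i := by omega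
    rw [his] at hst
    have hg := hst.gle
    have hps : ((i - i0 : ℕ) : ℝ) = q + 3 + s := by
      have : i - i0 = q + 3 + s := by omega
      rw [this]; push_cast; ring
    have hs0 : (0 : ℝ) ≤ (s : ℝ) := Nat.cast_nonneg _
    have hs3 : (s : ℝ) ≤ 3 * ((q : ℝ) + 3) := by
      have : s ≤ 3 * (q + 3) := by omega
      exact_mod_cast this
    have hte' : ε * ((q : ℝ) + 3) ≤ yB i0 := by
      have : ((q + 3 : ℕ) : ℝ) ≤ (i0 : ℝ) := by exact_mod_cast hi0
      push_cast at this
      have := mul_le_mul_of_nonneg_left this hε0.le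
      linarith
    rw [hps] at hsub
    have hsubx : Iv q μ x i ≤ Iv q μ x i0 + ε * ((q : ℝ) + 3 + s) * x i0 := by
      rw [hsub]
      have := mul_le_mul_of_nonneg_left hcb
        (show 0 ≤ ε * ((q : ℝ) + 3 + s) by positivity)
      linarith
    have hcr := fun hc => hd.low_crude hμ hq h0 hi hlen.le hns hc
    have hcrX := fun hc => hd.low_crudeX hμ hq h0 hi hlen.le hns hc
    have hlow0 : (cutE n N i0).card = 2 → lowAvg x n N i0 ≤ x i0 := by
      intro hc
      have := sum_le_card_nsmul (cutE n N i0) (fun e => x e.2) (x i0) (fun e he =>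
        hd.anti (((hd.mem_cutE (by omega)).mp he).2.2))
      rw [hc, nsmul_eq_mul] at this
      unfold lowAvg
      push_cast at this
      linarith
    constructor
    · -- bottom 2-edge cut
      intro hc
      rcases htop2 with ⟨hc0, hcl⟩ | hclX
      · unfold Claim2 at hcl
        by_cases h5 : 5 * (i - i0) ≤ 8 * (q + 3)
        · -- dense
          obtain ⟨v1, v2⟩ := hd.dense_V hμ hq h0 hi hi0 h5 hc0 hc.le
          obtain ⟨w1, w2⟩ := hd.dense_W hμ hq h0 hi h5 hc0.le hc
          rcases Nat.eq_zero_or_pos s with hsz | hspos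
          · -- s = 0
            subst hsz
            have hlen' : i - i0 = q + 3 := by omega
            simp only [Nat.cast_zero] at hst hg hsub
            by_cases hs1 : Sing1 n N i
            · have hbl := hd.block_F hμ hq h0 hi hlen' hc0 hc hs1
              rw [← hεdef] at hbl
              have hI' : 0 < (stepF q ε (lowAvg x n N i0, Iv q μ x i0)).2 := by
                rw [← hbl]; exact hI
              have h8 : Iv q μ x i0 ≤ yB i0 * lowAvg x n N i0 := by
                have := ell_nonneg (n := n) (N := N) i0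
                have : 0 ≤ yB i0 * (ell n N i0 * Iv q μ x i0) := by positivity
                linarith
              have := core_F hpar ht htq hst h8 hI'
              rw [← hbl] at this
              unfold Claim2
              have he : ell n N i = 0 := if_pos hs1
              rw [he]
              simp only at this
              linarith
            · by_cases hs2 : Sing2 n N i0
              · have hbl := hd.block_R hμ hq h0 hi hlen' hc0 hc hs2 hs1
                rw [← hεdef] at hbl
                have hI' : 0 < (stepR q ε (lowAvg x n N i0, Iv q μ x i0)).2 := by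
                  rw [← hbl]; exact hI
                have he0 : ell n N i0 = 9 / 10 := if_neg (sing_both hc0 hs2)
                rw [he0] at hcl
                have := core_R hpar ht htq hst hcl hI'
                rw [← hbl] at this
                unfold Claim2
                have he : ell n N i = 9 / 10 := if_neg hs1
                rw [he]
                simpa using this
              · have hv := v2 hs2
                have hw := w2 hs1
                have hK := K2 hpar ht htq hg
                have he : ell n N i = 9 / 10 := if_neg hs1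
                unfold Claim2
                refine chain (b := 101 / 100) (κ := 191 / 100) (V0 := lowAvg x n N i0)
                  (I0 := Iv q μ x i0) (c := cbar x i0 i) (a := q + 101 / 100) (b0 := 101 / 100)
                  (l := ell n N i0) (p := (q : ℝ) + 3 + 0) hpar ht htq (by norm_num) hst hK
                  (by linarith) hI0 hcl (by linarith) (by linarith) hI (by linarith) ?_ ?_
                · have := ell_nonneg (n := n) (N := N) i0
                  linarith
                · rw [he]; linarith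
          · -- s ≥ 1
            have hs1' : (1 : ℝ) ≤ (s : ℝ) := by exact_mod_cast hspos
            have hs2' : 5 * (s : ℝ) ≤ 3 * ((q : ℝ) + 3) := by
              have : 5 * s ≤ 3 * (q + 3) := by omega
              exact_mod_cast this
            have hK := K1 hpar ht htq hs1' hs2' hg
            have hE1 : ∃ b0 : ℝ, lowAvg x n N i0 - b0 * Iv q μ x i0 ≤ cbar x i0 i ∧
                b0 - ell n N i0 ≤ 111 / 100 := by
              by_cases hs2 : Sing2 n N i0
              · refine ⟨201 / 100, by linarith, ?_⟩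
                have : ell n N i0 = 9 / 10 := if_neg (sing_both hc0 hs2)
                rw [this]; norm_num
              · refine ⟨101 / 100, by have := v2 hs2; linarith, ?_⟩
                have := ell_nonneg (n := n) (N := N) i0
                linarith
            have hE2 : ∃ a : ℝ, cbar x i0 i - a * Iv q μ x i ≤ lowAvg x n N i ∧
                a + ell n N i ≤ q + 201 / 100 := by
              by_cases hs1 : Sing1 n N i
              · refine ⟨q + 201 / 100, w1, ?_⟩
                have : ell n N i = 0 := if_pos hs1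
                rw [this]; linarith
              · refine ⟨q + 101 / 100, w2 hs1, ?_⟩
                have := ell_le (n := n) (N := N) i
                linarith
            obtain ⟨b0, hb0, hb0'⟩ := hE1
            obtain ⟨a, ha, ha'⟩ := hE2
            unfold Claim2
            exact chain (b := 111 / 100) (κ := 201 / 100) (V0 := lowAvg x n N i0)
              (I0 := Iv q μ x i0) (c := cbar x i0 i) (a := a) (b0 := b0)
              (l := ell n N i0) (p := (q : ℝ) + 3 + s) hpar ht htq (by norm_num) hst hK
              (by linarith) hI0 hcl hb0 (by linarith) hI ha hb0' ha'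
        · -- loose
          have hs1' : 3 * ((q : ℝ) + 3) ≤ 5 * (s : ℝ) := by
            have : 3 * (q + 3) ≤ 5 * s := by omega
            exact_mod_cast this
          have hK := K3 hpar ht htq hs1' hs3 hg
          unfold Claim2
          refine chain (b := 0) (κ := q / 1000 + 1) (V0 := lowAvg x n N i0)
            (I0 := Iv q μ x i0) (c := x i0) (a := q + q / 1000) (b0 := 0)
            (l := ell n N i0) (p := (q : ℝ) + 3 + s) hpar ht htq (by norm_num) hst hK
            (by linarith) hI0 hcl (by have := hlow0 hc0; linarith) hsubx hI (hcr hc) ?_ ?_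
          · have := ell_nonneg (n := n) (N := N) i0
            linarith
          · have := ell_le (n := n) (N := N) i
            linarith
      · unfold ClaimX at hclX
        have hK := K4 hpar ht htq hs0 hs3 hte' hg
        unfold Claim2
        refine chain (b := -(q / 3)) (κ := q / 1000 + 1) (V0 := x i0)
          (I0 := Iv q μ x i0) (c := x i0) (a := q + q / 1000) (b0 := 0)
          (l := q / 3) (p := (q : ℝ) + 3 + s) hpar ht htq (by linarith) hst hK
          (by linarith) hI0 hclX (by linarith) hsubx hI (hcr hc) ?_ ?_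
        · linarith
        · have := ell_le (n := n) (N := N) i
          linarith
    · -- other cuts
      intro hc
      have hK := K5 hpar ht hs0 hg
      have hlowc := hcrX hc
      unfold ClaimX
      rcases htop2 with ⟨hc0, hcl⟩ | hclX
      · unfold Claim2 at hcl
        refine chain (b := 0) (κ := 0) (V0 := lowAvg x n N i0)
          (I0 := Iv q μ x i0) (c := x i0) (a := q / 2 + q / 1000) (b0 := 0)
          (l := ell n N i0) (p := (q : ℝ) + 3 + s) hpar ht htq (by norm_num) hst hK
          (by linarith) hI0 hcl (by have := hlow0 hc0; linarith) hsubx hI hlowc ?_ ?_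
        · have := ell_nonneg (n := n) (N := N) i0
          linarith
        · linarith
      · unfold ClaimX at hclX
        refine chain (b := 0) (κ := 0) (V0 := x i0)
          (I0 := Iv q μ x i0) (c := x i0) (a := q / 2 + q / 1000) (b0 := 0)
          (l := q / 3) (p := (q : ℝ) + 3 + s) hpar ht htq (by norm_num) hst hK
          (by linarith) hI0 hclX (by linarith) hsubx hI hlowc ?_ ?_
        · linarith
        · linarith

/-- long runs -/
theorem PData.long (hd : PData q n μ x N) (hμ : 0 < μ) (hq : 10 ^ 7 ≤ q)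
    (hB : Barrier q n (μ / (2 * q)) yB) (hε : μ / (2 * q) * (q : ℝ) ^ 6 ≤ 1) {i : ℕ}
    (hi : i ≤ n) (k : ℕ) : ∀ i0 : ℕ, i0 < i → i - i0 = k → q + 3 ≤ i - i0 →
    (∀ j, i0 < j → j < i → ¬ Sig μ x j) → TopOK q n μ x N yB i0 →
    ((cutE n N i).card = 2 → Claim2 q n μ x N yB i) ∧
    ((¬ Sig μ x i ∨ 4 ≤ (cutE n N i).card) → ClaimX q μ x yB i) := by
  induction k using Nat.strong_induction_on with
  | _ k ih =>
    intro i0 h0 hk hge hns htop
    by_cases hlen : i - i0 < 4 * (q + 3)
    · exact hd.chunk hμ hq hB hε h0 hi hge hlen hns htop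
    · have hj := hd.chunk (i := i0 + (q + 3)) hμ hq hB hε (by omega) (by omega) (by omega)
        (by omega) (fun j h1 h2 => hns j h1 (by omega)) htop
      have hjX := hj.2 (Or.inl (hns (i0 + (q + 3)) (by omega) (by omega)))
      exact ih (i - (i0 + (q + 3))) (by omega) (i0 + (q + 3)) (by omega) rfl (by omega)
        (fun j h1 h2 => hns j (by omega) h2) (Or.inr ⟨by omega, Or.inr hjX⟩)

theorem not_sig_zero : ¬ Sig μ x 0 := by
  unfold Sig J; simp

theorem PData.main_step (hd : PData q n μ x N) (hμ : 0 < μ) (hq : 10 ^ 7 ≤ q)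
    (hB : Barrier q n (μ / (2 * q)) yB) (hε : μ / (2 * q) * (q : ℝ) ^ 6 ≤ 1) {i : ℕ}
    (hi : i ≤ n) (hs : Sig μ x i)
    (ih : ∀ j < i, Sig μ x j → TopOK q n μ x N yB j) :
    ((cutE n N i).card = 2 → Claim2 q n μ x N yB i) ∧
    ((¬ Sig μ x i ∨ 4 ≤ (cutE n N i).card) → ClaimX q μ x yB i) := by
  have hi0 : 0 < i := by
    rcases Nat.eq_zero_or_pos i with h | h
    · subst h; exact absurd hs not_sig_zero
    · exact h
  obtain ⟨i0, hi0def⟩ : ∃ i0, i0 = Nat.findGreatest (fun j => Sig μ x j) (i - 1) := ⟨_, rfl⟩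
  have hle : i0 ≤ i - 1 := by rw [hi0def]; exact Nat.findGreatest_le _
  have hns : ∀ j, i0 < j → j < i → ¬ Sig μ x j := by
    intro j h1 h2
    rw [hi0def] at h1
    exact Nat.findGreatest_is_greatest h1 (by omega)
  have hcase : i0 = 0 ∨ Sig μ x i0 := by
    rcases Nat.eq_zero_or_pos i0 with h | h
    · exact Or.inl h
    · right
      rw [hi0def]
      exact Nat.findGreatest_of_ne_zero (P := fun j => Sig μ x j) rfl (by omega)
  have hsz := hd.size_ge hq (show i0 < i by omega) hi hcase hs
  have htop : TopOK q n μ x N yB i0 := by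
    rcases hcase with h | h
    · exact Or.inl h
    · exact ih i0 (by omega) h
  exact hd.long hμ hq hB hε hi (i - i0) i0 (by omega) rfl hsz hns htop

theorem PData.all_top (hd : PData q n μ x N) (hμ : 0 < μ) (hq : 10 ^ 7 ≤ q) (hq2 : Even q)
    (hB : Barrier q n (μ / (2 * q)) yB) (hε : μ / (2 * q) * (q : ℝ) ^ 6 ≤ 1) (i : ℕ) :
    i ≤ n → Sig μ x i → TopOK q n μ x N yB i := by
  induction i using Nat.strong_induction_on with
  | _ i ih =>
    intro hi hs
    have hi0 : 0 < i := by
      rcases Nat.eq_zero_or_pos i with h | h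
      · subst h; exact absurd hs not_sig_zero
      · exact h
    have hres := hd.main_step hμ hq hB hε hi hs (fun j hj hsj => ih j hj (by omega) hsj)
    have hsz := hd.size_ge hq hi0 hi (Or.inl rfl) hs
    refine Or.inr ⟨by omega, ?_⟩
    by_cases hc : (cutE n N i).card = 2
    · exact Or.inl ⟨hc, hres.1 hc⟩
    · right
      apply hres.2
      right
      have h1 := hd.card_cut_pos hμ hi0 hi
      obtain ⟨r, hr⟩ := hd.card_even hq2 hi
      omega

/-- T3. The graph analysis. -/
theorem no_PData (q n : ℕ) (hq : 10 ^ 7 ≤ q) (hq2 : Even q) (μ : ℝ) (hμ : 0 < μ)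
    (x : ℕ → ℝ) (N : ℕ → Finset ℕ) (hd : PData q n μ x N) (yB : ℕ → ℝ)
    (hB : Barrier q n (μ / (2 * q)) yB) (hε : μ / (2 * q) * (q : ℝ) ^ 6 ≤ 1) : False := by
  have hq' : (10 ^ 7 : ℝ) ≤ q := by exact_mod_cast hq
  have hq0 : (0 : ℝ) < q := by linarith
  have hs := hd.sig_n
  have hres := hd.main_step hμ hq hB hε le_rfl hs
    (fun j hj hsj => hd.all_top hμ hq hq2 hB hε j (by omega) hsj)
  have hcE := hd.cutE_n
  have hne : ((n - 1, n) : ℕ × ℕ) ≠ (n - 1, n + 1) := by simp
  have hc : (cutE n N n).card = 2 := by rw [hcE]; exact card_pair hne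
  have h1 := hres.1 hc
  unfold Claim2 at h1
  have hlow : lowAvg x n N n = 0 := by
    unfold lowAvg
    rw [hcE, sum_pair hne]
    simp only
    rw [hd.xzero n le_rfl, hd.xzero (n + 1) (by omega)]
    norm_num
  have hsing : Sing1 n N n := by
    refine ⟨n - 1, fun e he => ?_⟩
    rw [hcE] at he
    simp only [mem_insert, mem_singleton] at he
    rcases he with rfl | rfl <;> rfl
  have hell : ell n N n = 0 := if_pos hsing
  rw [hlow, hell] at h1
  have := hd.Iv_pos hμ hq0 hd.npos
  linarith

end

end Pool.MP_048773_co
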