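import Pool.Agent.MP_048773_co.Defs

/-!
# MP_048773_co, T4 : the barrier function
-/

namespace Pool.MP_048773_co

namespace T4

noncomputable section

/-- coefficients of `stepF` -/
def cC (q ε : ℝ) : ℝ := ε * (q + 3) - ε ^ 2 * (6 + 4 * q) + 4 * ε ^ 3 * q
def cE (q ε : ℝ) : ℝ := 1 - ε * (q + 3) + 2 * ε ^ 2 * q
def cA (q ε : ℝ) : ℝ := 1 - 6 * ε - 2 * ε * q + 4 * ε ^ 2 * q - q * cC q ε
def cB (q ε : ℝ) : ℝ := 3 - 2 * ε * q + q * cE q ε

lemma stepF_fst (q ε : ℝ) (s : ℝ × ℝ) :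
    (stepF q ε s).1 = cA q ε * s.1 - cB q ε * s.2 := by
  simp only [stepF, addRes, addMass, cA, cB, cC, cE]; ring

lemma stepF_snd (q ε : ℝ) (s : ℝ × ℝ) :
    (stepF q ε s).2 = cC q ε * s.1 + cE q ε * s.2 := by
  simp only [stepF, addRes, addMass, cC, cE]; ring

lemma det_one (q ε : ℝ) : cA q ε * cE q ε + cB q ε * cC q ε = 1 := by
  simp only [cA, cB, cC, cE]; ring

def cross (s t : ℝ × ℝ) : ℝ := s.1 * t.2 - s.2 * t.1

lemma cross_stepF (q ε : ℝ) (s t : ℝ × ℝ) :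
    cross (stepF q ε s) (stepF q ε t) = cross s t := by
  simp only [cross, stepF_fst, stepF_snd]
  have := det_one q ε
  linear_combination (s.1 * t.2 - s.2 * t.1) * this

/-- iterates -/
def it (q ε : ℝ) (i : ℕ) (s : ℝ × ℝ) : ℝ × ℝ := (stepF q ε)^[i] s

@[simp] lemma it_zero (q ε : ℝ) (s : ℝ × ℝ) : it q ε 0 s = s := rfl

lemma it_succ (q ε : ℝ) (i : ℕ) (s : ℝ × ℝ) : it q ε (i + 1) s = stepF q ε (it q ε i s) :=
  Function.iterate_succ_apply' _ _ _

lemma it_succ' (q ε : ℝ) (i : ℕ) (s : ℝ × ℝ) : it q ε (i + 1) s = it q ε i (stepF q ε s) :=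
  Function.iterate_succ_apply _ _ _

lemma it_add (q ε : ℝ) (i j : ℕ) (s : ℝ × ℝ) : it q ε (i + j) s = it q ε i (it q ε j s) :=
  Function.iterate_add_apply _ _ _ _

lemma cross_it (q ε : ℝ) (i : ℕ) (s t : ℝ × ℝ) :
    cross (it q ε i s) (it q ε i t) = cross s t := by
  induction i with
  | zero => rfl
  | succ i ih => rw [it_succ, it_succ, cross_stepF, ih]

/-- standing assumptions on the reals -/
structure Par (q ε : ℝ) : Prop where
  hq : (10 : ℝ) ^ 7 ≤ q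
  e0 : 0 < ε
  he : ε * q ^ 6 ≤ 1

namespace Par

variable {q ε : ℝ} (h : Par q ε)
include h

lemma qpos : 0 < q := lt_of_lt_of_le (by norm_num) h.hq

lemma e5 : ε * q ^ 5 ≤ 1 / 10 ^ 7 := by
  have h1 := h.hq
  have h2 := h.he
  have h3 := h.e0
  have h4 : ε * q ^ 5 * 10 ^ 7 ≤ ε * q ^ 5 * q := by
    apply mul_le_mul_of_nonneg_left h1
    have := h.qpos
    positivity
  have h5 : ε * q ^ 5 * q = ε * q ^ 6 := by ring
  rw [le_div_iff₀ (by norm_num)]
  linarith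

lemma e4 : ε * q ^ 4 ≤ 1 / 10 ^ 14 := by
  have h1 := h.hq
  have h2 := h.e5
  have h3 := h.e0
  have h4 : ε * q ^ 4 * 10 ^ 7 ≤ ε * q ^ 4 * q := by
    apply mul_le_mul_of_nonneg_left h1
    have := h.qpos
    positivity
  have h5 : ε * q ^ 4 * q = ε * q ^ 5 := by ring
  rw [le_div_iff₀ (by norm_num)]
  linarith

lemma e3 : ε * q ^ 3 ≤ 1 / 10 ^ 21 := by
  have h1 := h.hq
  have h2 := h.e4
  have h3 := h.e0
  have h4 : ε * q ^ 3 * 10 ^ 7 ≤ ε * q ^ 3 * q := by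
    apply mul_le_mul_of_nonneg_left h1
    have := h.qpos
    positivity
  have h5 : ε * q ^ 3 * q = ε * q ^ 4 := by ring
  rw [le_div_iff₀ (by norm_num)]
  linarith

lemma e2 : ε * q ^ 2 ≤ 1 / 10 ^ 28 := by
  have h1 := h.hq
  have h2 := h.e3
  have h3 := h.e0
  have h4 : ε * q ^ 2 * 10 ^ 7 ≤ ε * q ^ 2 * q := by
    apply mul_le_mul_of_nonneg_left h1
    have := h.qpos
    positivity
  have h5 : ε * q ^ 2 * q = ε * q ^ 3 := by ring
  rw [le_div_iff₀ (by norm_num)]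
  linarith

lemma e1 : ε * q ≤ 1 / 10 ^ 35 := by
  have h1 := h.hq
  have h2 := h.e2
  have h3 := h.e0
  have h4 : ε * q * 10 ^ 7 ≤ ε * q * q := by
    apply mul_le_mul_of_nonneg_left h1
    have := h.qpos
    positivity
  have h5 : ε * q * q = ε * q ^ 2 := by ring
  rw [le_div_iff₀ (by norm_num)]
  linarith

lemma ee : ε ≤ 1 / 10 ^ 42 := by
  have h1 := h.hq
  have h2 := h.e1
  have h3 := h.e0
  have h4 : ε * 10 ^ 7 ≤ ε * q := mul_le_mul_of_nonneg_left h1 h3.le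
  rw [le_div_iff₀ (by norm_num)]
  linarith

lemma C_le : cC q ε ≤ ε * (q + 3) := by
  have h1 := h.qpos
  have h2 := h.e0
  have h3 := h.ee
  have : 4 * ε ^ 3 * q ≤ ε ^ 2 * (6 + 4 * q) := by
    have : ε * (4 * q) ≤ 6 + 4 * q := by nlinarith
    calc 4 * ε ^ 3 * q = ε ^ 2 * (ε * (4 * q)) := by ring
      _ ≤ ε ^ 2 * (6 + 4 * q) := by gcongr
  unfold cC; linarith

lemma C_ge : ε * (q + 3) - ε ^ 2 * (6 + 4 * q) ≤ cC q ε := by
  have h1 := h.qpos
  have h2 := h.e0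
  have : 0 ≤ 4 * ε ^ 3 * q := by positivity
  unfold cC; linarith

lemma C_pos : 0 < cC q ε := by
  have h1 := h.qpos
  have h2 := h.e0
  have h3 := h.ee
  have h4 := h.C_ge
  have : ε ^ 2 * (6 + 4 * q) < ε * (q + 3) := by
    have : ε * (6 + 4 * q) < q + 3 := by nlinarith
    calc ε ^ 2 * (6 + 4 * q) = ε * (ε * (6 + 4 * q)) := by ring
      _ < ε * (q + 3) := by gcongr
  linarith

lemma E_le : cE q ε ≤ 1 - ε * q := by
  have h1 := h.qpos
  have h2 := h.e0
  have h3 := h.ee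
  have : 2 * ε ^ 2 * q ≤ 3 * ε := by
    have := h.e1
    nlinarith
  unfold cE; linarith

lemma E_ge : 1 - ε * (q + 3) ≤ cE q ε := by
  have h1 := h.qpos
  have h2 := h.e0
  have : 0 ≤ 2 * ε ^ 2 * q := by positivity
  unfold cE; linarith

lemma E_pos : 1 / 2 < cE q ε := by
  have h1 := h.E_ge
  have h2 := h.e1
  have h3 := h.ee
  have h4 := h.e0
  nlinarith

lemma A_ge : 1 - ε * (q ^ 2 + 5 * q + 6) ≤ cA q ε := by
  have h1 := h.C_le
  have h2 := h.qpos
  have h3 := h.e0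
  have h4 : q * cC q ε ≤ q * (ε * (q + 3)) := by gcongr
  have h5 : 0 ≤ 4 * ε ^ 2 * q := by positivity
  unfold cA
  nlinarith

lemma A_le : cA q ε ≤ 1 - ε * (q ^ 2 + 5 * q) := by
  have h1 := h.C_ge
  have h2 := h.qpos
  have h3 := h.e0
  have h4 : q * (ε * (q + 3) - ε ^ 2 * (6 + 4 * q)) ≤ q * cC q ε := by gcongr
  have h5 : 4 * ε ^ 2 * q + q * (ε ^ 2 * (6 + 4 * q)) ≤ 6 * ε := by
    have h6 := h.e2
    have h7 := h.e1
    have : ε * (4 * q + q * (6 + 4 * q)) ≤ 6 := by nlinarith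
    calc 4 * ε ^ 2 * q + q * (ε ^ 2 * (6 + 4 * q)) = ε * (ε * (4 * q + q * (6 + 4 * q))) := by ring
      _ ≤ ε * 6 := by gcongr
      _ = 6 * ε := by ring
  unfold cA
  nlinarith

lemma A_pos : 1 / 2 < cA q ε := by
  have h1 := h.A_ge
  have h2 := h.e2
  have h3 := h.e1
  have h4 := h.ee
  nlinarith

lemma B_le : cB q ε ≤ q + 3 := by
  have h1 := h.E_le
  have h2 := h.qpos
  have h3 := h.e0
  have h4 : q * cE q ε ≤ q * (1 - ε * q) := by gcongr
  have h5 : 0 ≤ ε * q := by positivity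
  unfold cB
  nlinarith

lemma B_ge : q + 3 - ε * (q ^ 2 + 5 * q) ≤ cB q ε := by
  have h1 := h.E_ge
  have h2 := h.qpos
  have h3 := h.e0
  have h4 : q * (1 - ε * (q + 3)) ≤ q * cE q ε := by gcongr
  unfold cB
  nlinarith

lemma B_ge' : q + 2 ≤ cB q ε := by
  have h1 := h.B_ge
  have h2 := h.e2
  have h3 := h.e1
  nlinarith

end Par

/-- all states up to index `N` are in the open first quadrant -/
def Valid (q ε : ℝ) (N : ℕ) (s : ℝ × ℝ) : Prop :=
  ∀ j ≤ N, 0 < (it q ε j s).1 ∧ 0 < (it q ε j s).2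

lemma Valid.mono {q ε : ℝ} {N N' : ℕ} {s : ℝ × ℝ} (h : Valid q ε N s) (hN : N' ≤ N) :
    Valid q ε N' s := fun j hj => h j (hj.trans hN)

lemma Valid.step {q ε : ℝ} {N : ℕ} {s : ℝ × ℝ} (h : Valid q ε (N + 1) s) :
    Valid q ε N (stepF q ε s) := fun j hj => by
  have := h (j + 1) (by omega)
  rwa [it_succ'] at this

lemma snd_pos {q ε : ℝ} (h : Par q ε) {s : ℝ × ℝ} (h1 : 0 ≤ s.1) (h2 : 0 < s.2) :
    0 < (stepF q ε s).2 := by
  rw [stepF_snd]
  have := h.C_pos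
  have := h.E_pos
  have : 0 ≤ cC q ε * s.1 := by positivity
  have : 0 < cE q ε * s.2 := mul_pos (by linarith) h2
  linarith

/-- comparison with a weakly valid state -/
lemma comp_strict {q ε : ℝ} (h : Par q ε) {N : ℕ} {s t : ℝ × ℝ}
    (ht : ∀ j ≤ N, 0 ≤ (it q ε j t).1) (ht2 : 0 < t.2) (hs2 : 0 < s.2)
    (hc : 0 < cross s t) : Valid q ε N s := by
  have key : ∀ j ≤ N, 0 < (it q ε j t).2 ∧ 0 < (it q ε j s).1 ∧ 0 < (it q ε j s).2 := by
    intro j
    induction j with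
    | zero =>
      intro _
      refine ⟨ht2, ?_, hs2⟩
      have h0 := ht 0 (Nat.zero_le _)
      rw [it_zero] at h0 ⊢
      unfold cross at hc
      have : 0 ≤ s.2 * t.1 := by positivity
      have h3 : 0 < s.1 * t.2 := by linarith
      exact (pos_iff_pos_of_mul_pos h3).2 ht2
    | succ j ih =>
      intro hj
      obtain ⟨a, b, c⟩ := ih (by omega)
      have hcj : 0 < cross (it q ε (j + 1) s) (it q ε (j + 1) t) := by rw [cross_it]; exact hc
      have ha : 0 < (it q ε (j + 1) t).2 := by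
        rw [it_succ]; exact snd_pos h (ht j (by omega)) a
      have hb : 0 < (it q ε (j + 1) s).2 := by
        rw [it_succ]; exact snd_pos h b.le c
      refine ⟨ha, ?_, hb⟩
      have h0 := ht (j + 1) hj
      unfold cross at hcj
      have : 0 ≤ (it q ε (j + 1) s).2 * (it q ε (j + 1) t).1 := by positivity
      have h3 : 0 < (it q ε (j + 1) s).1 * (it q ε (j + 1) t).2 := by linarith
      exact (pos_iff_pos_of_mul_pos h3).2 ha
  exact fun j hj => (key j hj).2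

lemma comp {q ε : ℝ} (h : Par q ε) {N : ℕ} {s t : ℝ × ℝ}
    (ht : Valid q ε N t) (hs2 : 0 < s.2) (hc : 0 ≤ cross s t) : Valid q ε N s := by
  intro j
  induction j with
  | zero =>
    intro _
    refine ⟨?_, hs2⟩
    have h0 := ht 0 (Nat.zero_le _)
    rw [it_zero] at h0 ⊢
    unfold cross at hc
    have : 0 < s.2 * t.1 := mul_pos hs2 h0.1
    have h3 : 0 < s.1 * t.2 := by linarith
    exact (pos_iff_pos_of_mul_pos h3).2 h0.2
  | succ j ih =>
    intro hj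
    obtain ⟨b, c⟩ := ih (by omega)
    have hcj : 0 ≤ cross (it q ε (j + 1) s) (it q ε (j + 1) t) := by rw [cross_it]; exact hc
    have hb : 0 < (it q ε (j + 1) s).2 := by
      rw [it_succ]; exact snd_pos h b.le c
    refine ⟨?_, hb⟩
    have h0 := ht (j + 1) hj
    unfold cross at hcj
    have : 0 < (it q ε (j + 1) s).2 * (it q ε (j + 1) t).1 := mul_pos hb h0.1
    have h3 : 0 < (it q ε (j + 1) s).1 * (it q ε (j + 1) t).2 := by linarith
    exact (pos_iff_pos_of_mul_pos h3).2 h0.2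

/-- transitivity of the order in the upper half plane -/
lemma cross_trans {s t u : ℝ × ℝ} (hs : 0 < s.2) (ht : 0 < t.2) (hu : 0 < u.2)
    (h1 : 0 ≤ cross s t) (h2 : 0 ≤ cross t u) : 0 ≤ cross s u := by
  unfold cross at *
  have e : (s.1 * u.2 - s.2 * u.1) * t.2 = (s.1 * t.2 - s.2 * t.1) * u.2 + (t.1 * u.2 - t.2 * u.1) * s.2 := by
    ring
  have : 0 ≤ (s.1 * u.2 - s.2 * u.1) * t.2 := by rw [e]; positivity
  exact nonneg_of_mul_nonneg_left this ht

/-- order and quotients -/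
lemma div_le_of_cross {s t : ℝ × ℝ} (hs : 0 < s.1) (ht : 0 < t.1) (h : 0 ≤ cross s t) :
    s.2 / s.1 ≤ t.2 / t.1 := by
  unfold cross at h
  rw [div_le_div_iff₀ hs ht]
  linarith

/-! ## the map `Z` -/

def Z (q ε : ℝ) (s : ℝ × ℝ) : ℝ × ℝ :=
  ((1 - 2 * ε) * s.1 - 2 * s.2, (1 - 2 * ε) / (1 - q * ε) * (s.2 + ε * s.1))

lemma Z_stepR (q ε : ℝ) (hne : 1 - q * ε ≠ 0) (s : ℝ × ℝ) :
    Z q ε (stepR q ε s) = stepF q ε (Z q ε s) := by
  have hK : (1 - 2 * ε) / (1 - q * ε) * (1 - q * ε) = 1 - 2 * ε := div_mul_cancel₀ _ hne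
  ext
  · simp only [Z, stepR, stepF, addRes, addMass]
    linear_combination ((q + 3 - 2 * ε * q) * (s.2 + ε * s.1)) * hK
  · simp only [Z, stepR, stepF, addRes, addMass]
    linear_combination (ε * (q + 3 - 2 * ε * q) * ((1 - 2 * ε) * s.1 - 2 * s.2)) * hK

lemma Z_stR (q ε : ℝ) (hne : 1 - q * ε ≠ 0) (j : ℕ) :
    it q ε j (Z q ε (topR q ε)) = Z q ε (stR q ε j) := by
  induction j with
  | zero => rfl
  | succ j ih => rw [it_succ, ih, ← Z_stepR q ε hne]; rfl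

/-- the start states -/
def E0 (ρ ε m : ℝ) : ℝ × ℝ := (1 - ρ * ε * m, ε * m)

lemma cross_E0 (ρ ρ' ε m m' : ℝ) :
    cross (E0 ρ ε m) (E0 ρ' ε m') = ε * (m' - m) + ε ^ 2 * m * m' * (ρ' - ρ) := by
  simp only [cross, E0]; ring

lemma topR_snd_pos {q ε : ℝ} (h : Par q ε) : 0 < (topR q ε).1 ∧ 0 < (topR q ε).2 := by
  have hq := h.qpos
  have he := h.e0
  have h1 := h.e1
  have h2 := h.e2
  have h3 := h.ee
  have e1 : (topR q ε).1 = -4*ε^3*q^2 + 5*ε^2*q^2 + 6*ε^2*q + -3/2*ε*q^2 + -7/2*ε*q + -2*ε + 1 := by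
    simp only [topR, addRes, addMass]
    field_simp
    ring
  have e2 : (topR q ε).2 = 4*ε^3*q + -5*ε^2*q + 3/2*ε*q + -4*ε^2 + 2*ε := by
    simp only [topR, addRes, addMass]
    field_simp
    ring
  constructor
  · rw [e1]
    have a1 : 0 ≤ ε ^ 2 * q := by positivity
    have a2 : 0 ≤ ε ^ 2 * q ^ 2 * (5 - 4 * ε) := by
      have : 0 ≤ 5 - 4 * ε := by linarith
      positivity
    nlinarith
  · rw [e2]
    have a1 : 0 ≤ ε ^ 3 * q := by positivity
    have a2 : ε ^ 2 * q ≤ ε * (1 / 10 ^ 35) := by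
      calc ε ^ 2 * q = ε * (ε * q) := by ring
        _ ≤ ε * (1 / 10 ^ 35) := by gcongr
    have a3 : ε ^ 2 ≤ ε * (1 / 10 ^ 42) := by
      calc ε ^ 2 = ε * ε := by ring
        _ ≤ ε * (1 / 10 ^ 42) := by gcongr
    have a4 : 0 < ε * q := by positivity
    nlinarith

lemma cross_E0_topR {q ε : ℝ} (h : Par q ε) :
    0 < cross (E0 (q + 2 + 1 / 10) ε (q + 3 + q / 2)) (Z q ε (topR q ε)) := by
  have hq := h.qpos
  have hq7 := h.hq
  have he := h.e0
  have h1 := h.e1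
  have h2 := h.e2
  have h33 := h.e3
  have h3 := h.ee
  have hne : 0 < 1 - q * ε := by nlinarith
  have e1 : cross (E0 (q + 2 + 1 / 10) ε (q + 3 + q / 2)) (Z q ε (topR q ε)) =
      ε ^ 2 / (1 - q * ε) * ((21/40*q^2 + -49/10*q + -69/10) + ε * (9/40*q^3 + 647/40*q^2 + 249/4*q + 258/5)
        + ε ^ 2 * (-51/5*q^3 + -1789/20*q^2 + -1679/10*q + -378/5) + ε ^ 3 * (321/10*q^3 + 676/5*q^2 + 126*q)
        + ε ^ 4 * (-126/5*q^3 + -252/5*q^2)) := by
    simp only [cross, E0, Z, topR, addRes, addMass]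
    field_simp
    ring
  rw [e1]
  have hfac : 0 < ε ^ 2 / (1 - q * ε) := by positivity
  apply mul_pos hfac
  have b1 : 0 ≤ ε * (9/40*q^3 + 647/40*q^2 + 249/4*q + 258/5) := by positivity
  have b3 : 0 ≤ ε ^ 3 * (321/10*q^3 + 676/5*q^2 + 126*q) := by positivity
  have b2 : ε ^ 2 * (51/5*q^3 + 1789/20*q^2 + 1679/10*q + 378/5) ≤ 1 := by
    have c1 : ε * (51/5*q^3 + 1789/20*q^2 + 1679/10*q + 378/5) ≤ 1 := by nlinarith
    calc ε ^ 2 * (51/5*q^3 + 1789/20*q^2 + 1679/10*q + 378/5)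
        = ε * (ε * (51/5*q^3 + 1789/20*q^2 + 1679/10*q + 378/5)) := by ring
      _ ≤ ε * 1 := by gcongr
      _ ≤ 1 := by linarith
  have b4 : ε ^ 4 * (126/5*q^3 + 252/5*q^2) ≤ 1 := by
    have c1 : ε * (126/5*q^3 + 252/5*q^2) ≤ 1 := by nlinarith
    have c2 : ε ^ 3 ≤ 1 := pow_le_one₀ he.le (by linarith)
    calc ε ^ 4 * (126/5*q^3 + 252/5*q^2)
        = ε ^ 3 * (ε * (126/5*q^3 + 252/5*q^2)) := by ring
      _ ≤ 1 * 1 := by gcongr
      _ = 1 := by norm_num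
  have b0 : 2 < 21/40*q^2 + -49/10*q + -69/10 := by nlinarith
  linarith

/-! ## comparisons between the start states -/

/-- comparison (iii) -/
lemma cross_E0_step_top {q ε : ℝ} (h : Par q ε) {m : ℝ} (hm0 : 0 ≤ m) (hm : m ≤ 2 * q + 6) :
    0 ≤ cross (E0 (q + q / 1000 + 3) ε m) (stepF q ε (E0 (q + 2 + 1 / 10) ε (q + 3 + q / 2))) := by
  have hq := h.qpos
  have hq7 := h.hq
  have he := h.e0
  have h1 := h.e1
  have h2 := h.e2
  have h3 := h.e3
  have h0 := h.ee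
  have hC := h.C_ge
  have hE := h.E_ge
  have hA := h.A_le
  have hAp := h.A_pos
  have hBp := h.B_ge'
  have hCp := h.C_pos
  have hEp := h.E_pos
  simp only [cross, stepF_fst, stepF_snd, E0]
  set A := cA q ε
  set B := cB q ε
  set C := cC q ε
  set E := cE q ε
  -- first component of the second state is at most one
  have f1 : A * (1 - (q + 2 + 1 / 10) * ε * (q + 3 + q / 2)) - B * (ε * (q + 3 + q / 2)) ≤ 1 := by
    have a1 : 0 ≤ (q + 2 + 1 / 10) * ε * (q + 3 + q / 2) := by positivity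
    have a2 : A ≤ 1 := by
      have : 0 ≤ ε * (q ^ 2 + 5 * q) := by positivity
      linarith
    have a3 : 0 ≤ B * (ε * (q + 3 + q / 2)) := mul_nonneg (by linarith) (by positivity)
    have a4 : A * (1 - (q + 2 + 1 / 10) * ε * (q + 3 + q / 2)) ≤ A * 1 := by
      apply mul_le_mul_of_nonneg_left _ (by linarith); linarith
    linarith
  have g1 : ε * (5 / 2 * q + 5) ≤ C * (1 - (q + 2 + 1 / 10) * ε * (q + 3 + q / 2)) + E * (ε * (q + 3 + q / 2)) := by
    have a1 : (q + 2 + 1 / 10) * ε * (q + 3 + q / 2) ≤ 1 / 10 ^ 10 := by nlinarith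
    have a2 : ε * (q + 3) - ε * (1 / 10) ≤ C * (1 - (q + 2 + 1 / 10) * ε * (q + 3 + q / 2)) := by
      have b1 : ε * (6 + 4 * q) ≤ 1 / 100 := by nlinarith
      have b2 : ε ^ 2 * (6 + 4 * q) ≤ ε * (1 / 100) := by
        calc ε ^ 2 * (6 + 4 * q) = ε * (ε * (6 + 4 * q)) := by ring
          _ ≤ ε * (1 / 100) := by gcongr
      have b3 : C ≤ ε * (q + 3) := h.C_le
      have b4 : C * ((q + 2 + 1 / 10) * ε * (q + 3 + q / 2)) ≤ ε * (1 / 100) := by
        calc C * ((q + 2 + 1 / 10) * ε * (q + 3 + q / 2))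
            ≤ ε * (q + 3) * ((q + 2 + 1 / 10) * ε * (q + 3 + q / 2)) := by gcongr
          _ = ε * (ε * ((q + 3) * (q + 2 + 1 / 10) * (q + 3 + q / 2))) := by ring
          _ ≤ ε * (1 / 100) := by
            gcongr
            nlinarith
      linarith
    have a3 : ε * (q + 3 + q / 2) - ε * (1 / 10) ≤ E * (ε * (q + 3 + q / 2)) := by
      have b1 : (1 - ε * (q + 3)) * (ε * (q + 3 + q / 2)) ≤ E * (ε * (q + 3 + q / 2)) := by gcongr
      have b2 : ε * (q + 3) * (ε * (q + 3 + q / 2)) ≤ ε * (1 / 10) := by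
        calc ε * (q + 3) * (ε * (q + 3 + q / 2)) = ε * (ε * ((q + 3) * (q + 3 + q / 2))) := by ring
          _ ≤ ε * (1 / 10) := by
            gcongr
            nlinarith
      linarith
    linarith
  have k1 : (q + q / 1000 + 3) * ε * m ≤ 1 / 10 ^ 10 := by
    have : (q + q / 1000 + 3) * ε * m ≤ (q + q / 1000 + 3) * ε * (2 * q + 6) := by gcongr
    nlinarith
  have k2 : 0 ≤ ε * m := by positivity
  have k3 : ε * m * (A * (1 - (q + 2 + 1 / 10) * ε * (q + 3 + q / 2)) - B * (ε * (q + 3 + q / 2))) ≤ ε * m := by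
    nlinarith
  have k4 : (1 - 1 / 10 ^ 10) * (ε * (5 / 2 * q + 5)) ≤ (1 - (q + q / 1000 + 3) * ε * m) *
      (C * (1 - (q + 2 + 1 / 10) * ε * (q + 3 + q / 2)) + E * (ε * (q + 3 + q / 2))) := by
    apply mul_le_mul _ g1 (by positivity) (by linarith)
    linarith
  have k5 : ε * m ≤ ε * (2 * q + 6) := by gcongr
  have k6 : ε * (2 * q + 6) ≤ (1 - 1 / 10 ^ 10) * (ε * (5 / 2 * q + 5)) := by
    have : 2 * q + 6 ≤ (1 - 1 / 10 ^ 10) * (5 / 2 * q + 5) := by linarith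
    calc ε * (2 * q + 6) ≤ ε * ((1 - 1 / 10 ^ 10) * (5 / 2 * q + 5)) := by gcongr
      _ = _ := by ring
  linarith

lemma poly1 {q m : ℝ} (hq : (10 : ℝ) ^ 7 ≤ q) (hm : q + 3 ≤ m) :
    1 + (6 + 4 * q + (q + 3) * m) + (q + q / 1000 + 3) * (m + (q + 3)) ^ 2 ≤
      (q + 2 + 1 / 10) * m ^ 2 + (m + (q + 3)) * (q ^ 2 + 5 * q + (q + 3) * m) := by
  obtain ⟨t, rfl⟩ : ∃ t, m = q + 3 + t := ⟨m - (q + 3), by ring⟩
  have ht : 0 ≤ t := by linarith
  obtain ⟨p, rfl⟩ : ∃ p, q = 10 ^ 7 + p := ⟨q - 10 ^ 7, by ring⟩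
  have hp : 0 ≤ p := by linarith
  rw [← sub_nonneg]
  ring_nf
  positivity

lemma poly2 {q m ρ : ℝ} (hq : (10 : ℝ) ^ 7 ≤ q) (hm : q + 3 ≤ m) (hρ : q + 2 + 1 / 10 ≤ ρ) :
    1 + (6 + 4 * q + ρ * (q + 3) * m + (q + 3) * m) + (q + q / 1000 + 3) * (m + (q + 3)) ^ 2 ≤
      (m + (q + 3)) * (q ^ 2 + 5 * q + ρ * m + (q + 3) * m) := by
  have b1 : (q + 2 + 1 / 10) * m ^ 2 ≤ ρ * m ^ 2 := by gcongr
  have e1 : (m + (q + 3)) * (q ^ 2 + 5 * q + ρ * m + (q + 3) * m) =
    ρ * (q + 3) * m + ρ * m ^ 2 + (m + (q + 3)) * (q ^ 2 + 5 * q + (q + 3) * m) := by ring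
  have := poly1 hq hm
  linarith

lemma small1 {q ε m ρ : ℝ} (h : Par q ε) (hm0 : q + 3 ≤ m) (hm : m ≤ 4 * q + 12)
    (hρ' : ρ ≤ q + q / 1000 + 3) (hρ : q + 2 + 1 / 10 ≤ ρ) :
    ε * ((m + (q + 3)) * (m * ((q ^ 2 + 5 * q + 6) * ρ + q ^ 2 + 5 * q))) ≤ 1 := by
  have hq := h.qpos
  have hq7 := h.hq
  have he := h.e0
  have h5 := h.e5
  have hmp : 0 < m := by linarith
  have hρp : 0 < ρ := by linarith
  have c1 : (m + (q + 3)) * (m * ((q ^ 2 + 5 * q + 6) * ρ + q ^ 2 + 5 * q)) ≤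
      (6 * q) * ((5 * q) * (2 * q ^ 2 * (2 * q))) := by
    have d1 : m + (q + 3) ≤ 6 * q := by linarith
    have d2 : m ≤ 5 * q := by linarith
    have d3 : q ^ 2 + 5 * q + 6 ≤ (3/2) * q ^ 2 := by nlinarith
    have d4 : ρ ≤ 2 * q := by linarith
    have d5 : (q ^ 2 + 5 * q + 6) * ρ + q ^ 2 + 5 * q ≤ 2 * q ^ 2 * (2 * q) := by
      have : (q ^ 2 + 5 * q + 6) * ρ ≤ (3/2) * q ^ 2 * (2 * q) := by gcongr
      nlinarith
    gcongr
  calc ε * ((m + (q + 3)) * (m * ((q ^ 2 + 5 * q + 6) * ρ + q ^ 2 + 5 * q)))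
      ≤ ε * ((6 * q) * ((5 * q) * (2 * q ^ 2 * (2 * q)))) := by gcongr
    _ = 120 * (ε * q ^ 5) := by ring
    _ ≤ 120 * (1 / 10 ^ 7) := by gcongr
    _ ≤ 1 := by norm_num

/-- comparison (ii) -/
lemma cross_E0_step {q ε : ℝ} (h : Par q ε) {m ρ : ℝ} (hm0 : q + 3 ≤ m) (hm : m ≤ 4 * q + 12)
    (hρ : q + 2 + 1 / 10 ≤ ρ) (hρ' : ρ ≤ q + q / 1000 + 3) :
    0 ≤ cross (E0 (q + q / 1000 + 3) ε (m + (q + 3))) (stepF q ε (E0 ρ ε m)) := by
  have hq := h.qpos
  have hq7 := h.hq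
  have he := h.e0
  have h1 := h.e1
  have h2 := h.e2
  have h0 := h.ee
  have hC := h.C_ge
  have hE := h.E_ge
  have hA := h.A_le
  have hA' := h.A_ge
  have hB := h.B_ge
  simp only [cross, stepF_fst, stepF_snd, E0]
  generalize cA q ε = A at *
  generalize cB q ε = B at *
  generalize cC q ε = C at *
  generalize cE q ε = E at *
  have hmp : 0 < m := by linarith
  have hρp : 0 < ρ := by linarith
  have r1 : ρ * ε * m ≤ 1 / 10 ^ 10 := by
    have : ρ * ε * m ≤ (q + q / 1000 + 3) * ε * (4 * q + 12) := by gcongr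
    nlinarith
  have r2 : (q + q / 1000 + 3) * ε * (m + (q + 3)) ≤ 1 / 10 ^ 10 := by
    have : (q + q / 1000 + 3) * ε * (m + (q + 3)) ≤ (q + q / 1000 + 3) * ε * (4 * q + 12 + (q + 3)) := by gcongr
    nlinarith
  -- lower bound for the second component
  have g1 : ε * (m + (q + 3)) - ε ^ 2 * (6 + 4 * q + ρ * (q + 3) * m + (q + 3) * m) ≤
      C * (1 - ρ * ε * m) + E * (ε * m) := by
    have a1 : (ε * (q + 3) - ε ^ 2 * (6 + 4 * q)) * (1 - ρ * ε * m) ≤ C * (1 - ρ * ε * m) := by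
      apply mul_le_mul_of_nonneg_right hC; linarith
    have a2 : (1 - ε * (q + 3)) * (ε * m) ≤ E * (ε * m) := by
      apply mul_le_mul_of_nonneg_right hE; positivity
    have a3 : 0 ≤ ε ^ 2 * (6 + 4 * q) * (ρ * ε * m) := by positivity
    linarith
  have g2 : A * (1 - ρ * ε * m) - B * (ε * m) ≤
      1 - ε * (q ^ 2 + 5 * q + ρ * m + (q + 3) * m) + ε ^ 2 * (m * ((q ^ 2 + 5 * q + 6) * ρ + q ^ 2 + 5 * q)) := by
    have a1 : (1 - ε * (q ^ 2 + 5 * q + 6)) * (ρ * ε * m) ≤ A * (ρ * ε * m) := by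
      apply mul_le_mul_of_nonneg_right hA'; positivity
    have a2 : (q + 3 - ε * (q ^ 2 + 5 * q)) * (ε * m) ≤ B * (ε * m) := by
      apply mul_le_mul_of_nonneg_right hB; positivity
    linarith
  have main := poly2 hq7 hm0 hρ
  have small := small1 h hm0 hm hρ' hρ
  generalize hG : C * (1 - ρ * ε * m) + E * (ε * m) = G at *
  generalize hH : A * (1 - ρ * ε * m) - B * (ε * m) = H at *
  generalize hU : 6 + 4 * q + ρ * (q + 3) * m + (q + 3) * m = U at *
  generalize hW : q ^ 2 + 5 * q + ρ * m + (q + 3) * m = W at *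
  generalize hX : m * ((q ^ 2 + 5 * q + 6) * ρ + q ^ 2 + 5 * q) = X at *
  have hUp : 0 ≤ U := by rw [← hU]; positivity
  generalize hR : q + q / 1000 + 3 = R at *
  have hRp : 0 ≤ R := by rw [← hR]; positivity
  have k1 : (1 - R * ε * (m + (q + 3))) * (ε * (m + (q + 3)) - ε ^ 2 * U) ≤
    (1 - R * ε * (m + (q + 3))) * G := by
    apply mul_le_mul_of_nonneg_left g1; linarith
  have k2 : ε * (m + (q + 3)) * H ≤ ε * (m + (q + 3)) * (1 - ε * W + ε ^ 2 * X) := by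
    apply mul_le_mul_of_nonneg_left g2; positivity
  have k3 : 0 ≤ ε ^ 2 * ((m + (q + 3)) * W - (1 + U + R * (m + (q + 3)) ^ 2)) := by
    apply mul_nonneg (by positivity); linarith
  have k4 : ε ^ 2 * (ε * ((m + (q + 3)) * X)) ≤ ε ^ 2 * 1 := by
    gcongr
  have k5 : 0 ≤ R * ε * (m + (q + 3)) * (ε ^ 2 * U) := by
    positivity
  linarith

/-! ## consequences of validity -/

lemma T0_valid {q ε : ℝ} (h : Par q ε) {k : ℕ}
    (HR : ∀ j ≤ k, 0 ≤ (1 - 2 * ε) * (stR q ε j).1 - 2 * (stR q ε j).2) :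
    Valid q ε k (E0 (q + 2 + 1 / 10) ε (q + 3 + q / 2)) := by
  have hq := h.qpos
  have he := h.e0
  have h1 := h.e1
  have h0 := h.ee
  have hne : 0 < 1 - q * ε := by nlinarith
  obtain ⟨t1, t2⟩ := topR_snd_pos h
  refine comp_strict h (t := Z q ε (topR q ε)) ?_ ?_ ?_ (cross_E0_topR h)
  · intro j hj
    rw [Z_stR q ε hne.ne' j]
    exact HR j hj
  · have : 0 < 1 - 2 * ε := by linarith
    simp only [Z]
    positivity
  · simp only [E0]
    positivity

lemma ge_mul_step {q ε : ℝ} (h : Par q ε) {s : ℝ × ℝ} {M : ℝ} (hM : 0 ≤ M) (h1 : 0 < s.1)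
    (h3 : ε * M * s.1 ≤ s.2) :
    ε * (M + (q + 3)) * (stepF q ε s).1 ≤ (stepF q ε s).2 := by
  have hq := h.qpos
  have hq7 := h.hq
  have he := h.e0
  have hC := h.C_ge
  have hE := h.E_ge
  have hEp := h.E_pos
  have hA := h.A_le
  have hB := h.B_ge'
  rw [stepF_fst, stepF_snd]
  generalize cA q ε = A at *
  generalize cB q ε = B at *
  generalize cC q ε = C at *
  generalize cE q ε = E at *
  have a1 : (E + ε * (M + (q + 3)) * B) * (ε * M * s.1) ≤ (E + ε * (M + (q + 3)) * B) * s.2 := by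
    apply mul_le_mul_of_nonneg_left h3
    have : 0 ≤ B := by linarith
    have : 0 ≤ E := by linarith
    positivity
  have a2 : 0 ≤ (C - ε * (M + (q + 3)) * A + ε * M * (E + ε * (M + (q + 3)) * B)) * s.1 := by
    apply mul_nonneg _ h1.le
    have b1 : ε * (M + (q + 3)) * A ≤ ε * (M + (q + 3)) * (1 - ε * (q ^ 2 + 5 * q)) := by gcongr
    have b2 : ε * M * (1 - ε * (q + 3) + ε * (M + (q + 3)) * (q + 2)) ≤
      ε * M * (E + ε * (M + (q + 3)) * B) := by
      apply mul_le_mul_of_nonneg_left _ (by positivity)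
      have : ε * (M + (q + 3)) * (q + 2) ≤ ε * (M + (q + 3)) * B := by gcongr
      linarith
    have b3 : 0 ≤ ε ^ 2 * ((M + (q + 3)) * (q ^ 2 + 5 * q) - (6 + 4 * q) - M * (q + 3) + M * (M + (q + 3)) * (q + 2)) := by
      apply mul_nonneg (by positivity)
      have c1 : (M + (q + 3)) * (q ^ 2 + 5 * q) = M * (q ^ 2 + 5 * q) + (q + 3) * (q ^ 2 + 5 * q) := by ring
      have c2 : M * (q + 3) ≤ M * (q ^ 2 + 5 * q) := by
        apply mul_le_mul_of_nonneg_left _ hM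
        nlinarith
      have c3 : 6 + 4 * q ≤ (q + 3) * (q ^ 2 + 5 * q) := by nlinarith
      have c4 : 0 ≤ M * (M + (q + 3)) * (q + 2) := by positivity
      linarith
    linarith
  linarith

lemma ge_mul_it {q ε : ℝ} (h : Par q ε) {s : ℝ × ℝ} {m : ℝ} {N : ℕ} (hm : 0 ≤ m)
    (hv : Valid q ε N s) (h3 : ε * m * s.1 ≤ s.2) :
    ∀ j ≤ N, ε * (j * (q + 3) + m) * (it q ε j s).1 ≤ (it q ε j s).2 := by
  have hq := h.qpos
  intro j
  induction j with
  | zero => intro _; simpa using h3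
  | succ j ih =>
    intro hj
    have := ih (by omega)
    rw [it_succ]
    have e : ((j + 1 : ℕ) : ℝ) * (q + 3) + m = (j * (q + 3) + m) + (q + 3) := by push_cast; ring
    rw [e]
    exact ge_mul_step h (by positivity) (hv j (by omega)).1 this

lemma le_inv_step {q ε : ℝ} (h : Par q ε) {s : ℝ × ℝ} (h2 : 0 < s.2)
    (h3 : 0 < (stepF q ε s).1) : q * s.2 < s.1 := by
  have hq := h.qpos
  have he := h.e0
  have hA := h.A_le
  have hAp := h.A_pos
  have hB := h.B_ge'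
  rw [stepF_fst] at h3
  have h4 : cA q ε ≤ 1 := by
    have : 0 ≤ ε * (q ^ 2 + 5 * q) := by positivity
    linarith
  have h5 : q * cA q ε ≤ cB q ε := by nlinarith
  have h6 : q * cA q ε * s.2 ≤ cB q ε * s.2 := by gcongr
  have h7 : 0 < cA q ε * (s.1 - q * s.2) := by linarith
  have h8 := (pos_iff_pos_of_mul_pos h7).1 (by linarith)
  linarith

lemma fst_le_step {q ε : ℝ} (h : Par q ε) {s : ℝ × ℝ} (h1 : 0 < s.1) (h2 : 0 < s.2) :
    (stepF q ε s).1 ≤ s.1 := by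
  have hq := h.qpos
  have he := h.e0
  have hA := h.A_le
  have hB := h.B_ge'
  rw [stepF_fst]
  have h4 : cA q ε ≤ 1 := by
    have : 0 ≤ ε * (q ^ 2 + 5 * q) := by positivity
    linarith
  have h5 : cA q ε * s.1 ≤ 1 * s.1 := by gcongr
  have h6 : 0 ≤ cB q ε * s.2 := mul_nonneg (by linarith) h2.le
  linarith

lemma fst_le_one {q ε : ℝ} (h : Par q ε) {s : ℝ × ℝ} {N : ℕ} (hv : Valid q ε N s) (h1 : s.1 ≤ 1) :
    ∀ j ≤ N, (it q ε j s).1 ≤ 1 := by
  intro j
  induction j with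
  | zero => intro _; simpa using h1
  | succ j ih =>
    intro hj
    rw [it_succ]
    exact (fst_le_step h (hv j (by omega)).1 (hv j (by omega)).2).trans (ih (by omega))

lemma snd_mono_step {q ε : ℝ} (h : Par q ε) {s : ℝ × ℝ} (h2 : 0 < s.2)
    (h3 : 0 < (stepF q ε s).1) : s.2 ≤ (stepF q ε s).2 := by
  have hq := h.qpos
  have hq7 := h.hq
  have he := h.e0
  have he1 := h.e1
  have h4 := le_inv_step h h2 h3
  rw [stepF_snd]
  have hC := h.C_ge
  have hCp := h.C_pos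
  have hE := h.E_ge
  have a1 : cC q ε * (q * s.2) ≤ cC q ε * s.1 := by gcongr
  have a2 : (1 - ε * (q + 3)) * s.2 ≤ cE q ε * s.2 := by gcongr
  have a3 : ε * (q + 3) ≤ cC q ε * q := by
    have b1 : (ε * (q + 3) - ε ^ 2 * (6 + 4 * q)) * q ≤ cC q ε * q := by gcongr
    have b2 : ε ^ 2 * (6 + 4 * q) ≤ ε * 1 := by
      calc ε ^ 2 * (6 + 4 * q) = ε * (ε * (6 + 4 * q)) := by ring
        _ ≤ ε * 1 := by
          gcongr
          nlinarith [h.ee]
    have b3 : (ε * (q + 3) - ε * 1) * q ≤ (ε * (q + 3) - ε ^ 2 * (6 + 4 * q)) * q := by gcongr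
    have b4 : ε * (q + 3) ≤ (ε * (q + 3) - ε * 1) * q := by
      have : ε * (q + 3) ≤ ε * ((q + 2) * q) := by
        gcongr
        nlinarith
      linarith
    linarith
  have a4 : ε * (q + 3) * s.2 ≤ cC q ε * q * s.2 := by gcongr
  linarith

/-! ## linearity -/

lemma stepF_lin (q ε a b : ℝ) (x y : ℝ × ℝ) :
    stepF q ε (a • x + b • y) = a • stepF q ε x + b • stepF q ε y := by
  ext
  · rw [stepF_fst]
    simp only [Prod.fst_add, Prod.snd_add, Prod.smul_fst, Prod.smul_snd, smul_eq_mul, stepF_fst]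
    ring
  · rw [stepF_snd]
    simp only [Prod.fst_add, Prod.snd_add, Prod.smul_fst, Prod.smul_snd, smul_eq_mul, stepF_snd]
    ring

lemma it_lin (q ε a b : ℝ) (x y : ℝ × ℝ) (j : ℕ) :
    it q ε j (a • x + b • y) = a • it q ε j x + b • it q ε j y := by
  induction j with
  | zero => rfl
  | succ j ih => rw [it_succ, ih, stepF_lin, it_succ, it_succ]

lemma E0_add (ρ ε m s : ℝ) : E0 ρ ε (m + s) = (1 : ℝ) • E0 ρ ε m + (ε * s) • ((-ρ, 1) : ℝ × ℝ) := by
  ext
  · simp only [E0, Prod.fst_add, Prod.smul_fst, smul_eq_mul]; ring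
  · simp only [E0, Prod.snd_add, Prod.smul_snd, smul_eq_mul]; ring

lemma w_eq (q ε ρ m : ℝ) :
    (cross (E0 ρ ε m) (stepF q ε (E0 ρ ε m))) • ((-ρ, 1) : ℝ × ℝ) =
      (1 : ℝ) • stepF q ε (E0 ρ ε m) +
        (-((stepF q ε (E0 ρ ε m)).1 + ρ * (stepF q ε (E0 ρ ε m)).2)) • E0 ρ ε m := by
  generalize hs : stepF q ε (E0 ρ ε m) = t
  ext
  · simp only [cross, E0, Prod.fst_add, Prod.smul_fst, smul_eq_mul]; ring
  · simp only [cross, E0, Prod.snd_add, Prod.smul_snd, smul_eq_mul]; ring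

/-- the coefficient `c ≤ 1` -/
lemma c_le_one {q ε ρ m : ℝ} (h : Par q ε) (hm0 : q + 3 ≤ m) (hm : m ≤ 2 * q + 6)
    (hρ : q + 2 + 1 / 10 ≤ ρ) (hρ' : ρ ≤ q + q / 1000 + 3) :
    (stepF q ε (E0 ρ ε m)).1 + ρ * (stepF q ε (E0 ρ ε m)).2 ≤ 1 := by
  have hq := h.qpos
  have hq7 := h.hq
  have he := h.e0
  have h1 := h.e1
  have h2 := h.e2
  have hC := h.C_le
  have hCp := h.C_pos
  have hE := h.E_le
  have hEp := h.E_pos
  have hA := h.A_le
  have hA' := h.A_ge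
  have hB := h.B_ge
  have hmp : 0 < m := by linarith
  have hρp : 0 < ρ := by linarith
  have small := small1 h hm0 (by linarith : m ≤ 4 * q + 12) hρ' hρ
  rw [stepF_fst, stepF_snd]
  simp only [E0]
  generalize cA q ε = A at *
  generalize cB q ε = B at *
  generalize cC q ε = C at *
  generalize cE q ε = E at *
  have g2 : A * (1 - ρ * ε * m) - B * (ε * m) ≤
      1 - ε * (q ^ 2 + 5 * q + ρ * m + (q + 3) * m) + ε ^ 2 * (m * ((q ^ 2 + 5 * q + 6) * ρ + q ^ 2 + 5 * q)) := by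
    have a1 : (1 - ε * (q ^ 2 + 5 * q + 6)) * (ρ * ε * m) ≤ A * (ρ * ε * m) := by
      apply mul_le_mul_of_nonneg_right hA'; positivity
    have a2 : (q + 3 - ε * (q ^ 2 + 5 * q)) * (ε * m) ≤ B * (ε * m) := by
      apply mul_le_mul_of_nonneg_right hB; positivity
    linarith
  have g3 : C * (1 - ρ * ε * m) + E * (ε * m) ≤ ε * (q + 3) + ε * m := by
    have a1 : 0 ≤ C * (ρ * ε * m) := by positivity
    have a2 : E * (ε * m) ≤ 1 * (ε * m) := by
      have : 0 ≤ ε * q := by positivity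
      gcongr
      linarith
    linarith
  have g4 : ρ * (C * (1 - ρ * ε * m) + E * (ε * m)) ≤ ρ * (ε * (q + 3) + ε * m) := by gcongr
  have g5 : ε * (m * ((q ^ 2 + 5 * q + 6) * ρ + q ^ 2 + 5 * q)) ≤ 1 := by
    refine le_trans ?_ small
    have : m * ((q ^ 2 + 5 * q + 6) * ρ + q ^ 2 + 5 * q) ≤
        (m + (q + 3)) * (m * ((q ^ 2 + 5 * q + 6) * ρ + q ^ 2 + 5 * q)) := by
      apply le_mul_of_one_le_left (by positivity); linarith
    gcongr
  have g6 : ε ^ 2 * (m * ((q ^ 2 + 5 * q + 6) * ρ + q ^ 2 + 5 * q)) ≤ ε * 1 := by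
    calc ε ^ 2 * (m * ((q ^ 2 + 5 * q + 6) * ρ + q ^ 2 + 5 * q))
        = ε * (ε * (m * ((q ^ 2 + 5 * q + 6) * ρ + q ^ 2 + 5 * q))) := by ring
      _ ≤ ε * 1 := by gcongr
  have g7 : 0 ≤ ε * (q ^ 2 + 5 * q + (q + 3) * m - ρ * (q + 3) - 1) := by
    apply mul_nonneg he.le
    have b1 : (q + 3) * (q + 3) ≤ (q + 3) * m := by gcongr
    have b2 : ρ * (q + 3) ≤ (q + q / 1000 + 3) * (q + 3) := by gcongr
    nlinarith
  linarith

lemma Q_pos {q ε ρ m : ℝ} (h : Par q ε) (hm0 : 0 < m) (hm : m ≤ 2 * q + 6)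
    (hρ' : ρ ≤ q + q / 1000 + 3) :
    0 < cross (E0 ρ ε m) (stepF q ε (E0 ρ ε m)) := by
  have hq := h.qpos
  have hq7 := h.hq
  have he := h.e0
  have h1 := h.e1
  have h2 := h.e2
  have hCp := h.C_pos
  have hE := h.E_ge
  have hA := h.A_le
  have hB := h.B_ge'
  have r1 : ρ * ε * m ≤ 1 / 10 := by
    have : ρ * ε * m ≤ (q + q / 1000 + 3) * ε * (2 * q + 6) := by gcongr
    nlinarith
  have e1 : cross (E0 ρ ε m) (stepF q ε (E0 ρ ε m)) = cC q ε * (1 - ρ * ε * m) ^ 2 +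
      (cE q ε - cA q ε) * (1 - ρ * ε * m) * (ε * m) + cB q ε * (ε * m) ^ 2 := by
    simp only [cross, stepF_fst, stepF_snd, E0]; ring
  rw [e1]
  have hEA : 0 ≤ cE q ε - cA q ε := by
    have : ε * (q + 3) ≤ ε * (q ^ 2 + 5 * q) :=
      mul_le_mul_of_nonneg_left (by nlinarith) he.le
    linarith
  have h5 : 0 < 1 - ρ * ε * m := by linarith
  have h6 : 0 < cB q ε := by linarith
  positivity

/-- the first component decreases when mass is added at the top -/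
lemma w_fst {q ε ρ m : ℝ} (h : Par q ε) (hm0 : q + 3 ≤ m) (hm : m ≤ 2 * q + 6)
    (hρ : q + 2 + 1 / 10 ≤ ρ) (hρ' : ρ ≤ q + q / 1000 + 3) {N : ℕ}
    (hv : Valid q ε N (E0 ρ ε m)) : ∀ j ≤ N, (it q ε j ((-ρ, 1) : ℝ × ℝ)).1 ≤ 0 := by
  have hq := h.qpos
  have hQ := Q_pos h (by linarith) hm hρ'
  have hc := c_le_one h hm0 hm hρ hρ'
  have hAp := h.A_pos
  have hBp := h.B_ge'
  intro j
  induction j with
  | zero => intro _; simp only [it_zero]; linarith
  | succ j ih =>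
    intro hj
    have ih' := ih (by omega)
    rw [it_succ, stepF_fst]
    have key : 0 ≤ (it q ε j ((-ρ, 1) : ℝ × ℝ)).2 := by
      have e1 : it q ε j ((cross (E0 ρ ε m) (stepF q ε (E0 ρ ε m))) • ((-ρ, 1) : ℝ × ℝ)) =
          (cross (E0 ρ ε m) (stepF q ε (E0 ρ ε m))) • it q ε j ((-ρ, 1) : ℝ × ℝ) := by
        have := it_lin q ε (cross (E0 ρ ε m) (stepF q ε (E0 ρ ε m))) 0 ((-ρ, 1) : ℝ × ℝ) 0 j
        simpa using this
      rw [w_eq, it_lin, ← it_succ', it_succ] at e1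
      have e2 := congrArg Prod.snd e1
      simp only [Prod.snd_add, Prod.smul_snd, smul_eq_mul] at e2
      have hj1 := hv j (by omega)
      have hj2 := hv (j + 1) (by omega)
      rw [it_succ] at hj2
      have hmono := snd_mono_step h hj1.2 hj2.1
      have h7 : ((stepF q ε (E0 ρ ε m)).1 + ρ * (stepF q ε (E0 ρ ε m)).2) * (it q ε j (E0 ρ ε m)).2 ≤
          1 * (it q ε j (E0 ρ ε m)).2 := mul_le_mul_of_nonneg_right hc hj1.2.le
      have h8 : 0 ≤ cross (E0 ρ ε m) (stepF q ε (E0 ρ ε m)) * (it q ε j ((-ρ, 1) : ℝ × ℝ)).2 := by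
        rw [← e2]; linarith
      by_contra hneg
      push Not at hneg
      have := mul_neg_of_pos_of_neg hQ hneg
      linarith
    have a1 : cA q ε * (it q ε j ((-ρ, 1) : ℝ × ℝ)).1 ≤ 0 :=
      mul_nonpos_of_nonneg_of_nonpos (by linarith) ih'
    have a2 : 0 ≤ cB q ε * (it q ε j ((-ρ, 1) : ℝ × ℝ)).2 := mul_nonneg (by linarith) key
    linarith

lemma X_fst_le {q ε ρ m s : ℝ} (h : Par q ε) (hm0 : q + 3 ≤ m) (hm : m ≤ 2 * q + 6)
    (hρ : q + 2 + 1 / 10 ≤ ρ) (hρ' : ρ ≤ q + q / 1000 + 3) {N : ℕ} (hs : 0 ≤ s)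
    (hv : Valid q ε N (E0 ρ ε m)) :
    (it q ε N (E0 ρ ε (m + s))).1 ≤ (it q ε N (E0 ρ ε m)).1 := by
  have := w_fst h hm0 hm hρ hρ' hv N le_rfl
  have he := h.e0
  rw [E0_add, it_lin]
  simp only [Prod.fst_add, Prod.smul_fst, smul_eq_mul]
  have h2 : ε * s * (it q ε N ((-ρ, 1) : ℝ × ℝ)).1 ≤ 0 :=
    mul_nonpos_of_nonneg_of_nonpos (by positivity) this
  linarith

/-! ## the energy inequality (P) -/

lemma Q_le {q ε ρ m : ℝ} (h : Par q ε) (hm0 : 0 < m) (hm : m ≤ 2 * q + 6)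
    (hρ : 0 < ρ) (hρ' : ρ ≤ q + q / 1000 + 3) :
    cross (E0 ρ ε m) (stepF q ε (E0 ρ ε m)) ≤
      (q + 3) * (ε + ε ^ 2 * (m * (m + q + 1 - 2 * ρ)) + ε ^ 2 * (ε * (ρ ^ 2 * m ^ 2))) := by
  have hq := h.qpos
  have hq7 := h.hq
  have he := h.e0
  have h1 := h.e1
  have h2 := h.e2
  have hC := h.C_le
  have hB := h.B_le
  have r1 : ρ * ε * m ≤ 1 / 10 := by
    have : ρ * ε * m ≤ (q + q / 1000 + 3) * ε * (2 * q + 6) := by gcongr
    nlinarith
  have e1 : cross (E0 ρ ε m) (stepF q ε (E0 ρ ε m)) = cC q ε * (1 - ρ * ε * m) ^ 2 +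
      (cE q ε - cA q ε) * ((1 - ρ * ε * m) * (ε * m)) + cB q ε * (ε * m) ^ 2 := by
    simp only [cross, stepF_fst, stepF_snd, E0]; ring
  rw [e1]
  have hEA : cE q ε - cA q ε ≤ ε * ((q + 1) * (q + 3)) := by
    have e2 : cE q ε - cA q ε = ε * ((q + 1) * (q + 3)) - ε ^ 2 * (4 * q ^ 2 + 8 * q - 4 * ε * q ^ 2) := by
      unfold cE cA cC; ring
    have : 0 ≤ ε ^ 2 * (4 * q ^ 2 + 8 * q - 4 * ε * q ^ 2) := by
      apply mul_nonneg (by positivity)
      nlinarith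
    linarith
  have a1 : cC q ε * (1 - ρ * ε * m) ^ 2 ≤ ε * (q + 3) * (1 - ρ * ε * m) ^ 2 := by gcongr
  have a2 : (cE q ε - cA q ε) * ((1 - ρ * ε * m) * (ε * m)) ≤ ε * ((q + 1) * (q + 3)) * (ε * m) := by
    have b1 : 0 ≤ (1 - ρ * ε * m) * (ε * m) := mul_nonneg (by linarith) (by positivity)
    have b2 : (cE q ε - cA q ε) * ((1 - ρ * ε * m) * (ε * m)) ≤
      ε * ((q + 1) * (q + 3)) * ((1 - ρ * ε * m) * (ε * m)) := by gcongr
    have b3 : (1 - ρ * ε * m) * (ε * m) ≤ 1 * (ε * m) := by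
      have : 0 < ρ * ε * m := by positivity
      gcongr
      linarith
    have b4 : ε * ((q + 1) * (q + 3)) * ((1 - ρ * ε * m) * (ε * m)) ≤ ε * ((q + 1) * (q + 3)) * (1 * (ε * m)) := by
      gcongr
    linarith
  have a3 : cB q ε * (ε * m) ^ 2 ≤ (q + 3) * (ε * m) ^ 2 := by gcongr
  have e3 : (q + 3) * (ε + ε ^ 2 * (m * (m + q + 1 - 2 * ρ)) + ε ^ 2 * (ε * (ρ ^ 2 * m ^ 2))) =
    ε * (q + 3) * (1 - ρ * ε * m) ^ 2 + ε * ((q + 1) * (q + 3)) * (ε * m) + (q + 3) * (ε * m) ^ 2 := by ring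
  linarith

lemma Q_ge {q ε : ℝ} (h : Par q ε) {s : ℝ × ℝ} (h1 : 0 < s.1) (h1' : s.1 ≤ 1) (h2 : 0 < s.2) :
    (q + 3) * (ε * s.1 ^ 2 - 4 * ε ^ 2 + ε * q * (s.1 * s.2) + 99 / 100 * s.2 ^ 2) ≤
      cross s (stepF q ε s) := by
  have hq := h.qpos
  have hq7 := h.hq
  have he := h.e0
  have he1 := h.e1
  have he2 := h.e2
  have hC := h.C_ge
  have hB := h.B_ge
  have e1 : cross s (stepF q ε s) = cC q ε * s.1 ^ 2 +
      (cE q ε - cA q ε) * (s.1 * s.2) + cB q ε * s.2 ^ 2 := by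
    simp only [cross, stepF_fst, stepF_snd]; ring
  rw [e1]
  have hEA : ε * (q * (q + 3)) ≤ cE q ε - cA q ε := by
    have e2 : cE q ε - cA q ε = ε * ((q + 1) * (q + 3)) - ε ^ 2 * (4 * q ^ 2 + 8 * q) + 4 * ε ^ 3 * q ^ 2 := by
      unfold cE cA cC; ring
    have b1 : 0 ≤ 4 * ε ^ 3 * q ^ 2 := by positivity
    have b2 : ε ^ 2 * (4 * q ^ 2 + 8 * q) ≤ ε * (q + 3) := by
      calc ε ^ 2 * (4 * q ^ 2 + 8 * q) = ε * (ε * (4 * q ^ 2 + 8 * q)) := by ring
        _ ≤ ε * (q + 3) := by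
          apply mul_le_mul_of_nonneg_left _ he.le
          nlinarith
    linarith
  have a1 : (ε * (q + 3) - ε ^ 2 * (6 + 4 * q)) * s.1 ^ 2 ≤ cC q ε * s.1 ^ 2 := by gcongr
  have a2 : ε * (q * (q + 3)) * (s.1 * s.2) ≤ (cE q ε - cA q ε) * (s.1 * s.2) := by
    apply mul_le_mul_of_nonneg_right hEA (by positivity)
  have a3 : 99 / 100 * (q + 3) * s.2 ^ 2 ≤ cB q ε * s.2 ^ 2 := by
    apply mul_le_mul_of_nonneg_right _ (by positivity)
    nlinarith
  have a4 : ε ^ 2 * (6 + 4 * q) * s.1 ^ 2 ≤ ε ^ 2 * (4 * (q + 3)) := by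
    have : s.1 ^ 2 ≤ 1 := pow_le_one₀ h1.le h1'
    calc ε ^ 2 * (6 + 4 * q) * s.1 ^ 2 ≤ ε ^ 2 * (6 + 4 * q) * 1 := by gcongr
      _ ≤ ε ^ 2 * (4 * (q + 3)) := by
        have : 6 + 4 * q ≤ 4 * (q + 3) := by linarith
        have h6 : ε ^ 2 * (6 + 4 * q) ≤ ε ^ 2 * (4 * (q + 3)) := by gcongr
        linarith
  linarith

lemma P_ineq {q ε ρ m : ℝ} (h : Par q ε) (hm0 : q + 3 ≤ m) (hm : m ≤ 2 * q + 6)
    (hρ : q + 2 + 1 / 10 ≤ ρ) (hρ' : ρ ≤ q + q / 1000 + 3) {N : ℕ}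
    (hv : Valid q ε N (E0 ρ ε m)) :
    9 / 10 * (it q ε N (E0 ρ ε m)).2 ^ 2 + 1 / 5 * (ε ^ 2 * q ^ 2) ≤
      ε * (1 - (it q ε N (E0 ρ ε m)).1 ^ 2) := by
  have hq := h.qpos
  have hq7 := h.hq
  have he := h.e0
  have h1 := h.e1
  have h2 := h.e2
  have h4 := h.e4
  have hmp : 0 < m := by linarith
  have hρp : 0 < ρ := by linarith
  have sm : ε * (ρ ^ 2 * m ^ 2) ≤ 1 / 10 := by
    have c1 : ρ ^ 2 * m ^ 2 ≤ (2 * q) ^ 2 * (3 * q) ^ 2 := by
      have : ρ ≤ 2 * q := by linarith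
      have : m ≤ 3 * q := by linarith
      gcongr
    calc ε * (ρ ^ 2 * m ^ 2) ≤ ε * ((2 * q) ^ 2 * (3 * q) ^ 2) := by gcongr
      _ = 36 * (ε * q ^ 4) := by ring
      _ ≤ 36 * (1 / 10 ^ 14) := by gcongr
      _ ≤ 1 / 10 := by norm_num
  rcases Nat.eq_zero_or_pos N with rfl | hN
  · -- the start
    simp only [it_zero, E0]
    have key : 9 / 10 * m ^ 2 + 1 / 5 * q ^ 2 + 1 ≤ 2 * ρ * m := by
      have b1 : 2 * (q + 2 + 1 / 10) * m ≤ 2 * ρ * m := by gcongr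
      have b2 : 9 / 10 * m ^ 2 + 1 / 5 * q ^ 2 + 1 ≤ 2 * (q + 2 + 1 / 10) * m := by
        have p1 : 0 ≤ (m - (q + 3)) * (2 * q + 6 - m) := mul_nonneg (by linarith) (by linarith)
        nlinarith
      linarith
    have k2 : 0 ≤ ε ^ 2 * (2 * ρ * m - (9 / 10 * m ^ 2 + 1 / 5 * q ^ 2 + 1)) := by
      apply mul_nonneg (by positivity); linarith
    have k3 : ε ^ 2 * (ε * (ρ ^ 2 * m ^ 2)) ≤ ε ^ 2 * (1 / 10) := by gcongr
    have k4 : 0 < ε ^ 2 := by positivity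
    have e : ε * (1 - (1 - ρ * ε * m) ^ 2) = ε ^ 2 * (2 * ρ * m) - ε ^ 2 * (ε * (ρ ^ 2 * m ^ 2)) := by ring
    rw [e]
    linarith
  · have hVN := hv N le_rfl
    have hV1 : (it q ε N (E0 ρ ε m)).1 ≤ 1 := by
      apply fst_le_one h hv _ N le_rfl
      simp only [E0]
      have : 0 < ρ * ε * m := by positivity
      linarith
    have hge := ge_mul_it h (m := m) hmp.le hv (by
      simp only [E0]
      have : 0 < ε * m * (ρ * ε * m) := by positivity
      linarith) N le_rfl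
    have hQ1 := Q_le h hmp hm hρp hρ'
    have hQ2 := Q_ge h hVN.1 hV1 hVN.2
    have hQ3 : cross (it q ε N (E0 ρ ε m)) (stepF q ε (it q ε N (E0 ρ ε m))) =
        cross (E0 ρ ε m) (stepF q ε (E0 ρ ε m)) := by
      rw [← it_succ, it_succ', cross_it]
    rw [hQ3] at hQ2
    generalize (it q ε N (E0 ρ ε m)) = t at *
    obtain ⟨V, I⟩ := t
    simp only at *
    have hb : ε * V ^ 2 - 4 * ε ^ 2 + ε * q * (V * I) + 99 / 100 * I ^ 2 ≤
        (ε + ε ^ 2 * (m * (m + q + 1 - 2 * ρ)) + ε ^ 2 * (ε * (ρ ^ 2 * m ^ 2))) :=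
      le_of_mul_le_mul_left (hQ2.trans hQ1) (by linarith)
    have hb2 : ε ^ 2 * (m * (m + q + 1 - 2 * ρ)) ≤ ε ^ 2 * (m * (m - q - 32/10)) := by
      apply mul_le_mul_of_nonneg_left _ (by positivity)
      apply mul_le_mul_of_nonneg_left _ hmp.le
      linarith
    have hb3 : ε ^ 2 * (ε * (ρ ^ 2 * m ^ 2)) ≤ ε ^ 2 * (1 / 10) := by gcongr
    have hb4 : 0 < ε * q * (V * I) := mul_pos (mul_pos he hq) (mul_pos hVN.1 hVN.2)
    have he2p : 0 < ε ^ 2 := by positivity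
    rcases le_or_gt (9 / 10) (V ^ 2) with hV | hV
    · have k1 : ε * (m + (q + 3)) * V ≤ I := by
        refine le_trans ?_ hge
        have : (m + (q + 3)) ≤ (N * (q + 3) + m) := by
          have : (1 : ℝ) ≤ N := by exact_mod_cast hN
          nlinarith
        have hVp := hVN.1
        gcongr
      have k2 : ε * q * (V * (ε * (m + (q + 3)) * V)) ≤ ε * q * (V * I) := by
        have hVp := hVN.1
        gcongr
      have k3 : ε ^ 2 * (q * (m + (q + 3)) * (9 / 10)) ≤ ε ^ 2 * (q * (m + (q + 3)) * V ^ 2) := by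
        gcongr
      have k4 : 0 ≤ ε ^ 2 * (q * (m + (q + 3)) * (9 / 10) - m * (m - q - 32 / 10) - 5 - 1 / 5 * q ^ 2) := by
        apply mul_nonneg he2p.le
        have p1 : 0 ≤ (m - (q + 3)) * (2 * q + 6 - m) := mul_nonneg (by linarith) (by linarith)
        nlinarith
      linarith [sq_nonneg I]
    · have k1 : ε ^ 2 * (m * (m - q - 32/10)) ≤ ε ^ 2 * (4 * q ^ 2 - 5) := by
        apply mul_le_mul_of_nonneg_left _ he2p.le
        have : m * (m - q - 32/10) ≤ (2 * q + 6) * (q + 3) := by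
          have : m - q - 32/10 ≤ q + 3 := by linarith
          have h3 : m * (m - q - 32/10) ≤ m * (q + 3) := by gcongr
          have h4 : m * (q + 3) ≤ (2 * q + 6) * (q + 3) := by gcongr
          linarith
        nlinarith
      have k2 : 99 / 100 * I ^ 2 ≤ ε * (1 - V ^ 2) + ε ^ 2 * (4 * q ^ 2) := by linarith
      have k3 : ε ^ 2 * (100 * q ^ 2) ≤ ε * (1 - V ^ 2) := by
        calc ε ^ 2 * (100 * q ^ 2) = ε * (100 * (ε * q ^ 2)) := by ring
          _ ≤ ε * (1 - V ^ 2) := by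
            gcongr
            linarith
      have k4 : 0 ≤ ε ^ 2 * q ^ 2 := by positivity
      linarith

/-! ## the function `uu` -/

lemma uu_pos {q ε t : ℝ} (h : Par q ε) (ht : 0 < t) (ht' : t ≤ 1 / q) :
    0 < 1 - (t + 2 * ε) ∧ 0 < (t + 2 * ε) / (1 - (t + 2 * ε)) + q * ε ∧
    0 < 1 - 2 * ((t + 2 * ε) / (1 - (t + 2 * ε)) + q * ε) ∧ 0 < uu q ε t := by
  have hq := h.qpos
  have hq7 := h.hq
  have he := h.e0
  have h1 := h.e1
  have h0 := h.ee
  have ht2 : t ≤ 1 / 10 ^ 7 := ht'.trans (one_div_le_one_div_of_le (by norm_num) hq7)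
  have a1 : 1 / 2 ≤ 1 - (t + 2 * ε) := by linarith
  have a2 : (t + 2 * ε) / (1 - (t + 2 * ε)) ≤ 1 / 100 := by
    rw [div_le_iff₀ (by linarith)]
    linarith
  have a3 : 0 < (t + 2 * ε) / (1 - (t + 2 * ε)) + q * ε := by
    have : 0 < 1 - (t + 2 * ε) := by linarith
    positivity
  have a4 : 0 < 1 - 2 * ((t + 2 * ε) / (1 - (t + 2 * ε)) + q * ε) := by linarith
  refine ⟨by linarith, a3, a4, ?_⟩
  unfold uu
  positivity

lemma uu_mono {q ε t t' : ℝ} (h : Par q ε) (ht : 0 < t) (htt : t ≤ t') (ht' : t' ≤ 1 / q) :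
    uu q ε t ≤ uu q ε t' := by
  obtain ⟨a1, a2, a3, -⟩ := uu_pos h ht (htt.trans ht')
  obtain ⟨b1, b2, b3, -⟩ := uu_pos h (ht.trans_le htt) ht'
  have he := h.e0
  have ht0 : 0 ≤ t' + 2 * ε := by linarith
  have c1 : (t + 2 * ε) / (1 - (t + 2 * ε)) ≤ (t' + 2 * ε) / (1 - (t' + 2 * ε)) := by
    gcongr
  unfold uu
  gcongr

lemma step_y {q ε : ℝ} (h : Par q ε) {s : ℝ × ℝ} (h1 : 0 < s.1) (h2 : 0 < s.2)
    (h3 : 0 < (stepF q ε s).1) :
    1 / ((stepF q ε s).2 / (stepF q ε s).1) = 1 / uu q ε (s.2 / s.1) - q := by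
  have hq := h.qpos
  have ht : s.2 / s.1 ≤ 1 / q := by
    have := le_inv_step h h2 h3
    rw [div_le_div_iff₀ h1 hq]
    linarith
  obtain ⟨a1, a2, a3, a4⟩ := uu_pos h (div_pos h2 h1) ht
  have h4 : 0 < (stepF q ε s).2 := snd_pos h h1.le h2
  obtain ⟨V, I⟩ := s
  simp only at *
  generalize ht0 : I / V = t at *
  have hI : I = t * V := by rw [← ht0]; field_simp
  subst hI
  generalize hw : (t + 2 * ε) / (1 - (t + 2 * ε)) = w at *
  have hw' : t + 2 * ε = w * (1 - (t + 2 * ε)) := by rw [← hw, div_mul_cancel₀ _ a1.ne']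
  have hwp : 0 < 1 - 2 * (w + q * ε) := a3
  have huu : uu q ε t = (w + q * ε) / (1 - 2 * (w + q * ε)) + ε := by
    unfold uu; rw [hw]
  generalize hz : (w + q * ε) / (1 - 2 * (w + q * ε)) = z at *
  have hz' : w + q * ε = z * (1 - 2 * (w + q * ε)) := by rw [← hz, div_mul_cancel₀ _ a3.ne']
  rw [huu] at a4 ⊢
  -- explicit form of the step
  have e2 : (stepF q ε (V, t * V)).2 = (z + ε) * ((1 - 2 * (w + q * ε)) * ((1 - (t + 2 * ε)) * V)) := by
    simp only [stepF, addRes, addMass]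
    linear_combination (V * (1 - 2 * ε)) * hw' + (1 - (t + 2 * ε)) * V * hz'
  have e1 : (stepF q ε (V, t * V)).1 = (1 - q * (z + ε)) * ((1 - 2 * (w + q * ε)) * ((1 - (t + 2 * ε)) * V)) := by
    simp only [stepF, addRes, addMass]
    linear_combination (-V * (2 + q * (1 - 2 * ε))) * hw' - q * (1 - (t + 2 * ε)) * V * hz'
  have hK : 0 < (1 - 2 * (w + q * ε)) * ((1 - (t + 2 * ε)) * V) := by positivity
  rw [e1] at h3 ⊢
  rw [e2]
  have h5 : 0 < 1 - q * (z + ε) := (pos_iff_pos_of_mul_pos h3).2 hK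
  rw [mul_div_mul_right _ _ hK.ne']
  field_simp

/-! ## the barrier function -/

/-- the parameter `ρ(m)` -/
def rf (q m : ℕ) : ℝ := if 5 * m ≤ 8 * (q + 3) then (q : ℝ) + 2 + 1 / 10 else (q : ℝ) + (q : ℝ) / 1000 + 3

lemma rf_ge (q m : ℕ) (hq : 10 ^ 7 ≤ q) : (q : ℝ) + 2 + 1 / 10 ≤ rf q m := by
  unfold rf
  have : (0 : ℝ) ≤ q := by positivity
  split_ifs
  · exact le_rfl
  · linarith

lemma rf_le (q m : ℕ) (hq : 10 ^ 7 ≤ q) : rf q m ≤ (q : ℝ) + (q : ℝ) / 1000 + 3 := by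
  unfold rf
  have : (0 : ℝ) ≤ q := by positivity
  split_ifs
  · linarith
  · exact le_rfl

lemma rf_mono (q : ℕ) {m m' : ℕ} (hq : 10 ^ 7 ≤ q) (h : m ≤ m') : rf q m ≤ rf q m' := by
  by_cases h1 : 5 * m' ≤ 8 * (q + 3)
  · have h2 : 5 * m ≤ 8 * (q + 3) := by omega
    simp only [rf, h1, h2, if_true]; exact le_rfl
  · have : rf q m' = (q : ℝ) + (q : ℝ) / 1000 + 3 := by simp only [rf, h1, if_false]
    rw [this]
    exact rf_le q m hq

/-- the start state for residue `m` -/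
def S0 (q : ℕ) (ε : ℝ) (m : ℕ) : ℝ × ℝ := E0 (rf q m) ε m

/-- the state at `M` -/
def st (q : ℕ) (ε : ℝ) (M : ℕ) : ℝ × ℝ :=
  it q ε (M / (q + 3) - 1) (S0 q ε (q + 3 + M % (q + 3)))

lemma st_eq (q : ℕ) (ε : ℝ) {i m : ℕ} (h1 : q + 3 ≤ m) (h2 : m < 2 * (q + 3)) :
    st q ε (i * (q + 3) + m) = it q ε i (S0 q ε m) := by
  unfold st
  have e1 : (i * (q + 3) + m) / (q + 3) = i + 1 := by
    apply Nat.div_eq_of_lt_le
    · have : (i + 1) * (q + 3) = i * (q + 3) + (q + 3) := by ring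
      omega
    · have : (i + 1 + 1) * (q + 3) = i * (q + 3) + 2 * (q + 3) := by ring
      show i * (q + 3) + m < (i + 1 + 1) * (q + 3)
      rw [this]
      omega
  have e2 : (i * (q + 3) + m) % (q + 3) = m - (q + 3) := by
    have := Nat.div_add_mod (i * (q + 3) + m) (q + 3)
    rw [e1] at this
    have h3 : (q + 3) * (i + 1) = i * (q + 3) + (q + 3) := by ring
    omega
  rw [e1, e2]
  have e3 : q + 3 + (m - (q + 3)) = m := by omega
  rw [e3]
  rfl

lemma decomp (q M : ℕ) (h : q + 3 ≤ M) :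
    ∃ i m, q + 3 ≤ m ∧ m < 2 * (q + 3) ∧ M = i * (q + 3) + m := by
  refine ⟨M / (q + 3) - 1, q + 3 + M % (q + 3), by omega, ?_, ?_⟩
  · have := Nat.mod_lt M (show 0 < q + 3 by omega)
    omega
  · have h1 := Nat.div_add_mod M (q + 3)
    have h2 : 1 ≤ M / (q + 3) := (Nat.one_le_div_iff (by omega)).2 h
    obtain ⟨c, hc⟩ : ∃ c, M / (q + 3) = c + 1 := ⟨M / (q + 3) - 1, by omega⟩
    rw [hc] at h1 ⊢
    have h3 : (q + 3) * (c + 1) = c * (q + 3) + (q + 3) := by ring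
    simp only [Nat.add_sub_cancel]
    omega

section

variable {q k n : ℕ} {ε : ℝ}

lemma S0_valid (hq : 10 ^ 7 ≤ q) (hq6 : 6 ∣ q) (h : Par q ε)
    (hn : n = k * (q + 3) + (q + 3) + q / 2)
    (hT : Valid q ε k (E0 ((q : ℝ) + 2 + 1 / 10) ε ((q : ℝ) + 3 + (q : ℝ) / 2)))
    {i m : ℕ} (h1 : q + 3 ≤ m) (h2 : m < 2 * (q + 3)) (h3 : i * (q + 3) + m ≤ n) :
    Valid q ε i (S0 q ε m) := by
  have he := h.e0
  have hqp := h.qpos
  have hmp : (0 : ℝ) < m := by
    have : 0 < m := by omega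
    exact_mod_cast this
  have hS2 : 0 < (S0 q ε m).2 := by
    simp only [S0, E0]; positivity
  have hqh : ((q / 2 : ℕ) : ℝ) = (q : ℝ) / 2 := by
    rw [Nat.cast_div (by omega) (by norm_num)]; norm_num
  by_cases hc : m ≤ q + 3 + q / 2
  · have hik : i ≤ k := by
      by_contra hcon
      push Not at hcon
      have : (k + 1) * (q + 3) ≤ i * (q + 3) := Nat.mul_le_mul_right _ hcon
      have e : (k + 1) * (q + 3) = k * (q + 3) + (q + 3) := by ring
      omega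
    have hr : rf q m = (q : ℝ) + 2 + 1 / 10 := by
      have : 5 * m ≤ 8 * (q + 3) := by omega
      simp only [rf, this, if_true]
    refine comp h (hT.mono hik) hS2 ?_
    simp only [S0]
    rw [hr, cross_E0]
    have : (m : ℝ) ≤ (q : ℝ) + 3 + (q : ℝ) / 2 := by
      rw [← hqh]; exact_mod_cast hc
    have : 0 ≤ ε * ((q : ℝ) + 3 + (q : ℝ) / 2 - m) := mul_nonneg he.le (by linarith)
    simp only [sub_self, mul_zero, add_zero]
    exact this
  · push Not at hc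
    have hik : i + 1 ≤ k := by
      by_contra hcon
      push Not at hcon
      have : k * (q + 3) ≤ i * (q + 3) := Nat.mul_le_mul_right _ (by omega)
      omega
    have hT' : Valid q ε i (stepF q ε (E0 ((q : ℝ) + 2 + 1 / 10) ε ((q : ℝ) + 3 + (q : ℝ) / 2))) :=
      (hT.mono hik).step
    refine comp h hT' hS2 ?_
    have hm2 : (m : ℝ) ≤ 2 * q + 6 := by
      have : m ≤ 2 * q + 6 := by omega
      exact_mod_cast this
    refine cross_trans (t := E0 ((q : ℝ) + (q : ℝ) / 1000 + 3) ε m) hS2 ?_ ?_ ?_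
      (cross_E0_step_top h hmp.le hm2)
    · simp only [E0]; positivity
    · exact (hT' 0 (Nat.zero_le _)).2
    · simp only [S0]
      rw [cross_E0]
      have := rf_le q m hq
      have : 0 ≤ ε ^ 2 * m * m * ((q : ℝ) + (q : ℝ) / 1000 + 3 - rf q m) :=
        mul_nonneg (by positivity) (by linarith)
      simp only [sub_self, mul_zero, zero_add]
      exact this

/-- the chain of comparisons -/
lemma chain (hq : 10 ^ 7 ≤ q) (h : Par q ε) {m : ℕ} (h1 : q + 3 ≤ m) (h2 : m < 2 * (q + 3)) :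
    ∀ a : ℕ, a ≤ 2 → Valid q ε (a + 1) (S0 q ε m) →
      0 ≤ cross (E0 ((q : ℝ) + (q : ℝ) / 1000 + 3) ε (m + ((a + 1 : ℕ) : ℝ) * ((q : ℝ) + 3)))
        (it q ε (a + 1) (S0 q ε m)) := by
  have he := h.e0
  have hqp := h.qpos
  have hmp : (0 : ℝ) < m := by
    have : 0 < m := by omega
    exact_mod_cast this
  have hm1 : (q : ℝ) + 3 ≤ m := by exact_mod_cast h1
  have hm2 : (m : ℝ) ≤ 2 * q + 6 := by
    have : m ≤ 2 * q + 6 := by omega
    exact_mod_cast this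
  intro a
  induction a with
  | zero =>
    intro _ hv
    rw [it_succ']
    simp only [it_zero, S0]
    have := cross_E0_step h (m := m) (ρ := rf q m) hm1 (by linarith) (rf_ge q m hq) (rf_le q m hq)
    simpa using this
  | succ a ih =>
    intro ha hv
    have ih' := ih (by omega) (hv.mono (by omega))
    have ha1 : (a : ℝ) ≤ 1 := by
      have : a ≤ 1 := by omega
      exact_mod_cast this
    have hc : ((a + 1 + 1 : ℕ) : ℝ) * ((q : ℝ) + 3) = ((a + 1 : ℕ) : ℝ) * ((q : ℝ) + 3) + ((q : ℝ) + 3) := by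
      push_cast; ring
    rw [hc, ← add_assoc]
    have hpos : 0 ≤ ((a + 1 : ℕ) : ℝ) * ((q : ℝ) + 3) := by positivity
    have hle : ((a + 1 : ℕ) : ℝ) * ((q : ℝ) + 3) ≤ 2 * ((q : ℝ) + 3) := by
      push_cast
      gcongr
      linarith
    generalize hX : (m : ℝ) + ((a + 1 : ℕ) : ℝ) * ((q : ℝ) + 3) = X at *
    have hX1 : (q : ℝ) + 3 ≤ X := by linarith
    have hX2 : X ≤ 4 * q + 12 := by linarith
    have hstep := cross_E0_step h hX1 hX2 (ρ := (q : ℝ) + (q : ℝ) / 1000 + 3) (by linarith) le_rfl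
    have hE : 0 < (E0 ((q : ℝ) + (q : ℝ) / 1000 + 3) ε X).1 := by
      simp only [E0]
      have e2 := h.e2
      have e1 := h.e1
      have hq7 := h.hq
      have w1 : (q : ℝ) + (q : ℝ) / 1000 + 3 ≤ 2 * q := by linarith
      have w2 : X ≤ 5 * q := by linarith
      have w3 : 0 ≤ X := by linarith
      have : ((q : ℝ) + (q : ℝ) / 1000 + 3) * ε * X ≤ (2 * q) * ε * (5 * q) := by gcongr
      nlinarith
    have hE2 : 0 < (E0 ((q : ℝ) + (q : ℝ) / 1000 + 3) ε X).2 := by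
      simp only [E0]
      have : 0 < X := by linarith
      positivity
    refine cross_trans ?_ (snd_pos h hE.le hE2) (hv (a + 1 + 1) le_rfl).2 hstep ?_
    · simp only [E0]
      have : 0 < X := by linarith
      positivity
    · rw [it_succ q ε (a + 1), cross_stepF]
      exact ih'

end

end

end T4

open T4 in
/-- T4. The barrier function. -/
theorem exists_barrier (q k n : ℕ) (hq : 10 ^ 7 ≤ q) (hq6 : 6 ∣ q) (ε : ℝ) (hε0 : 0 < ε)
    (hε : ε * (q : ℝ) ^ 6 ≤ 1) (hn : n = k * (q + 3) + (q + 3) + q / 2)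
    (HR : ∀ j ≤ k, 0 ≤ (1 - 2 * ε) * (stR q ε j).1 - 2 * (stR q ε j).2) :
    ∃ yB : ℕ → ℝ, Barrier q n ε yB := by
  have h : Par (q : ℝ) ε := ⟨by exact_mod_cast hq, hε0, hε⟩
  have he := h.e0
  have hqp := h.qpos
  have hq7 := h.hq
  have hT := T0_valid h HR
  have hV : ∀ {i m : ℕ}, q + 3 ≤ m → m < 2 * (q + 3) → i * (q + 3) + m ≤ n →
      Valid q ε i (S0 q ε m) := fun h1 h2 h3 => S0_valid hq hq6 h hn hT h1 h2 h3
  refine ⟨fun M => (st q ε M).2 / (st q ε M).1, ?_⟩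
  -- basic facts about `st`
  have hpos : ∀ M, q + 3 ≤ M → M ≤ n → 0 < (st q ε M).1 ∧ 0 < (st q ε M).2 := by
    intro M h1 h2
    obtain ⟨i, m, a1, a2, rfl⟩ := decomp q M h1
    rw [st_eq q ε a1 a2]
    exact hV a1 a2 h2 i le_rfl
  have hnext : ∀ M, q + 3 ≤ M → st q ε (M + (q + 3)) = stepF q ε (st q ε M) := by
    intro M h1
    obtain ⟨i, m, a1, a2, rfl⟩ := decomp q M h1
    have e : i * (q + 3) + m + (q + 3) = (i + 1) * (q + 3) + m := by ring
    rw [e, st_eq q ε a1 a2, st_eq q ε a1 a2, it_succ]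
  have hle : ∀ M, q + 3 ≤ M → M + (q + 3) ≤ n → (st q ε M).2 / (st q ε M).1 ≤ 1 / (q : ℝ) := by
    intro M h1 h2
    have h3 := hpos M h1 (by omega)
    have h4 := hpos (M + (q + 3)) (by omega) h2
    rw [hnext M h1] at h4
    have := le_inv_step h h3.2 h4.1
    rw [div_le_div_iff₀ h3.1 hqp]
    linarith
  have hm_pos : ∀ {m : ℕ}, q + 3 ≤ m → (0 : ℝ) < m := by
    intro m h1
    have : 0 < m := by omega
    exact_mod_cast this
  constructor
  · intro M h1 h2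
    obtain ⟨a, b⟩ := hpos M h1 h2
    positivity
  · exact hle
  · intro M h1 h2
    obtain ⟨i, m, a1, a2, rfl⟩ := decomp q M h1
    have hv := hV a1 a2 h2
    obtain ⟨b1, b2⟩ := hv i le_rfl
    have hmp := hm_pos a1
    rw [st_eq q ε a1 a2, le_div_iff₀ b1]
    have hr := rf_ge q m hq
    have := ge_mul_it h (m := m) hmp.le hv (by
      simp only [S0, E0]
      have : 0 < ε * m * (rf q m * ε * m) := by
        have : 0 < rf q m := by linarith
        positivity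
      linarith) i le_rfl
    have e : ((i * (q + 3) + m : ℕ) : ℝ) = (i : ℝ) * ((q : ℝ) + 3) + m := by push_cast; ring
    rw [e]
    exact this
  · intro M h1 h2 h3
    have e : st q ε M = S0 q ε M := by
      have := st_eq q ε (i := 0) h1 (by omega)
      simpa using this
    have hr : rf q M = (q : ℝ) + 2 + 1 / 10 := by simp only [rf, h3, if_true]
    have hmp := hm_pos h1
    simp only [e, S0, hr, E0]
    rw [one_div_div]
    have : (1 - ((q : ℝ) + 2 + 1 / 10) * ε * M) / (ε * M) = 1 / (ε * M) - ((q : ℝ) + 2 + 1 / 10) := by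
      field_simp
    rw [this]
  · intro M h1 h2 h3
    have hM : q + 3 ≤ M := by omega
    have hmp := hm_pos hM
    have goal : 1 / ((st q ε M).2 / (st q ε M).1) ≤
        1 / (ε * M) - ((q : ℝ) + (q : ℝ) / 1000 + 3) := by
      have hst := hpos M hM h3
      have hc : 0 ≤ cross (E0 ((q : ℝ) + (q : ℝ) / 1000 + 3) ε M) (st q ε M) := by
        obtain ⟨i, m, a1, a2, hMe⟩ := decomp q M hM
        rcases Nat.eq_zero_or_pos i with rfl | hi
        · have hMm : M = m := by omega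
          subst hMm
          have e : st q ε M = S0 q ε M := by
            have := st_eq q ε (i := 0) hM a2
            simpa using this
          have hr : rf q M = (q : ℝ) + (q : ℝ) / 1000 + 3 := by
            have : ¬ (5 * M ≤ 8 * (q + 3)) := by omega
            simp only [rf, this, if_false]
          rw [e, S0, hr, cross_E0]
          simp
        · obtain ⟨a, rfl⟩ : ∃ a, i = a + 1 := ⟨i - 1, by omega⟩
          have ha : a ≤ 2 := by
            by_contra hcon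
            push Not at hcon
            have : 4 * (q + 3) ≤ (a + 1) * (q + 3) := Nat.mul_le_mul_right _ (by omega)
            omega
          have hv := hV a1 a2 (hMe ▸ h3)
          have := chain hq h a1 a2 a ha hv
          rw [hMe, st_eq q ε a1 a2]
          have e : (((a + 1) * (q + 3) + m : ℕ) : ℝ) = m + ((a + 1 : ℕ) : ℝ) * ((q : ℝ) + 3) := by
            push_cast; ring
          rw [e]
          exact this
      rw [one_div_div, sub_eq_add_neg, ← sub_eq_add_neg]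
      have e2 : 1 / (ε * M) - ((q : ℝ) + (q : ℝ) / 1000 + 3) =
          (1 - ((q : ℝ) + (q : ℝ) / 1000 + 3) * ε * M) / (ε * M) := by
        field_simp
      rw [e2, div_le_div_iff₀ hst.2 (by positivity)]
      unfold cross at hc
      simp only [E0] at hc
      linarith
    linarith
  · intro M s h1 h2 h3
    obtain ⟨i, m, a1, a2, hMe⟩ := decomp q M h1
    have hmp := hm_pos a1
    have hm1 : (q : ℝ) + 3 ≤ m := by exact_mod_cast a1
    have hm2 : (m : ℝ) ≤ 2 * q + 6 := by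
      have : m ≤ 2 * q + 6 := by omega
      exact_mod_cast this
    have hr1 := rf_ge q m hq
    have hr2 := rf_le q m hq
    have hs0 : (0 : ℝ) ≤ s := by positivity
    obtain ⟨a, m', b1, b2, hr⟩ := decomp q (m + s) (by omega)
    have hP : M + s = (i + a) * (q + 3) + m' := by
      have : (i + a) * (q + 3) = i * (q + 3) + a * (q + 3) := by ring
      omega
    have hMs : q + 3 ≤ M + s := by omega
    have eMs : M + (q + 3) + s = (M + s) + (q + 3) := by ring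
    have hst1 := hpos (M + s) hMs (by omega)
    have hst2 := hpos (M + s + (q + 3)) (by omega) (by omega)
    have hst3 := hle (M + s) hMs (by omega)
    have hstM := hpos M h1 (by omega)
    have hvM : Valid q ε i (S0 q ε m) := hV a1 a2 (by omega)
    have hvP : Valid q ε (i + a + 1) (S0 q ε m') := by
      apply hV b1 b2
      have : (i + a + 1) * (q + 3) + m' = (i + a) * (q + 3) + m' + (q + 3) := by ring
      omega
    have hstMe : st q ε M = it q ε i (S0 q ε m) := by rw [hMe, st_eq q ε a1 a2]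
    have hstP : st q ε (M + s) = it q ε (i + a) (S0 q ε m') := by rw [hP, st_eq q ε b1 b2]
    -- the state with extra mass at the top
    have hX2 : 0 < (E0 (rf q m) ε ((m : ℝ) + s)).2 := by simp only [E0]; positivity
    have hcr : 0 ≤ cross (E0 (rf q m) ε ((m : ℝ) + s)) (it q ε a (S0 q ε m')) := by
      have hms : ((m : ℝ) + s) = ((m + s : ℕ) : ℝ) := by push_cast; ring
      rcases Nat.eq_zero_or_pos a with rfl | ha
      · have hmm : m' = m + s := by omega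
        rw [it_zero, S0, hmm, hms, cross_E0]
        have := rf_mono q hq (show m ≤ m + s by omega)
        have : 0 ≤ ε ^ 2 * ((m + s : ℕ) : ℝ) * ((m + s : ℕ) : ℝ) * (rf q (m + s) - rf q m) :=
          mul_nonneg (by positivity) (by linarith)
        simp only [sub_self, mul_zero, zero_add]
        exact this
      · obtain ⟨a', rfl⟩ : ∃ a', a = a' + 1 := ⟨a - 1, by omega⟩
        have ha : a' ≤ 2 := by
          by_contra hcon
          push Not at hcon
          have : 4 * (q + 3) ≤ (a' + 1) * (q + 3) := Nat.mul_le_mul_right _ (by omega)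
          omega
        have hv' : Valid q ε (a' + 1) (S0 q ε m') := hvP.mono (by omega)
        have h5 := chain hq h b1 b2 a' ha hv'
        have e : ((m : ℝ) + s) = m' + ((a' + 1 : ℕ) : ℝ) * ((q : ℝ) + 3) := by
          rw [hms, hr]; push_cast; ring
        rw [← e] at h5
        refine cross_trans hX2 ?_ (hv' (a' + 1) le_rfl).2 ?_ h5
        · simp only [E0]; positivity
        · rw [cross_E0]
          have : 0 ≤ ε ^ 2 * ((m : ℝ) + s) * ((m : ℝ) + s) * ((q : ℝ) + (q : ℝ) / 1000 + 3 - rf q m) :=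
            mul_nonneg (by positivity) (by linarith)
          simp only [sub_self, mul_zero, zero_add]
          exact this
    have hvX : Valid q ε i (E0 (rf q m) ε ((m : ℝ) + s)) := by
      refine comp h (t := it q ε a (S0 q ε m')) ?_ hX2 hcr
      intro j hj
      rw [← it_add]
      exact hvP (j + a) (by omega)
    obtain ⟨x1, x2⟩ := hvX i le_rfl
    have hxle := X_fst_le h hm1 hm2 hr1 hr2 hs0 (N := i) (by exact hvM)
    have hPi := P_ineq h hm1 hm2 hr1 hr2 (N := i) (by exact hvM)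
    have hcX : cross (it q ε i (E0 (rf q m) ε m)) (it q ε i (E0 (rf q m) ε ((m : ℝ) + s))) = ε * s := by
      rw [cross_it, cross_E0]; ring
    have hyX : (it q ε i (E0 (rf q m) ε ((m : ℝ) + s))).2 / (it q ε i (E0 (rf q m) ε ((m : ℝ) + s))).1 ≤
        (st q ε (M + s)).2 / (st q ε (M + s)).1 := by
      apply div_le_of_cross x1 hst1.1
      rw [hstP, it_add, cross_it]
      exact hcr
    have hgs : gs q ε s ((st q ε M).2 / (st q ε M).1) ≤
        (it q ε i (E0 (rf q m) ε ((m : ℝ) + s))).2 / (it q ε i (E0 (rf q m) ε ((m : ℝ) + s))).1 := by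
      rw [hstMe] at hstM ⊢
      simp only [S0] at hstM ⊢
      generalize it q ε i (E0 (rf q m) ε ((m : ℝ) + s)) = X at *
      generalize it q ε i (E0 (rf q m) ε (m : ℝ)) = Y at *
      obtain ⟨V, I⟩ := Y
      obtain ⟨V', I'⟩ := X
      simp only [cross] at *
      obtain ⟨v1, v2⟩ := hstM
      have g1 : I / V + s * (ε / V ^ 2) ≤ I' / V' := by
        have e1 : I' / V' = I / V + s * (ε / (V * V')) := by
          field_simp
          linarith
        rw [e1]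
        have : ε / V ^ 2 ≤ ε / (V * V') := by
          apply div_le_div_of_nonneg_left he.le (by positivity)
          rw [pow_two]
          gcongr
        have : s * (ε / V ^ 2) ≤ s * (ε / (V * V')) := by gcongr
        linarith
      refine le_trans ?_ g1
      unfold gs
      have g2 : ε + 9 / 10 * (I / V) ^ 2 + 1 / 5 * ε ^ 2 * q ^ 2 ≤ ε / V ^ 2 := by
        rw [le_div_iff₀ (by positivity)]
        have e1 : (ε + 9 / 10 * (I / V) ^ 2 + 1 / 5 * ε ^ 2 * q ^ 2) * V ^ 2 =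
          ε * V ^ 2 + 9 / 10 * I ^ 2 + 1 / 5 * (ε ^ 2 * q ^ 2) * V ^ 2 := by
          field_simp
        rw [e1]
        have hV1 : V ^ 2 ≤ 1 := by
          by_contra hcon
          push Not at hcon
          have : ε * (1 - V ^ 2) < 0 := mul_neg_of_pos_of_neg he (by linarith)
          have : 0 ≤ 9 / 10 * I ^ 2 + 1 / 5 * (ε ^ 2 * (q : ℝ) ^ 2) := by positivity
          linarith
        have : 1 / 5 * (ε ^ 2 * (q : ℝ) ^ 2) * V ^ 2 ≤ 1 / 5 * (ε ^ 2 * (q : ℝ) ^ 2) * 1 := by gcongr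
        linarith
      gcongr
    have hgpos : 0 < gs q ε s ((st q ε M).2 / (st q ε M).1) := by
      have : 0 < (st q ε M).2 / (st q ε M).1 := div_pos hstM.2 hstM.1
      unfold gs
      positivity
    simp only [eMs]
    constructor
    · exact div_pos hst2.2 hst2.1
    · exact hgs.trans (hyX.trans hst3)
    · rw [hnext (M + s) hMs] at hst2 ⊢
      rw [step_y h hst1.1 hst1.2 hst2.1]
      have hu1 := uu_mono h hgpos (hgs.trans hyX) hst3
      obtain ⟨-, -, -, hu2⟩ := uu_pos h hgpos (hgs.trans (hyX.trans hst3))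
      have := one_div_le_one_div_of_le hu2 hu1
      linarith

end Pool.MP_048773_co
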