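import Pool.Agent.MP_048773_co.T1
import Pool.Agent.MP_048773_co.T2
import Pool.Agent.MP_048773_co.T4
import Pool.Agent.MP_048773_co.T3Main

/-!
# Final assembly
-/

namespace Pool.MP_048773_co

open Finset Matrix Classical

noncomputable section

/-- largest Rayleigh quotient -/
def lamS {n : ℕ} (G : SimpleGraph (Fin n)) : ℝ :=
  sSup {r : ℝ | ∃ x : Fin n → ℝ, x ⬝ᵥ x = 1 ∧ r = x ⬝ᵥ (G.adjMatrix ℝ *ᵥ x)}

/-- positions ↦ values -/
def Xs {n : ℕ} (x : Fin n → ℝ) (σ : Equiv.Perm (Fin n)) (i : ℕ) : ℝ :=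
  if h : i < n then x (σ ⟨i, h⟩) else 0

/-- neighbourhoods in sorted position, with ground -/
def Ns {n : ℕ} (G : SimpleGraph (Fin n)) (σ : Equiv.Perm (Fin n)) (i : ℕ) : Finset ℕ :=
  if h : i < n then
    ((G.neighborFinset (σ ⟨i, h⟩)).image (fun u => (σ.symm u : ℕ))) ∪
      (if i = n - 1 then {n, n + 1} else ∅)
  else ∅

theorem Xs_of_lt {n : ℕ} (x : Fin n → ℝ) (σ : Equiv.Perm (Fin n)) {i : ℕ} (h : i < n) :
    Xs x σ i = x (σ ⟨i, h⟩) := dif_pos h

theorem Xs_symm {n : ℕ} (x : Fin n → ℝ) (σ : Equiv.Perm (Fin n)) (u : Fin n) :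
    Xs x σ (σ.symm u : ℕ) = x u := by
  rw [Xs_of_lt x σ (σ.symm u).2]
  simp

theorem mem_Ns {n : ℕ} (G : SimpleGraph (Fin n)) (σ : Equiv.Perm (Fin n)) {i j : ℕ} (h : i < n) :
    j ∈ Ns G σ i ↔ (∃ hj : j < n, G.Adj (σ ⟨i, h⟩) (σ ⟨j, hj⟩)) ∨
      (i = n - 1 ∧ (j = n ∨ j = n + 1)) := by
  unfold Ns
  rw [dif_pos h, mem_union, mem_image]
  constructor
  · rintro (⟨u, hu, rfl⟩ | hj)
    · left
      refine ⟨(σ.symm u).2, ?_⟩
      rw [SimpleGraph.mem_neighborFinset] at hu
      simpa using hu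
    · right
      split_ifs at hj with hi
      · exact ⟨hi, by simpa using hj⟩
      · simp at hj
  · rintro (⟨hj, hadj⟩ | ⟨hi, hj⟩)
    · left
      exact ⟨σ ⟨j, hj⟩, by rw [SimpleGraph.mem_neighborFinset]; exact hadj, by simp⟩
    · right
      rw [if_pos hi]
      simpa using hj

/-- PData from a Perron vector of a graph of the conjectured type -/
theorem pdata_of_graph {q n : ℕ} (hn : 2 ≤ n) (G : SimpleGraph (Fin n)) {lam : ℝ} {x : Fin n → ℝ}
    (hx : ∀ v, 0 < x v) (heig : ∀ v, ∑ u ∈ G.neighborFinset v, x u = lam * x v)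
    {v0 : Fin n} (hv0 : G.degree v0 = q) (hdeg : ∀ u, u ≠ v0 → G.degree u = q + 2)
    (hμ : 0 < (q : ℝ) + 2 - lam) :
    ∃ (X : ℕ → ℝ) (N : ℕ → Finset ℕ), PData q n ((q : ℝ) + 2 - lam) X N := by
  -- strict minimum
  have hmin : ∀ u, u ≠ v0 → x v0 < x u := by
    obtain ⟨w, -, hw⟩ := exists_min_image (univ : Finset (Fin n)) x ⟨v0, mem_univ _⟩
    have hkey : ∀ u, (∀ v, x u ≤ x v) → u = v0 := by
      intro u hu
      by_contra hne
      have h1 := heig u
      have h2 : (G.degree u : ℝ) * x u ≤ ∑ w ∈ G.neighborFinset u, x w := by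
        rw [← SimpleGraph.card_neighborFinset_eq_degree, ← nsmul_eq_mul]
        exact card_nsmul_le_sum _ _ _ fun v _ => hu v
      rw [hdeg u hne, h1] at h2
      push_cast at h2
      have := mul_pos hμ (hx u)
      linarith
    have hw0 : w = v0 := hkey w (fun v => hw v (mem_univ _))
    subst hw0
    intro u hu
    by_contra h
    push Not at h
    exact hu (hkey u (fun v => h.trans (hw v (mem_univ _))))
  obtain ⟨σ, hσdef⟩ : ∃ σ, σ = Tuple.sort (fun v => - x v) := ⟨_, rfl⟩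
  have hσ : ∀ i j : Fin n, i ≤ j → x (σ j) ≤ x (σ i) := by
    intro i j hij
    have := Tuple.monotone_sort (fun v => - x v) hij
    simp only [Function.comp] at this
    rw [hσdef]
    linarith
  have hlast : σ ⟨n - 1, by omega⟩ = v0 := by
    by_contra h
    have h1 := hmin _ h
    have h2 := hσ (σ.symm v0) ⟨n - 1, by omega⟩ (by
      rw [Fin.le_def]
      have := (σ.symm v0).2
      simp only
      omega)
    rw [Equiv.apply_symm_apply] at h2
    linarith
  refine ⟨Xs x σ, Ns G σ, ?_⟩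
  have hXn : ∀ v, n ≤ v → Xs x σ v = 0 := fun v hv => dif_neg (by omega)
  have hXpos : ∀ v < n, 0 < Xs x σ v := by
    intro v hv
    rw [Xs_of_lt x σ hv]
    exact hx _
  have hinj : Function.Injective (fun u : Fin n => (σ.symm u : ℕ)) := by
    intro a b hab
    simp only at hab
    exact σ.symm.injective (Fin.ext hab)
  have hdisj : ∀ i (h : i < n), Disjoint
      ((G.neighborFinset (σ ⟨i, h⟩)).image (fun u => (σ.symm u : ℕ)))
      (if i = n - 1 then ({n, n + 1} : Finset ℕ) else ∅) := by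
    intro i h
    rw [disjoint_left]
    intro a ha hb
    rw [mem_image] at ha
    obtain ⟨u, -, rfl⟩ := ha
    have := (σ.symm u).2
    split_ifs at hb with hi
    · simp only [mem_insert, mem_singleton] at hb
      omega
    · simp at hb
  have hdeg' : ∀ i (h : i < n), i ≠ n - 1 → G.degree (σ ⟨i, h⟩) = q + 2 := by
    intro i h hi
    apply hdeg
    rw [← hlast]
    intro heq
    have := σ.injective heq
    rw [Fin.mk.injEq] at this
    exact hi this
  refine
    { npos := by omega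
      anti := ?_
      xpos := hXpos
      xzero := hXn
      symm := ?_
      irr := ?_
      card := ?_
      ground := ?_
      gmem := ?_
      eig := ?_ }
  · intro i j hij
    by_cases hj : j < n
    · rw [Xs_of_lt x σ hj, Xs_of_lt x σ (show i < n by omega)]
      exact hσ _ _ hij
    · rw [hXn j (by omega)]
      by_cases hi : i < n
      · exact (hXpos i hi).le
      · rw [hXn i (by omega)]
  · intro u v hu hv
    rw [mem_Ns G σ hv, mem_Ns G σ hu]
    constructor
    · rintro (⟨_, h⟩ | ⟨_, h⟩)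
      · exact Or.inl ⟨hv, h.symm⟩
      · omega
    · rintro (⟨_, h⟩ | ⟨_, h⟩)
      · exact Or.inl ⟨hu, h.symm⟩
      · omega
  · intro v hv h
    rw [mem_Ns G σ hv] at h
    rcases h with ⟨_, h⟩ | ⟨_, h⟩
    · exact G.loopless.irrefl _ h
    · omega
  · intro v hv
    have h1 : Ns G σ v = ((G.neighborFinset (σ ⟨v, hv⟩)).image (fun u => (σ.symm u : ℕ))) ∪
      (if v = n - 1 then {n, n + 1} else ∅) := dif_pos hv
    rw [h1, card_union_of_disjoint (hdisj v hv), card_image_of_injective _ hinj,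
      SimpleGraph.card_neighborFinset_eq_degree]
    by_cases hvn : v = n - 1
    · subst hvn
      rw [if_pos rfl, hlast, hv0, card_pair (by omega)]
    · rw [if_neg hvn, hdeg' v hv hvn, card_empty]
  · intro v hv u hu hun
    rw [mem_Ns G σ hv] at hu
    rcases hu with ⟨h, _⟩ | h
    · omega
    · exact h
  · have hn1 : n - 1 < n := by omega
    constructor
    · rw [mem_Ns G σ hn1]; exact Or.inr ⟨rfl, Or.inl rfl⟩
    · rw [mem_Ns G σ hn1]; exact Or.inr ⟨rfl, Or.inr rfl⟩
  · intro v hv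
    have h1 : Ns G σ v = ((G.neighborFinset (σ ⟨v, hv⟩)).image (fun u => (σ.symm u : ℕ))) ∪
      (if v = n - 1 then {n, n + 1} else ∅) := dif_pos hv
    rw [h1, sum_union (hdisj v hv), sum_image (fun a _ b _ h => hinj h)]
    have h2 : ∑ u ∈ G.neighborFinset (σ ⟨v, hv⟩), (Xs x σ v - Xs x σ (σ.symm u : ℕ)) =
        (G.degree (σ ⟨v, hv⟩) : ℝ) * Xs x σ v - lam * Xs x σ v := by
      rw [sum_sub_distrib, sum_const, SimpleGraph.card_neighborFinset_eq_degree, nsmul_eq_mul]
      congr 1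
      rw [Xs_of_lt x σ hv, ← heig]
      exact sum_congr rfl fun u _ => Xs_symm x σ u
    rw [h2]
    by_cases hvn : v = n - 1
    · subst hvn
      rw [if_pos rfl, hlast, hv0, sum_pair (by omega), hXn n le_rfl, hXn (n + 1) (by omega)]
      ring
    · rw [if_neg hvn, hdeg' v hv hvn, sum_empty]
      push_cast
      ring

/-- the main contradiction -/
theorem no_extremal (q k n : ℕ) (hq : 10 ^ 7 ≤ q) (hq6 : 6 ∣ q)
    (hn : n = k * (q + 3) + (q + 3) + q / 2) (hk : q ^ 5 ≤ n) (G : SimpleGraph (Fin n))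
    (hG : G.Connected) {v0 : Fin n} (hv0 : G.degree v0 = q)
    (hdeg : ∀ u, u ≠ v0 → G.degree u = q + 2)
    (HR : ∀ H : SimpleGraph (Fin n), H.Connected → H.maxDegree = q + 2 →
      (∃ u v : Fin n, H.degree u ≠ H.degree v) → lamS H ≤ lamS G) : False := by
  have hq' : (10 ^ 7 : ℝ) ≤ q := by exact_mod_cast hq
  have hq0 : (0 : ℝ) < q := by linarith
  have hn2 : 2 ≤ n := by omega
  obtain ⟨x, hx, heig, hray⟩ := perron hn2 G hG
  obtain ⟨lam, hlam⟩ : ∃ lam, lam = lamS G := ⟨_, rfl⟩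
  have heig' : ∀ v, ∑ u ∈ G.neighborFinset v, x u = lam * x v := by
    intro v; rw [heig v, hlam]; rfl
  have hray' : ∀ f : Fin n → ℝ, f ⬝ᵥ (G.adjMatrix ℝ *ᵥ f) ≤ lam * (f ⬝ᵥ f) := by
    intro f; rw [hlam]; exact hray f
  obtain ⟨μ, hμdef⟩ : ∃ μ, μ = (q : ℝ) + 2 - lam := ⟨_, rfl⟩
  -- μ > 0
  have hdegsum : ∀ u, (G.degree u : ℝ) = (q : ℝ) + 2 - if u = v0 then 2 else 0 := by
    intro u
    by_cases h : u = v0
    · subst h; rw [hv0, if_pos rfl]; ring
    · rw [hdeg u h, if_neg h]; push_cast; ring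
  have hμ : 0 < μ := by
    have h1 : ∑ v, ∑ u ∈ G.neighborFinset v, x u = lam * ∑ v, x v := by
      rw [mul_sum]; exact sum_congr rfl fun v _ => heig' v
    have h2 : ∑ v, ∑ u ∈ G.neighborFinset v, x u = ∑ u, (G.degree u : ℝ) * x u := by
      have e1 : ∀ v, ∑ u ∈ G.neighborFinset v, x u = ∑ u, if G.Adj v u then x u else 0 := by
        intro v
        rw [← sum_filter]
        refine sum_congr ?_ fun _ _ => rfl
        ext u; simp
      rw [sum_congr rfl fun v _ => e1 v, sum_comm]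
      refine sum_congr rfl fun u _ => ?_
      rw [← sum_filter, sum_const, nsmul_eq_mul, ← SimpleGraph.card_neighborFinset_eq_degree]
      congr 3
      ext v
      simp [SimpleGraph.adj_comm]
    have h3 : ∑ u, (G.degree u : ℝ) * x u = ((q : ℝ) + 2) * ∑ u, x u - 2 * x v0 := by
      rw [sum_congr rfl fun u _ => by rw [hdegsum u], mul_sum]
      have : ∀ u, ((q : ℝ) + 2 - if u = v0 then 2 else 0) * x u =
          ((q : ℝ) + 2) * x u - if u = v0 then 2 * x u else 0 := by
        intro u; split_ifs <;> ring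
      rw [sum_congr rfl fun u _ => this u, sum_sub_distrib, sum_ite_eq' univ v0]
      simp
    have hS : 0 < ∑ u, x u := sum_pos (fun u _ => hx u) ⟨v0, mem_univ _⟩
    have h4 : μ * ∑ u, x u = 2 * x v0 := by
      rw [hμdef]; linarith
    have h5 := hx v0
    by_contra hneg
    push Not at hneg
    nlinarith
  -- μ ≤ 2 / n
  have hμ2 : μ * n ≤ 2 := by
    have h1 := hray' (fun _ => 1)
    have h2 : (fun _ => (1 : ℝ)) ⬝ᵥ (fun _ : Fin n => (1 : ℝ)) = n := by
      simp [dotProduct]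
    have h3 : (fun _ => (1 : ℝ)) ⬝ᵥ (G.adjMatrix ℝ *ᵥ (fun _ : Fin n => (1 : ℝ))) =
        ∑ u, (G.degree u : ℝ) := by
      simp only [dotProduct, one_mul]
      refine sum_congr rfl fun u _ => ?_
      rw [SimpleGraph.adjMatrix_mulVec_apply, sum_const,
        SimpleGraph.card_neighborFinset_eq_degree, nsmul_eq_mul, mul_one]
    have h4 : ∑ u, (G.degree u : ℝ) = ((q : ℝ) + 2) * n - 2 := by
      rw [sum_congr rfl fun u _ => hdegsum u, sum_sub_distrib, sum_const, card_univ,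
        Fintype.card_fin, nsmul_eq_mul, sum_ite_eq' univ v0]
      simp
      ring
    rw [h2, h3, h4] at h1
    rw [hμdef]
    linarith
  have hε6 : μ / (2 * q) * (q : ℝ) ^ 6 ≤ 1 := by
    have h1 : ((q : ℝ)) ^ 5 ≤ n := by exact_mod_cast hk
    have h2 : μ * (q : ℝ) ^ 5 ≤ 2 := (mul_le_mul_of_nonneg_left h1 hμ.le).trans hμ2
    have h3 : μ / (2 * q) * (q : ℝ) ^ 6 = μ * (q : ℝ) ^ 5 / 2 := by field_simp
    rw [h3]; linarith
  have hε0 : 0 < μ / (2 * q) := by positivity
  obtain ⟨X, N, hd⟩ := pdata_of_graph hn2 G hx heig' hv0 hdeg (by rw [← hμdef]; exact hμ)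
  rw [← hμdef] at hd
  subst hn
  obtain ⟨H, hdec, hHc, hHle, ⟨u1, hu1⟩, ⟨u2, hu2⟩, hHR⟩ := exists_RGraph q k (by omega) hq6
  have hdec' : hdec = fun a b => propDecidable (H.Adj a b) := Subsingleton.elim _ _
  subst hdec'
  have hHdeg : ∀ v, H.degree v ≤ q + 2 := fun v => by convert hHle v
  have hHmax : H.maxDegree = q + 2 := by
    apply le_antisymm
    · exact SimpleGraph.maxDegree_le_of_forall_degree_le _ _ hHdeg
    · have := H.degree_le_maxDegree u1
      have h1 : H.degree u1 = q + 2 := by convert hu1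
      omega
  have hle := HR H hHc hHmax ⟨u1, u2, by
    have h1 : H.degree u1 = q + 2 := by convert hu1
    have h2 : H.degree u2 ≠ q + 2 := by convert hu2
    rw [h1]; exact fun h => h2 h.symm⟩
  obtain ⟨-, -, -, hrayH⟩ := perron hn2 H hHc
  have hR := hHR lam (μ / (2 * q)) hε0 hε6 (by
    have : 2 * (q : ℝ) * (μ / (2 * q)) = μ := by field_simp
    rw [this, hμdef]; ring) (by
    intro f
    have h1 : f ⬝ᵥ (H.adjMatrix ℝ *ᵥ f) ≤ lamS H * (f ⬝ᵥ f) := hrayH f
    have h2 : 0 ≤ f ⬝ᵥ f := by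
      simp only [dotProduct]
      exact sum_nonneg fun i _ => mul_self_nonneg _
    rw [hlam]
    exact h1.trans (mul_le_mul_of_nonneg_right hle h2))
  obtain ⟨yB, hyB⟩ := exists_barrier q k _ hq hq6 (μ / (2 * q)) hε0 hε6 rfl hR
  have hq2 : Even q := by
    obtain ⟨r, hr⟩ := hq6
    exact ⟨3 * r, by omega⟩
  exact no_PData q _ hq hq2 μ hμ X N hd yB hyB hε6

end

end Pool.MP_048773_co
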