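import Mathlib

/-!
# MP_048773_co : common definitions

`q = Δ - 2` (large, divisible by 6), `D = Δ + 1 = q + 3`, `μ = Δ - λ`, `ε = μ / (2q)`.
A state is a pair `(V, I)`: `V` = value of the eigenvector, `I` = (flux)/(2q).
-/

namespace Pool.MP_048773_co

open Finset

noncomputable section

/-- add mass `p` : `(V, I) ↦ (V, I + ε p V)` -/
def addMass (ε p : ℝ) (s : ℝ × ℝ) : ℝ × ℝ := (s.1, s.2 + ε * p * s.1)

/-- add resistance `r` : `(V, I) ↦ (V - r I, I)` -/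
def addRes (r : ℝ) (s : ℝ × ℝ) : ℝ × ℝ := (s.1 - r * s.2, s.2)

/-- an `F`-block, top-down: masses 2, q, 1, resistances 1, 2, q. -/
def stepF (q ε : ℝ) (s : ℝ × ℝ) : ℝ × ℝ :=
  addRes q (addMass ε 1 (addRes 2 (addMass ε q (addRes 1 (addMass ε 2 s)))))

/-- an `R`-block, top-down: masses 1, q, 2, resistances 2, 1, q. -/
def stepR (q ε : ℝ) (s : ℝ × ℝ) : ℝ × ℝ :=
  addRes q (addMass ε 2 (addRes 1 (addMass ε q (addRes 2 (addMass ε 1 s)))))

/-- state below the top block of the graph `RGraph` (layers 2, q, q/2) and its 2-edge gap. -/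
def topR (q ε : ℝ) : ℝ × ℝ :=
  addRes q (addMass ε 2 (addRes 1 (addMass ε q (addRes (2 / (q / 2)) (addMass ε (q / 2) (1, 0))))))

/-- states of the `R`-chain -/
def stR (q ε : ℝ) : ℕ → ℝ × ℝ
  | 0 => topR q ε
  | (j + 1) => stepR q ε (stR q ε j)

/-- `u(t)`; for a state with `I/V = t`, the `F`-block without its last resistance has `I/V = uu t`. -/
def uu (q ε t : ℝ) : ℝ :=
  ((t + 2 * ε) / (1 - (t + 2 * ε)) + q * ε) / (1 - 2 * ((t + 2 * ε) / (1 - (t + 2 * ε)) + q * ε)) + ε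

/-- lower bound for the effect of `s` extra vertices at the top -/
def gs (q ε s t : ℝ) : ℝ := t + s * (ε + 9 / 10 * t ^ 2 + 1 / 5 * ε ^ 2 * q ^ 2)

/-- one step of the barrier function (`s` extra vertices) -/
structure Step (q ε s t t' : ℝ) : Prop where
  pos : 0 < t'
  gle : gs q ε s t ≤ 1 / q
  main : 1 / t' ≤ 1 / uu q ε (gs q ε s t) - q

/-- the barrier function -/
structure Barrier (q n : ℕ) (ε : ℝ) (yB : ℕ → ℝ) : Prop where
  pos : ∀ M, q + 3 ≤ M → M ≤ n → 0 < yB M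
  le_inv : ∀ M, q + 3 ≤ M → M + (q + 3) ≤ n → yB M ≤ 1 / (q : ℝ)
  ge_mul : ∀ M, q + 3 ≤ M → M ≤ n → ε * M ≤ yB M
  base1 : ∀ M, q + 3 ≤ M → M ≤ n → 5 * M ≤ 8 * (q + 3) →
    1 / yB M ≤ 1 / (ε * M) - ((q : ℝ) + 2 + 1 / 10)
  base2 : ∀ M, 8 * (q + 3) < 5 * M → M < 4 * (q + 3) → M ≤ n →
    1 / yB M ≤ 1 / (ε * M) - ((q : ℝ) + (q : ℝ) / 1000 + 1)
  step : ∀ M s : ℕ, q + 3 ≤ M → s ≤ 3 * (q + 3) → M + (q + 3) + s ≤ n →
    Step q ε s (yB M) (yB (M + (q + 3) + s))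

/-- sorted Perron data of a graph on `n` vertices `0, …, n-1` with degrees `q+2` except the last one
(degree `q`), which gets two extra ground neighbours `n`, `n+1` of value `0`. -/
structure PData (q n : ℕ) (μ : ℝ) (x : ℕ → ℝ) (N : ℕ → Finset ℕ) : Prop where
  npos : 0 < n
  anti : Antitone x
  xpos : ∀ v < n, 0 < x v
  xzero : ∀ v, n ≤ v → x v = 0
  symm : ∀ u v, u < n → v < n → (u ∈ N v ↔ v ∈ N u)
  irr : ∀ v < n, v ∉ N v
  card : ∀ v < n, (N v).card = q + 2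
  ground : ∀ v < n, ∀ u ∈ N v, n ≤ u → v = n - 1 ∧ (u = n ∨ u = n + 1)
  gmem : n ∈ N (n - 1) ∧ n + 1 ∈ N (n - 1)
  eig : ∀ v < n, ∑ u ∈ N v, (x v - x u) = μ * x v

end

end Pool.MP_048773_co
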