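import Pool.Agent.MP_048773_co.StepsBase

/-!
# Dense step without extra vertices
-/

namespace Pool.MP_048773_co

noncomputable section

variable {q ε t t' s : ℝ}

/-- dense cluster, no extra vertex, both double -/
theorem K2 (h : Par q ε) (ht : 0 < t) (htq : t ≤ 1 / q)
    (hg : gs q ε 0 t ≤ 1 / q) :
    1 / uu q ε (gs q ε 0 t) + 191 / 100 ≤ 1 / (1 / (1 / t - 101 / 100) + (q + 3 + 0) * ε) := by
  have hL := LL_le h le_rfl ht hg
  have hq := h.hq
  have hε := h.hε
  have h1 := h.eqs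
  have h2 := h.invq
  have h3 := h.es
  have hq0 := h.q0
  have ht7 : t ≤ 1 / 10 ^ 7 := htq.trans h2
  have hb : 1 / (1 / t - 101 / 100) ≤ t + 102 / 100 * t ^ 2 := by
    have e1 : 1 / t - 101 / 100 = (1 - 101 / 100 * t) / t := by field_simp
    rw [e1, one_div_div, div_le_iff₀ (by linarith)]
    nlinarith [pow_pos ht 2, pow_pos ht 3]
  have hb0 : 0 < 1 / (1 / t - 101 / 100) := by
    have : 10 ^ 7 ≤ 1 / t := by
      rw [le_div_iff₀ ht]; linarith
    have : 0 < 1 / t - 101 / 100 := by linarith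
    positivity
  set z := ε * q with hz
  have hz0 : 0 < z := by positivity
  set R := 1 / (1 / t - 101 / 100) + (q + 3 + 0) * ε with hR
  set M := t + (q + 3 + 0) * ε with hM
  have hR0 : 0 < R := by positivity
  have hM0 : 0 < M := by positivity
  have hRM : R ≤ M + 102 / 100 * t ^ 2 := by rw [hR, hM]; linarith
  have hMs : M ≤ 1 / 10 ^ 6 := by
    have e : M = t + z + 3 * ε := by rw [hM, hz]; ring
    rw [e]; linarith
  have hRM2 : R ≤ 10001 / 10000 * M := by
    have : t ^ 2 ≤ 1 / 10 ^ 7 * t := by nlinarith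
    have : t ≤ M := by rw [hM]; nlinarith
    linarith
  have hκR : 191 / 100 * R ≤ 1 / 10 ^ 5 := by linarith
  refine fin_step hR0 (by linarith) ?_ hL
  set u := t + (q + 2) * ε with hu
  set E := 0 * (9 / 10 * t ^ 2 + 1 / 5 * z ^ 2) + t ^ 2 + 2 * u ^ 2 with hE
  have hLL : LL q ε 0 t = M + E := by unfold LL; rw [hM, hE]
  rw [hLL]
  have hE0 : 0 < E := by positivity
  have hE1 : E = t ^ 2 + 2 * u ^ 2 := by rw [hE]; ring
  have hu0 : 0 < u := by positivity
  have htu : t ≤ u := by rw [hu]; nlinarith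
  have hMu : M ≤ 10001 / 10000 * u := by
    have e : M = u + ε := by rw [hM, hu]; ring
    have : 10 ^ 7 * ε ≤ u := by rw [hu]; nlinarith
    rw [e]; linarith
  have hM2 : M ^ 2 ≤ 1001 / 1000 * u ^ 2 := by
    have := pow_le_pow_left₀ hM0.le hMu 2
    nlinarith
  have htu2 : t ^ 2 ≤ u ^ 2 := pow_le_pow_left₀ ht.le htu 2
  have hRMM : R * M ≤ 10001 / 10000 * M ^ 2 := by
    rw [sq, ← mul_assoc]; exact mul_le_mul_of_nonneg_right hRM2 hM0.le
  have key : 102 / 100 * t ^ 2 + 191 / 100 * (R * M) ≤ E * (1 - 1 / 10 ^ 5) := by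
    rw [hE1]
    nlinarith [pow_pos hu0 2]
  have hER : E * (1 - 1 / 10 ^ 5) ≤ E * (1 - 191 / 100 * R) :=
    mul_le_mul_of_nonneg_left (by linarith) hE0.le
  linarith

end

end Pool.MP_048773_co
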