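import Pool.Agent.MP_048773_co.StepsBase

/-!
# Loose step
-/

namespace Pool.MP_048773_co

noncomputable section

variable {q ε t t' s : ℝ}

/-- loose cluster -/
theorem K3 (h : Par q ε) (ht : 0 < t) (htq : t ≤ 1 / q) (hs1 : 3 * (q + 3) ≤ 5 * s)
    (hs2 : s ≤ 3 * (q + 3)) (hg : gs q ε s t ≤ 1 / q) :
    1 / uu q ε (gs q ε s t) + (q / 1000 + 1) ≤ 1 / (1 / (1 / t - 0) + (q + 3 + s) * ε) := by
  have hq := h.hq
  have hs0 : 0 ≤ s := by linarith
  have hL := LL_le h hs0 ht hg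
  have hε := h.hε
  have h1 := h.eqs
  have h2 := h.invq
  have h3 := h.es
  have h4 := h.eq2
  have hq0 := h.q0
  have hb : 1 / (1 / t - 0) = t := by simp
  rw [hb]
  set z := ε * q with hz
  have hz0 : 0 < z := by positivity
  set M := t + (q + 3 + s) * ε with hM
  have hM0 : 0 < M := by positivity
  have hMt : M ≤ t + 401 / 100 * z := by
    have : s * ε ≤ 3 * (q + 3) * ε := mul_le_mul_of_nonneg_right hs2 hε.le
    have e : 3 * (q + 3) * ε = 3 * z + 9 * ε := by rw [hz]; ring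
    have e' : M = t + z + 3 * ε + s * ε := by rw [hM, hz]; ring
    rw [e']; linarith
  have hκ : q / 1000 + 1 ≤ 1001 / 1000000 * q := by linarith
  have hκM : (q / 1000 + 1) * M ≤ 11 / 10000 := by
    have f1 : (q / 1000 + 1) * M ≤ (1001 / 1000000 * q) * (t + 401 / 100 * z) :=
      mul_le_mul hκ hMt hM0.le (by positivity)
    have f2 : q * t ≤ 1 := by
      have := (le_div_iff₀ hq0).mp htq
      linarith
    have f3 : q * z ≤ 1 / 10 ^ 7 := by rw [hz]; linarith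
    nlinarith
  refine fin_step hM0 (by linarith) ?_ hL
  set E := s * (9 / 10 * t ^ 2 + 1 / 5 * z ^ 2) + t ^ 2 + 2 * (t + (q + 2) * ε) ^ 2 with hE
  have hLL : LL q ε s t = M + E := by unfold LL; rw [hM, hE]
  rw [hLL]
  have hE0 : 0 < E := by positivity
  have hE1 : 3 / 5 * q * (9 / 10 * t ^ 2 + 1 / 5 * z ^ 2) ≤ E := by
    have : 3 / 5 * q * (9 / 10 * t ^ 2 + 1 / 5 * z ^ 2) ≤ s * (9 / 10 * t ^ 2 + 1 / 5 * z ^ 2) :=
      mul_le_mul_of_nonneg_right (by linarith) (by positivity)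
    have : 0 ≤ t ^ 2 + 2 * (t + (q + 2) * ε) ^ 2 := by positivity
    rw [hE]; linarith
  have hM2 : M ^ 2 ≤ 2 * t ^ 2 + 33 * z ^ 2 := by
    have := pow_le_pow_left₀ hM0.le hMt 2
    nlinarith [sq_nonneg (t - 401 / 100 * z)]
  have hκM2 : (q / 1000 + 1) * M ^ 2 ≤ 1001 / 1000000 * q * (2 * t ^ 2 + 33 * z ^ 2) :=
    mul_le_mul hκ hM2 (by positivity) (by positivity)
  have hER : E * (1 - 11 / 10000) ≤ E * (1 - (q / 1000 + 1) * M) :=
    mul_le_mul_of_nonneg_left (by linarith) hE0.le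
  have hqt : 0 < q * t ^ 2 := by positivity
  have hqz : 0 < q * z ^ 2 := by positivity
  linarith

end

end Pool.MP_048773_co
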