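import Pool.Agent.MP_048773_co.StepsBase

/-!
# Step from a `q/3` claim
-/

namespace Pool.MP_048773_co

noncomputable section

variable {q ε t t' s : ℝ}

/-- from a cut with claim `q/3` to a 2-edge cut -/
theorem K4 (h : Par q ε) (ht : 0 < t) (htq : t ≤ 1 / q) (hs0 : 0 ≤ s)
    (hs2 : s ≤ 3 * (q + 3)) (hte : ε * (q + 3) ≤ t) (hg : gs q ε s t ≤ 1 / q) :
    1 / uu q ε (gs q ε s t) + (q / 1000 + 1) ≤
      1 / (1 / (1 / t - (-(q / 3))) + (q + 3 + s) * ε) := by
  have hq := h.hq
  have hL := LL_le h hs0 ht hg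
  have hε := h.hε
  have h1 := h.eqs
  have h2 := h.invq
  have hq0 := h.q0
  have hqt : t * q ≤ 1 := (le_div_iff₀ hq0).mp htq
  have hb : 1 / (1 / t - (-(q / 3))) ≤ t - q / 4 * t ^ 2 := by
    have e1 : 1 / t - (-(q / 3)) = (1 + q / 3 * t) / t := by field_simp; ring
    rw [e1, one_div_div, div_le_iff₀ (by positivity)]
    have : 0 ≤ q * t ^ 2 * (1 - q * t) := mul_nonneg (by positivity) (by linarith)
    nlinarith
  have hb0 : 0 < 1 / (1 / t - (-(q / 3))) := by
    have : 0 < 1 / t - (-(q / 3)) := by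
      have : 0 < 1 / t := by positivity
      linarith
    positivity
  set R := 1 / (1 / t - (-(q / 3))) + (q + 3 + s) * ε with hR
  set M := t + (q + 3 + s) * ε with hM
  have hR0 : 0 < R := by positivity
  have hM0 : 0 < M := by positivity
  have hM5 : M ≤ 5 * t := by
    have : s * ε ≤ 3 * (q + 3) * ε := mul_le_mul_of_nonneg_right hs2 hε.le
    have e : M = t + ε * (q + 3) + s * ε := by rw [hM]; ring
    rw [e]; linarith
  have hRM : R ≤ M - q / 4 * t ^ 2 := by rw [hR, hM]; linarith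
  have hRM' : R ≤ M := by
    have : 0 ≤ q / 4 * t ^ 2 := by positivity
    linarith
  have hκ : q / 1000 + 1 ≤ 1001 / 1000000 * q := by linarith
  have hκR : (q / 1000 + 1) * R ≤ 1 / 100 := by
    have f1 : (q / 1000 + 1) * R ≤ (1001 / 1000000 * q) * (5 * t) :=
      mul_le_mul hκ (hRM'.trans hM5) hR0.le (by positivity)
    nlinarith
  have hLM : M ≤ LL q ε s t := by
    unfold LL; rw [hM]
    have : 0 ≤ s * (9 / 10 * t ^ 2 + 1 / 5 * (ε * q) ^ 2) + t ^ 2 +
      2 * (t + (q + 2) * ε) ^ 2 := by positivity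
    linarith
  refine fin_step hR0 (by linarith) ?_ (hLM.trans hL)
  have f2 : (q / 1000 + 1) * R * M ≤ (1001 / 1000000 * q) * (5 * t) * (5 * t) := by
    refine mul_le_mul ?_ hM5 hM0.le (by positivity)
    exact mul_le_mul hκ (hRM'.trans hM5) hR0.le (by positivity)
  have : 0 < q * t ^ 2 := by positivity
  nlinarith

end

end Pool.MP_048773_co
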