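import Pool.Agent.MP_048773_co.StepsK1
import Pool.Agent.MP_048773_co.StepsK2
import Pool.Agent.MP_048773_co.StepsK3
import Pool.Agent.MP_048773_co.StepsK4

/-!
# Trivial step and the chain lemma
-/

namespace Pool.MP_048773_co

noncomputable section

variable {q ε t t' s : ℝ}

/-- trivial case -/
theorem K5 (h : Par q ε) (ht : 0 < t) (hs0 : 0 ≤ s)
    (hg : gs q ε s t ≤ 1 / q) :
    1 / uu q ε (gs q ε s t) + 0 ≤ 1 / (1 / (1 / t - 0) + (q + 3 + s) * ε) := by
  have hL := LL_le h hs0 ht hg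
  have hε := h.hε
  have hq0 := h.q0
  have hb : 1 / (1 / t - 0) = t := by simp
  rw [hb]
  refine fin_step (by positivity) (by linarith) ?_ hL
  unfold LL
  have : 0 ≤ s * (9 / 10 * t ^ 2 + 1 / 5 * (ε * q) ^ 2) + t ^ 2 +
      2 * (t + (q + 2) * ε) ^ 2 := by positivity
  linarith

/-- the chain lemma -/
theorem chain {b κ V0 I0 V1 I1 c a b0 l l' p : ℝ} (h : Par q ε) (ht : 0 < t) (htq : t ≤ 1 / q)
    (hb : b ≤ 2)
    (hst : Step q ε s t t')
    (hK : 1 / uu q ε (gs q ε s t) + κ ≤ 1 / (1 / (1 / t - b) + p * ε))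
    (hp : 0 ≤ p)
    (hI0 : 0 < I0) (h0 : I0 ≤ t * (V0 - l * I0)) (hc : V0 - b0 * I0 ≤ c)
    (hI1 : I1 ≤ I0 + ε * p * c) (hI1' : 0 < I1) (hV1 : c - a * I1 ≤ V1)
    (hbl : b0 - l ≤ b) (hal : a + l' ≤ q + κ) :
    I1 ≤ t' * (V1 - l' * I1) := by
  have hq0 := h.q0
  have hε := h.hε
  have ht' := hst.pos
  have hm := hst.main
  have hq := h.hq
  have hit : q ≤ 1 / t := by
    rw [le_div_iff₀ ht]
    have := (le_div_iff₀ hq0).mp htq
    linarith
  have hB0 : 0 < 1 / t - b := by linarith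
  set B := 1 / t - b with hB
  have e0 : 1 / t * I0 ≤ V0 - l * I0 := by
    rw [div_mul_eq_mul_div, one_mul, div_le_iff₀ ht]; linarith
  have e1 : B * I0 ≤ c := by
    have : (b0 - l) * I0 ≤ b * I0 := mul_le_mul_of_nonneg_right hbl hI0.le
    rw [hB]; nlinarith
  have e2 : I0 ≤ 1 / B * c := by
    rw [div_mul_eq_mul_div, one_mul, le_div_iff₀ hB0]; linarith
  have e3 : I1 ≤ (1 / B + p * ε) * c := by
    have : (1 / B + p * ε) * c = 1 / B * c + ε * p * c := by ring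
    rw [this]; linarith
  have hR0 : 0 < 1 / B + p * ε := by positivity
  have e4 : 1 / (1 / B + p * ε) * I1 ≤ c := by
    rw [div_mul_eq_mul_div, one_mul, div_le_iff₀ hR0]; linarith
  have e5 : (1 / uu q ε (gs q ε s t) + κ) * I1 ≤ c :=
    (mul_le_mul_of_nonneg_right hK hI1'.le).trans e4
  have e6 : (1 / t' + q + κ) * I1 ≤ c := by
    refine (mul_le_mul_of_nonneg_right ?_ hI1'.le).trans e5
    linarith
  have e7 : (a + l') * I1 ≤ (q + κ) * I1 := mul_le_mul_of_nonneg_right hal hI1'.le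
  have e8 : 1 / t' * I1 ≤ V1 - l' * I1 := by nlinarith
  rw [div_mul_eq_mul_div, one_mul, div_le_iff₀ ht'] at e8
  linarith

end

end Pool.MP_048773_co
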