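import Pool.Agent.MP_048773_co.Defs

/-!
# Real algebra: parameters and the lower bound for `uu`
-/

namespace Pool.MP_048773_co

noncomputable section

/-- standing assumptions for the real parameters -/
structure Par (q ε : ℝ) : Prop where
  hq : 10 ^ 7 ≤ q
  hε : 0 < ε
  hεq : ε * q ^ 6 ≤ 1

variable {q ε t t' s : ℝ}

theorem Par.q0 (h : Par q ε) : 0 < q := by have := h.hq; linarith

/-- `ε q ≤ 1/(10^7 q)` (very weak) -/
theorem Par.eq2 (h : Par q ε) : ε * q * q ≤ 1 / 10 ^ 7 := by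
  have hq := h.hq
  have hε := h.hε
  have h1 : (10 : ℝ) ^ 7 ≤ q ^ 4 := by
    have : (1 : ℝ) ≤ q := by linarith
    have h2 : q ^ 1 ≤ q ^ 4 := pow_le_pow_right₀ this (by norm_num)
    simp at h2; linarith
  have h3 : ε * q * q * q ^ 4 ≤ 1 := by
    have : ε * q * q * q ^ 4 = ε * q ^ 6 := by ring
    rw [this]; exact h.hεq
  have h4 : 0 < ε * q * q := by have := h.q0; positivity
  rw [le_div_iff₀ (by norm_num)]
  nlinarith

theorem Par.eq1 (h : Par q ε) : ε * q ≤ 1 / 10 ^ 7 / q := by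
  rw [le_div_iff₀ h.q0]; exact h.eq2

theorem Par.invq (h : Par q ε) : 1 / q ≤ 1 / 10 ^ 7 :=
  one_div_le_one_div_of_le (by norm_num) h.hq

theorem Par.eqs (h : Par q ε) : ε * q ≤ 1 / 10 ^ 14 := by
  have h1 := h.eq2
  have hq := h.hq
  have : 0 < ε * q := by have := h.q0; have := h.hε; positivity
  rw [le_div_iff₀ (by norm_num)]
  nlinarith

theorem Par.es (h : Par q ε) : 10 ^ 7 * ε ≤ ε * q := by
  have := h.hq
  have := h.hε
  nlinarith

/-- lower bound for `uu` -/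
theorem uu_lower (h : Par q ε) {g : ℝ} (hg0 : 0 < g) (hg : g ≤ 1 / q) :
    g + (q + 3) * ε + (g + 2 * ε) ^ 2 + 2 * (g + (q + 2) * ε) ^ 2 ≤ uu q ε g := by
  have hq := h.hq
  have hε := h.hε
  have h1 := h.eqs
  have h2 := h.invq
  have h3 := h.es
  set z := ε * q with hz
  have hz0 : 0 < z := by have := h.q0; positivity
  unfold uu
  set y := g + 2 * ε with hy
  have hy0 : 0 < y := by positivity
  have hy1 : y ≤ 1 / 10 ^ 6 := by
    have : ε ≤ 1 / 10 ^ 14 := by linarith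
    linarith
  have e1 : y + y ^ 2 ≤ y / (1 - y) := by
    rw [le_div_iff₀ (by linarith)]
    nlinarith [pow_pos hy0 3]
  have e1' : y / (1 - y) ≤ 2 * y := by
    rw [div_le_iff₀ (by linarith)]
    nlinarith
  set w := y / (1 - y) + q * ε with hw
  have hqe : q * ε = z := by rw [hz]; ring
  have hw0 : 0 < w := by
    rw [hw, hqe]
    have : 0 < y / (1 - y) := div_pos hy0 (by linarith)
    linarith
  have hw1 : w ≤ 1 / 10 ^ 5 := by
    rw [hw, hqe]; linarith
  have e2 : w + 2 * w ^ 2 ≤ w / (1 - 2 * w) := by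
    rw [le_div_iff₀ (by linarith)]
    nlinarith [pow_pos hw0 3]
  have e3 : y + y ^ 2 + z ≤ w := by rw [hw, hqe]; linarith
  have e4 : (y + z) ^ 2 ≤ w ^ 2 := by
    have : y + z ≤ w := by nlinarith
    exact pow_le_pow_left₀ (by positivity) this 2
  have e5 : g + (q + 2) * ε = y + z := by rw [hy, hz]; ring
  rw [e5]
  have e6 : g + (q + 3) * ε = y + z + ε := by rw [hy, hz]; ring
  rw [e6]
  linarith

theorem uu_pos (h : Par q ε) {g : ℝ} (hg0 : 0 < g) (hg : g ≤ 1 / q) : 0 < uu q ε g := by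
  have h1 := uu_lower h hg0 hg
  have := h.q0
  have := h.hε
  have : 0 < g + (q + 3) * ε + (g + 2 * ε) ^ 2 + 2 * (g + (q + 2) * ε) ^ 2 := by positivity
  linarith

theorem le_gs (h : Par q ε) (hs : 0 ≤ s) (_ht : 0 < t) : t ≤ gs q ε s t := by
  unfold gs
  have := h.q0
  have := h.hε
  have : 0 ≤ s * (ε + 9 / 10 * t ^ 2 + 1 / 5 * ε ^ 2 * q ^ 2) := by positivity
  linarith

/-- simplified lower bound for `uu (gs s t)` -/
def LL (q ε s t : ℝ) : ℝ :=
  t + (q + 3 + s) * ε + (s * (9 / 10 * t ^ 2 + 1 / 5 * (ε * q) ^ 2) + t ^ 2 +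
    2 * (t + (q + 2) * ε) ^ 2)

theorem LL_le (h : Par q ε) (hs : 0 ≤ s) (ht : 0 < t) (hg : gs q ε s t ≤ 1 / q) :
    LL q ε s t ≤ uu q ε (gs q ε s t) := by
  have h1 := le_gs h hs ht
  have h2 := uu_lower h (lt_of_lt_of_le ht h1) hg
  have hq0 := h.q0
  have hε := h.hε
  have h3 : gs q ε s t = t + s * ε + s * (9 / 10 * t ^ 2 + 1 / 5 * (ε * q) ^ 2) := by
    unfold gs; ring
  have h4 : t ^ 2 ≤ (gs q ε s t + 2 * ε) ^ 2 := pow_le_pow_left₀ ht.le (by linarith) 2
  have h5 : (t + (q + 2) * ε) ^ 2 ≤ (gs q ε s t + (q + 2) * ε) ^ 2 :=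
    pow_le_pow_left₀ (by positivity) (by linarith) 2
  unfold LL
  linarith

theorem fin_step {U L R κ : ℝ} (hR : 0 < R) (hκ : κ * R < 1) (hL : R ≤ L * (1 - κ * R))
    (hU : L ≤ U) : 1 / U + κ ≤ 1 / R := by
  have h0 : 0 < 1 - κ * R := by linarith
  have h1 : R ≤ U * (1 - κ * R) := hL.trans (mul_le_mul_of_nonneg_right hU h0.le)
  have hU0 : 0 < U := by
    by_contra h
    push Not at h
    nlinarith
  rw [div_add' _ _ _ hU0.ne', div_le_div_iff₀ hU0 hR]
  linarith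

end

end Pool.MP_048773_co
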