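import Pool.Agent.MP_048773_co.StepsBase

/-!
# Dense step with extra vertices
-/

namespace Pool.MP_048773_co

noncomputable section

variable {q ε t t' s : ℝ}

/-- dense cluster, at least one extra vertex -/
theorem K1 (h : Par q ε) (ht : 0 < t) (htq : t ≤ 1 / q) (hs1 : 1 ≤ s) (hs2 : 5 * s ≤ 3 * (q + 3))
    (hg : gs q ε s t ≤ 1 / q) :
    1 / uu q ε (gs q ε s t) + 201 / 100 ≤ 1 / (1 / (1 / t - 111 / 100) + (q + 3 + s) * ε) := by
  have hL := LL_le h (by linarith) ht hg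
  have hq := h.hq
  have hε := h.hε
  have h1 := h.eqs
  have h2 := h.invq
  have h3 := h.es
  have hq0 := h.q0
  have ht7 : t ≤ 1 / 10 ^ 7 := htq.trans h2
  have hb : 1 / (1 / t - 111 / 100) ≤ t + 112 / 100 * t ^ 2 := by
    have e1 : 1 / t - 111 / 100 = (1 - 111 / 100 * t) / t := by field_simp
    rw [e1, one_div_div, div_le_iff₀ (by linarith)]
    nlinarith [pow_pos ht 2, pow_pos ht 3]
  have hb0 : 0 < 1 / (1 / t - 111 / 100) := by
    have : 10 ^ 7 ≤ 1 / t := by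
      rw [le_div_iff₀ ht]; linarith
    have : 0 < 1 / t - 111 / 100 := by linarith
    positivity
  set z := ε * q with hz
  have hz0 : 0 < z := by positivity
  set R := 1 / (1 / t - 111 / 100) + (q + 3 + s) * ε with hR
  set M := t + (q + 3 + s) * ε with hM
  have hR0 : 0 < R := by positivity
  have hM0 : 0 < M := by positivity
  have hRM : R ≤ M + 112 / 100 * t ^ 2 := by rw [hR, hM]; linarith
  have hsε : s * ε ≤ 61 / 100 * z := by
    have : 5 * s * ε ≤ 3 * (q + 3) * ε := mul_le_mul_of_nonneg_right hs2 hε.le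
    have e : 3 * (q + 3) * ε = 3 * z + 9 * ε := by rw [hz]; ring
    linarith
  have hMs : M ≤ 1 / 10 ^ 6 := by
    have e : M = t + z + 3 * ε + s * ε := by rw [hM, hz]; ring
    rw [e]; linarith
  have hRM2 : R ≤ 10001 / 10000 * M := by
    have : t ^ 2 ≤ 1 / 10 ^ 7 * t := by nlinarith
    have : t ≤ M := by rw [hM]; nlinarith
    linarith
  have hκR : 201 / 100 * R ≤ 1 / 10 ^ 5 := by linarith
  refine fin_step hR0 (by linarith) ?_ hL
  -- the extra part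
  set E := s * (9 / 10 * t ^ 2 + 1 / 5 * z ^ 2) + t ^ 2 + 2 * (t + (q + 2) * ε) ^ 2 with hE
  have hLL : LL q ε s t = M + E := by unfold LL; rw [hM, hE]
  rw [hLL]
  have hE0 : 0 < E := by positivity
  -- M^2 bound
  have hM2 : M ^ 2 ≤ (t + z) ^ 2 + 1 / 10 ^ 5 * (s * t ^ 2 + s * z ^ 2) := by
    obtain ⟨δ, hδ⟩ : ∃ δ, δ = (3 + s) * ε := ⟨_, rfl⟩
    have e : M = (t + z) + δ := by rw [hM, hz, hδ]; ring
    have f1 : δ ≤ 4 * (s * ε) := by
      rw [hδ]
      have : 1 * ε ≤ s * ε := mul_le_mul_of_nonneg_right hs1 hε.le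
      linarith
    have f2 : s * (10 ^ 7 * ε) ≤ s * z := mul_le_mul_of_nonneg_left h3 (by linarith)
    have f2' : δ ≤ 4 / 10 ^ 7 * (s * z) := by linarith
    have f3 : δ ≤ z := by linarith
    have f4 : 0 < δ := by rw [hδ]; positivity
    have f5 : δ * δ ≤ z * (4 / 10 ^ 7 * (s * z)) := mul_le_mul f3 f2' f4.le hz0.le
    have f6 : (t + z) * δ ≤ (t + z) * (4 / 10 ^ 7 * (s * z)) :=
      mul_le_mul_of_nonneg_left f2' (by positivity)
    have f7 : t * z ≤ (t ^ 2 + z ^ 2) / 2 := by linarith [sq_nonneg (t - z)]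
    have f8 : s * (t * z) ≤ s * ((t ^ 2 + z ^ 2) / 2) :=
      mul_le_mul_of_nonneg_left f7 (by linarith)
    have f9 : 0 ≤ s * t ^ 2 := by positivity
    have f10 : 0 ≤ s * z ^ 2 := by positivity
    have e2 : M ^ 2 = (t + z) ^ 2 + 2 * ((t + z) * δ) + δ * δ := by rw [e]; ring
    rw [e2]
    have e3 : (t + z) * (4 / 10 ^ 7 * (s * z)) = 4 / 10 ^ 7 * (s * (t * z) + s * z ^ 2) := by ring
    have e4 : z * (4 / 10 ^ 7 * (s * z)) = 4 / 10 ^ 7 * (s * z ^ 2) := by ring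
    have e5 : s * ((t ^ 2 + z ^ 2) / 2) = (s * t ^ 2 + s * z ^ 2) / 2 := by ring
    rw [e3] at f6
    rw [e4] at f5
    rw [e5] at f8
    linarith
  have hE2 : s * (9 / 10 * t ^ 2 + 1 / 5 * z ^ 2) + t ^ 2 + 2 * (t + z) ^ 2 ≤ E := by
    rw [hE]
    have : (t + z) ^ 2 ≤ (t + (q + 2) * ε) ^ 2 := by
      refine pow_le_pow_left₀ (by positivity) ?_ 2
      rw [hz]; nlinarith
    linarith
  have hst : t ^ 2 ≤ s * t ^ 2 := le_mul_of_one_le_left (by positivity) hs1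
  have hsz : z ^ 2 ≤ s * z ^ 2 := le_mul_of_one_le_left (by positivity) hs1
  have htz : (t + z) ^ 2 ≤ 2 * t ^ 2 + 2 * z ^ 2 := by linarith [sq_nonneg (t - z)]
  have hRMM : R * M ≤ 10001 / 10000 * M ^ 2 := by
    rw [sq, ← mul_assoc]; exact mul_le_mul_of_nonneg_right hRM2 hM0.le
  have key : 112 / 100 * t ^ 2 + 201 / 100 * (R * M) ≤ E * (1 - 1 / 10 ^ 5) := by
    have e1 : s * (9 / 10 * t ^ 2 + 1 / 5 * z ^ 2) = 9 / 10 * (s * t ^ 2) + 1 / 5 * (s * z ^ 2) := by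
      ring
    rw [e1] at hE2
    obtain ⟨A, hA⟩ : ∃ A, A = (t + z) ^ 2 := ⟨_, rfl⟩
    rw [← hA] at hE2 hM2 htz
    have p1 := sq_nonneg t
    have p2 := sq_nonneg z
    linarith
  have hER : E * (1 - 1 / 10 ^ 5) ≤ E * (1 - 201 / 100 * R) :=
    mul_le_mul_of_nonneg_left (by linarith) hE0.le
  linarith

end

end Pool.MP_048773_co
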