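import Pool.Agent.MP_048773_co.Defs

/-!
# T1: Perron–Frobenius for a connected graph (via the Rayleigh maximiser)
-/

namespace Pool.MP_048773_co

open Finset Matrix

/-- T1. Perron–Frobenius for a connected graph. -/
theorem perron {n : ℕ} (hn : 2 ≤ n) (G : SimpleGraph (Fin n)) [DecidableRel G.Adj] (hG : G.Connected) :
    ∃ x : Fin n → ℝ, (∀ v, 0 < x v) ∧
      (∀ v, ∑ u ∈ G.neighborFinset v, x u =
        sSup {r : ℝ | ∃ x : Fin n → ℝ, x ⬝ᵥ x = 1 ∧ r = x ⬝ᵥ (G.adjMatrix ℝ *ᵥ x)} * x v) ∧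
      (∀ f : Fin n → ℝ, f ⬝ᵥ (G.adjMatrix ℝ *ᵥ f) ≤
        sSup {r : ℝ | ∃ x : Fin n → ℝ, x ⬝ᵥ x = 1 ∧ r = x ⬝ᵥ (G.adjMatrix ℝ *ᵥ x)} * (f ⬝ᵥ f)) := by
  classical
  set A : Matrix (Fin n) (Fin n) ℝ := G.adjMatrix ℝ with hA
  set S : Set (Fin n → ℝ) := {x | x ⬝ᵥ x = 1} with hS
  set Rq : (Fin n → ℝ) → ℝ := fun x => x ⬝ᵥ (A *ᵥ x) with hRq
  have hset : {r : ℝ | ∃ x : Fin n → ℝ, x ⬝ᵥ x = 1 ∧ r = x ⬝ᵥ (A *ᵥ x)} = Rq '' S := by
    ext r
    constructor
    · rintro ⟨x, hx, rfl⟩
      exact ⟨x, hx, rfl⟩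
    · rintro ⟨x, hx, rfl⟩
      exact ⟨x, hx, rfl⟩
  rw [hset]
  -- continuity
  have hcdot : Continuous fun x : Fin n → ℝ => x ⬝ᵥ x := by
    unfold dotProduct
    fun_prop
  have hcR : Continuous Rq := by
    simp only [hRq]
    unfold dotProduct mulVec dotProduct
    fun_prop
  -- compactness
  have hclosed : IsClosed S := isClosed_eq hcdot continuous_const
  have hbdd : S ⊆ Set.pi Set.univ (fun _ : Fin n => Set.Icc (-1 : ℝ) 1) := by
    intro x hx i _
    have h1 : x ⬝ᵥ x = 1 := hx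
    have h2 : x i * x i ≤ x ⬝ᵥ x := by
      unfold dotProduct
      exact Finset.single_le_sum (f := fun i => x i * x i) (fun j _ => mul_self_nonneg _) (Finset.mem_univ i)
    rw [h1] at h2
    constructor <;> nlinarith
  have hcompact : IsCompact S :=
    (isCompact_univ_pi (fun _ => isCompact_Icc)).of_isClosed_subset hclosed hbdd
  have hne : S.Nonempty := by
    refine ⟨Pi.single ⟨0, by omega⟩ 1, ?_⟩
    simp [hS]
  obtain ⟨y, hyS, hymax⟩ := hcompact.exists_isMaxOn hne hcR.continuousOn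
  have hsup : sSup (Rq '' S) = Rq y := by
    apply le_antisymm
    · apply csSup_le (hne.image _)
      rintro r ⟨x, hx, rfl⟩
      exact hymax hx
    · exact le_csSup ⟨Rq y, by rintro r ⟨x, hx, rfl⟩; exact hymax hx⟩ ⟨y, hyS, rfl⟩
  rw [hsup]
  set lam : ℝ := Rq y with hlam
  -- Rayleigh bound
  have hray : ∀ f : Fin n → ℝ, Rq f ≤ lam * (f ⬝ᵥ f) := by
    intro f
    have hf0 : 0 ≤ f ⬝ᵥ f := by
      unfold dotProduct
      exact Finset.sum_nonneg fun i _ => mul_self_nonneg _
    rcases hf0.eq_or_lt with h0 | hpos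
    · have hf : f = 0 := by
        rw [← dotProduct_self_eq_zero (v := f)]
        exact h0.symm
      subst hf
      simp [hRq]
    · set c : ℝ := Real.sqrt (f ⬝ᵥ f) with hc
      have hcpos : 0 < c := Real.sqrt_pos.mpr hpos
      have hcc : c * c = f ⬝ᵥ f := Real.mul_self_sqrt hf0
      have hg : (c⁻¹ • f) ∈ S := by
        simp only [hS, Set.mem_ofPred_eq, smul_dotProduct, dotProduct_smul, smul_eq_mul]
        rw [← hcc]
        field_simp
      have h1 := hymax hg
      simp only [Set.mem_ofPred_eq] at h1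
      have h2 : Rq (c⁻¹ • f) = (c * c)⁻¹ * Rq f := by
        simp only [hRq, mulVec_smul, smul_dotProduct, dotProduct_smul, smul_eq_mul]
        field_simp
      rw [h2, hcc] at h1
      have h3 : (f ⬝ᵥ f)⁻¹ * Rq f ≤ lam := h1
      rw [inv_mul_le_iff₀ hpos] at h3
      linarith
  -- the absolute value
  set x : Fin n → ℝ := fun i => |y i| with hx
  have hxx : x ⬝ᵥ x = 1 := by
    have : x ⬝ᵥ x = y ⬝ᵥ y := by
      unfold dotProduct
      exact Finset.sum_congr rfl fun i _ => by simp [hx]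
    rw [this]; exact hyS
  have hAnn : ∀ i j, 0 ≤ A i j := by
    intro i j
    simp only [hA, SimpleGraph.adjMatrix_apply]
    split_ifs <;> norm_num
  have hRx : lam ≤ Rq x := by
    simp only [hlam, hRq]
    unfold dotProduct mulVec dotProduct
    simp only [Finset.mul_sum]
    refine Finset.sum_le_sum fun i _ => Finset.sum_le_sum fun j _ => ?_
    have h1 : y i * (A i j * y j) ≤ |y i * (A i j * y j)| := le_abs_self _
    rw [abs_mul, abs_mul, abs_of_nonneg (hAnn i j)] at h1
    exact h1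
  have hRx' : Rq x = lam := le_antisymm (by have := hray x; rw [hxx] at this; linarith) hRx
  -- eigenvector
  have hAsymm : ∀ i j, A i j = A j i := by
    intro i j
    simp only [hA, SimpleGraph.adjMatrix_apply, G.adj_comm]
  have hsym : ∀ f g : Fin n → ℝ, f ⬝ᵥ (A *ᵥ g) = g ⬝ᵥ (A *ᵥ f) := by
    intro f g
    unfold dotProduct mulVec dotProduct
    simp only [Finset.mul_sum]
    rw [Finset.sum_comm]
    refine Finset.sum_congr rfl fun i _ => Finset.sum_congr rfl fun j _ => ?_
    rw [hAsymm j i]; ring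
  have heig0 : ∀ z : Fin n → ℝ, z ⬝ᵥ (A *ᵥ x) = lam * (z ⬝ᵥ x) := by
    intro z
    set b : ℝ := lam * (z ⬝ᵥ x) - z ⬝ᵥ (A *ᵥ x) with hb
    set a : ℝ := lam * (z ⬝ᵥ z) - z ⬝ᵥ (A *ᵥ z) with ha
    have ha0 : 0 ≤ a := by have := hray z; simp only [hRq] at this; linarith
    have hkey : ∀ t : ℝ, 0 ≤ 2 * t * b + t ^ 2 * a := by
      intro t
      have h1 := hray (x + t • z)
      have h2 : Rq (x + t • z) = lam + 2 * t * (z ⬝ᵥ (A *ᵥ x)) + t ^ 2 * (z ⬝ᵥ (A *ᵥ z)) := by
        have h3 : Rq (x + t • z) = Rq x + t * (x ⬝ᵥ (A *ᵥ z)) + t * (z ⬝ᵥ (A *ᵥ x)) +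
            t ^ 2 * (z ⬝ᵥ (A *ᵥ z)) := by
          simp only [hRq, mulVec_add, mulVec_smul, add_dotProduct, dotProduct_add, smul_dotProduct,
            dotProduct_smul, smul_eq_mul]
          ring
        rw [h3, hRx', hsym x z]; ring
      have h4 : (x + t • z) ⬝ᵥ (x + t • z) = 1 + 2 * t * (z ⬝ᵥ x) + t ^ 2 * (z ⬝ᵥ z) := by
        simp only [add_dotProduct, dotProduct_add, smul_dotProduct, dotProduct_smul, smul_eq_mul,
          hxx, dotProduct_comm x z]
        ring
      rw [h2, h4] at h1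
      simp only [hb, ha]
      nlinarith
    have hb0 : b = 0 := by
      by_contra hbne
      have h5 := hkey (-b / (a + 1))
      have ha1 : 0 < a + 1 := by linarith
      have h6 : 2 * (-b / (a + 1)) * b + (-b / (a + 1)) ^ 2 * a
          = -(b ^ 2 * (a + 2)) / (a + 1) ^ 2 := by
        field_simp
        ring
      rw [h6] at h5
      have h7 : 0 < b ^ 2 * (a + 2) := by positivity
      have h8 : -(b ^ 2 * (a + 2)) / (a + 1) ^ 2 < 0 := by
        apply div_neg_of_neg_of_pos
        · linarith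
        · positivity
      linarith
    linarith
  have heig : ∀ v, ∑ u ∈ G.neighborFinset v, x u = lam * x v := by
    intro v
    have h1 := heig0 (Pi.single v 1)
    rw [single_dotProduct, single_dotProduct, one_mul, one_mul, hA,
      SimpleGraph.adjMatrix_mulVec_apply] at h1
    exact h1
  have hxnn : ∀ v, 0 ≤ x v := fun v => abs_nonneg _
  -- positivity
  have hprop : ∀ v w, G.Adj v w → x v = 0 → x w = 0 := by
    intro v w hvw hv
    have h1 := heig v
    rw [hv, mul_zero] at h1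
    exact (Finset.sum_eq_zero_iff_of_nonneg (fun u _ => hxnn u)).mp h1 w
      (by rw [SimpleGraph.mem_neighborFinset]; exact hvw)
  have hreach : ∀ v w, G.Reachable v w → x v = 0 → x w = 0 := by
    rintro v w ⟨p⟩
    induction p with
    | nil => exact id
    | cons h p ih => exact fun hv => ih (hprop _ _ h hv)
  have hxpos : ∀ v, 0 < x v := by
    intro v
    rcases (hxnn v).eq_or_lt with h0 | h
    · exfalso
      have hz : ∀ w, x w = 0 := fun w => hreach v w (hG.preconnected v w) h0.symm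
      have : x ⬝ᵥ x = 0 := by
        unfold dotProduct
        exact Finset.sum_eq_zero fun i _ => by rw [hz i, mul_zero]
      rw [hxx] at this
      norm_num at this
    · exact h
  exact ⟨x, hxpos, heig, fun f => hray f⟩

end Pool.MP_048773_co
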