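import Pool.Agent.MP_048773_co.Defs

/-!
# T3, basic facts on sorted Perron data
-/

namespace Pool.MP_048773_co

open Finset

noncomputable section

/-- flux through cut `i` -/
def J (μ : ℝ) (x : ℕ → ℝ) (i : ℕ) : ℝ := μ * ∑ v ∈ range i, x v

/-- edges of the cut `i` (upper endpoint `e.1 < i`, lower endpoint `e.2 ≥ i`) -/
def cutE (n : ℕ) (N : ℕ → Finset ℕ) (i : ℕ) : Finset (ℕ × ℕ) :=
  ((range i) ×ˢ (range (n + 2))).filter (fun e => e.2 ∈ N e.1 ∧ i ≤ e.2)

variable {q n : ℕ} {μ : ℝ} {x : ℕ → ℝ} {N : ℕ → Finset ℕ}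

theorem PData.lt_of_mem (hd : PData q n μ x N) {v u : ℕ} (hv : v < n) (hu : u ∈ N v) :
    u < n + 2 := by
  by_contra h
  push Not at h
  have := hd.ground v hv u hu (by omega)
  omega

theorem PData.mem_cutE (hd : PData q n μ x N) {i : ℕ} (hi : i ≤ n) {e : ℕ × ℕ} :
    e ∈ cutE n N i ↔ e.1 < i ∧ e.2 ∈ N e.1 ∧ i ≤ e.2 := by
  unfold cutE
  simp only [mem_filter, mem_product, mem_range]
  constructor
  · rintro ⟨⟨h1, h2⟩, h3, h4⟩
    exact ⟨h1, h3, h4⟩
  · rintro ⟨h1, h3, h4⟩
    exact ⟨⟨h1, hd.lt_of_mem (by omega) h3⟩, h3, h4⟩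

theorem PData.x_nonneg (hd : PData q n μ x N) (v : ℕ) : 0 ≤ x v := by
  by_cases h : v < n
  · exact (hd.xpos v h).le
  · exact (hd.xzero v (by omega)).ge

theorem PData.sum_cutE {M : Type*} [AddCommMonoid M] (hd : PData q n μ x N) {i : ℕ} (hi : i ≤ n)
    (f : ℕ × ℕ → M) :
    ∑ e ∈ cutE n N i, f e = ∑ v ∈ range i, ∑ u ∈ (N v).filter (fun u => i ≤ u), f (v, u) := by
  unfold cutE
  rw [sum_filter, sum_product]
  refine sum_congr rfl fun v hv => ?_
  rw [← sum_filter]
  refine sum_congr ?_ fun _ _ => rfl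
  ext u
  simp only [mem_filter, mem_range]
  constructor
  · rintro ⟨_, h⟩; exact h
  · rintro h
    exact ⟨hd.lt_of_mem (by simp at hv; omega) h.1, h⟩

theorem PData.flux (hd : PData q n μ x N) {i : ℕ} (hi : i ≤ n) :
    ∑ e ∈ cutE n N i, (x e.1 - x e.2) = J μ x i := by
  rw [hd.sum_cutE hi]
  have h1 : ∑ v ∈ range i, ∑ u ∈ N v, (x v - x u) = J μ x i := by
    unfold J
    rw [mul_sum]
    refine sum_congr rfl fun v hv => ?_
    exact hd.eig v (by simp at hv; omega)
  have h2 : ∑ v ∈ range i, ∑ u ∈ N v, (x v - x u) =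
      ∑ v ∈ range i, ∑ u ∈ (N v).filter (fun u => i ≤ u), (x v - x u) +
      ∑ v ∈ range i, ∑ u ∈ (N v).filter (fun u => ¬ i ≤ u), (x v - x u) := by
    rw [← sum_add_distrib]
    refine sum_congr rfl fun v hv => ?_
    rw [sum_filter_add_sum_filter_not]
  have h3 : ∀ v ∈ range i, ∑ u ∈ (N v).filter (fun u => ¬ i ≤ u), (x v - x u) =
      ∑ u ∈ range i, if u ∈ N v then (x v - x u) else 0 := by
    intro v hv
    rw [← sum_filter]
    refine sum_congr ?_ fun _ _ => rfl
    ext u
    simp only [mem_filter, mem_range, not_le]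
    tauto
  have h4 : ∑ v ∈ range i, ∑ u ∈ (N v).filter (fun u => ¬ i ≤ u), (x v - x u) = 0 := by
    rw [sum_congr rfl h3]
    have h5 : ∑ v ∈ range i, ∑ u ∈ range i, (if u ∈ N v then (x v - x u) else 0) =
        - ∑ v ∈ range i, ∑ u ∈ range i, (if u ∈ N v then (x v - x u) else 0) := by
      conv_lhs => rw [sum_comm]
      rw [← sum_neg_distrib]
      refine sum_congr rfl fun v hv => ?_
      rw [← sum_neg_distrib]
      refine sum_congr rfl fun u hu => ?_
      simp only [mem_range] at hu hv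
      by_cases h : u ∈ N v
      · rw [if_pos h, if_pos ((hd.symm u v (by omega) (by omega)).mp h)]
        ring
      · rw [if_neg h, if_neg (fun h' => h ((hd.symm u v (by omega) (by omega)).mpr h'))]
        ring
    linarith
  linarith

theorem PData.cut_term (hd : PData q n μ x N) {i : ℕ} (hi : i ≤ n) {e : ℕ × ℕ}
    (he : e ∈ cutE n N i) : x (i - 1) - x i ≤ x e.1 - x e.2 := by
  rw [hd.mem_cutE hi] at he
  have h1 : x (i - 1) ≤ x e.1 := hd.anti (by omega)
  have h2 : x e.2 ≤ x i := hd.anti (by omega)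
  linarith

theorem PData.gap_nonneg (hd : PData q n μ x N) (i : ℕ) : 0 ≤ x (i - 1) - x i := by
  have : x i ≤ x (i - 1) := hd.anti (by omega)
  linarith

theorem PData.cut_term_nonneg (hd : PData q n μ x N) {i : ℕ} (hi : i ≤ n) {e : ℕ × ℕ}
    (he : e ∈ cutE n N i) : 0 ≤ x e.1 - x e.2 :=
  (hd.gap_nonneg i).trans (hd.cut_term hi he)

theorem PData.sum_up_le (hd : PData q n μ x N) {i : ℕ} (hi : i ≤ n) (f : ℕ × ℕ → ℝ)
    (hf : ∀ e ∈ cutE n N i, 0 ≤ f e) (A : Finset ℕ) (hA : ∀ v ∈ A, v < i) :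
    ∑ v ∈ A, ∑ u ∈ (N v).filter (fun u => i ≤ u), f (v, u) ≤ ∑ e ∈ cutE n N i, f e := by
  rw [hd.sum_cutE hi]
  refine sum_le_sum_of_subset_of_nonneg (fun v hv => by simpa using hA v hv) ?_
  intro v hv _
  refine sum_nonneg fun u hu => hf _ ?_
  rw [hd.mem_cutE hi]
  simp only [mem_filter] at hu
  simp only [mem_range] at hv
  exact ⟨hv, hu.1, hu.2⟩

theorem PData.sum_down_le (hd : PData q n μ x N) {i : ℕ} (hi : i ≤ n) (f : ℕ × ℕ → ℝ)
    (hf : ∀ e ∈ cutE n N i, 0 ≤ f e) (B : Finset ℕ) (hB : ∀ v ∈ B, i ≤ v ∧ v < n) :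
    ∑ v ∈ B, ∑ u ∈ (N v).filter (fun u => u < i), f (u, v) ≤ ∑ e ∈ cutE n N i, f e := by
  rw [hd.sum_cutE hi]
  have h1 : ∑ v ∈ B, ∑ u ∈ (N v).filter (fun u => u < i), f (u, v) =
      ∑ v ∈ B, ∑ u ∈ range i, if v ∈ N u then f (u, v) else 0 := by
    refine sum_congr rfl fun v hv => ?_
    rw [← sum_filter]
    refine sum_congr ?_ fun _ _ => rfl
    ext u
    simp only [mem_filter, mem_range]
    constructor
    · rintro ⟨h1, h2⟩
      exact ⟨h2, (hd.symm u v (by omega) (hB v hv).2).mp h1⟩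
    · rintro ⟨h1, h2⟩
      exact ⟨(hd.symm u v (by omega) (hB v hv).2).mpr h2, h1⟩
  rw [h1, sum_comm]
  refine sum_le_sum fun u hu => ?_
  rw [← sum_filter]
  refine sum_le_sum_of_subset_of_nonneg ?_ ?_
  · intro v hv
    simp only [mem_filter] at hv ⊢
    exact ⟨hv.2, (hB v hv.1).1⟩
  · intro v hv _
    refine hf _ ?_
    rw [hd.mem_cutE hi]
    simp only [mem_filter] at hv
    simp only [mem_range] at hu
    exact ⟨hu, hv.1, hv.2⟩

theorem PData.up_flux_le (hd : PData q n μ x N) {i : ℕ} (hi : i ≤ n) {v : ℕ} (hv : v < i) :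
    ∑ u ∈ (N v).filter (fun u => i ≤ u), (x v - x u) ≤ J μ x i := by
  have := hd.sum_up_le hi (fun e => x e.1 - x e.2) (fun e he => hd.cut_term_nonneg hi he) {v}
    (by simpa using hv)
  rw [hd.flux hi] at this
  simpa using this

theorem PData.down_flux_le (hd : PData q n μ x N) {i : ℕ} (hi : i ≤ n) {v : ℕ} (hv : i ≤ v)
    (hvn : v < n) :
    ∑ u ∈ (N v).filter (fun u => u < i), (x u - x v) ≤ J μ x i := by
  have := hd.sum_down_le hi (fun e => x e.1 - x e.2) (fun e he => hd.cut_term_nonneg hi he) {v}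
    (by simpa using ⟨hv, hvn⟩)
  rw [hd.flux hi] at this
  simpa using this

theorem PData.J_mono (hd : PData q n μ x N) (hμ : 0 < μ) {i j : ℕ} (hij : i ≤ j) :
    J μ x i ≤ J μ x j := by
  unfold J
  refine mul_le_mul_of_nonneg_left ?_ hμ.le
  exact sum_le_sum_of_subset_of_nonneg (range_mono hij) fun v _ _ => hd.x_nonneg v

theorem PData.J_pos (hd : PData q n μ x N) (hμ : 0 < μ) {i : ℕ} (hi : 0 < i) :
    0 < J μ x i := by
  unfold J
  refine mul_pos hμ ?_
  refine lt_of_lt_of_le (hd.xpos 0 hd.npos) ?_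
  exact single_le_sum (fun v _ => hd.x_nonneg v) (by simpa using hi)

theorem PData.J_lt (hd : PData q n μ x N) (hμ : 0 < μ) {i j : ℕ} (hij : i < j) (hi : i < n) :
    J μ x i < J μ x j := by
  have h1 : J μ x (i + 1) ≤ J μ x j := hd.J_mono hμ hij
  have h2 : J μ x (i + 1) = J μ x i + μ * x i := by
    unfold J; rw [sum_range_succ]; ring
  have := mul_pos hμ (hd.xpos i hi)
  linarith

/-- cut `n` consists of exactly the two ground edges. -/
theorem PData.cutE_n (hd : PData q n μ x N) : cutE n N n = {(n - 1, n), (n - 1, n + 1)} := by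
  have hn := hd.npos
  ext ⟨b, a⟩
  rw [hd.mem_cutE le_rfl]
  simp only [mem_insert, mem_singleton, Prod.mk.injEq]
  constructor
  · rintro ⟨h1, h2, h3⟩
    have := hd.ground b h1 a h2 h3
    tauto
  · rintro (⟨rfl, rfl⟩ | ⟨rfl, rfl⟩)
    · exact ⟨by omega, hd.gmem.1, by omega⟩
    · exact ⟨by omega, hd.gmem.2, by omega⟩

theorem PData.card_mul_gap (hd : PData q n μ x N) {i : ℕ} (hi : i ≤ n) :
    ((cutE n N i).card : ℝ) * (x (i - 1) - x i) ≤ J μ x i := by
  rw [← hd.flux hi, ← nsmul_eq_mul]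
  exact card_nsmul_le_sum _ _ _ fun e he => hd.cut_term hi he

/-- the size of every cut is even -/
theorem PData.card_even (hd : PData q n μ x N) (hq : Even q) {i : ℕ} (hi : i ≤ n) :
    Even (cutE n N i).card := by
  have h0 : (cutE n N i).card = ∑ v ∈ range i, ((N v).filter (fun u => i ≤ u)).card := by
    have := hd.sum_cutE hi (fun _ => (1 : ℕ))
    simpa using this
  have h1 : ∑ v ∈ range i, (N v).card = i * (q + 2) := by
    rw [sum_congr rfl (fun v hv => hd.card v (by simp at hv; omega))]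
    simp
  have h2 : ∑ v ∈ range i, (N v).card = (cutE n N i).card +
      ∑ v ∈ range i, ((N v).filter (fun u => ¬ i ≤ u)).card := by
    rw [h0, ← sum_add_distrib]
    refine sum_congr rfl fun v hv => ?_
    rw [card_filter_add_card_filter_not]
  have h3 : Even (∑ v ∈ range i, ((N v).filter (fun u => ¬ i ≤ u)).card) := by
    set T := ((range i) ×ˢ (range i)).filter (fun e => e.2 ∈ N e.1) with hT
    have hc : ∑ v ∈ range i, ((N v).filter (fun u => ¬ i ≤ u)).card = T.card := by
      rw [card_eq_sum_ones, hT, sum_filter, sum_product]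
      refine sum_congr rfl fun v hv => ?_
      rw [card_eq_sum_ones, ← sum_filter]
      refine sum_congr ?_ fun _ _ => rfl
      ext u
      simp only [mem_filter, mem_range, not_le]
      tauto
    rw [hc]
    have hz : ∑ e ∈ T, (1 : ZMod 2) = 0 := by
      refine sum_involution (fun e _ => (e.2, e.1)) ?_ ?_ ?_ ?_
      · intro e _; decide
      · rintro ⟨a, b⟩ he _ h
        simp only [hT, mem_filter, mem_product, mem_range] at he
        simp only [Prod.mk.injEq] at h
        have : b ∈ N a := he.2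
        rw [h.1] at this
        exact hd.irr a (by omega) this
      · rintro ⟨a, b⟩ he
        simp only [hT, mem_filter, mem_product, mem_range] at he ⊢
        exact ⟨⟨he.1.2, he.1.1⟩, (hd.symm b a (by omega) (by omega)).mp he.2⟩
      · rintro ⟨a, b⟩ he
        rfl
    rw [sum_const, nsmul_eq_mul, mul_one] at hz
    exact (ZMod.natCast_eq_zero_iff_even).mp hz
  have h4 : Even (i * (q + 2)) := by
    apply Even.mul_left
    exact hq.add even_two
  rw [← h1, h2] at h4
  exact (Nat.even_add.mp h4).mpr h3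

theorem PData.card_cut_pos (hd : PData q n μ x N) (hμ : 0 < μ) {i : ℕ} (hi0 : 0 < i)
    (hi : i ≤ n) : 0 < (cutE n N i).card := by
  rw [card_pos]
  by_contra h
  rw [not_nonempty_iff_eq_empty] at h
  have h1 := hd.flux hi
  rw [h, sum_empty] at h1
  have := hd.J_pos hμ hi0
  linarith

/-- number of neighbours far away from `v` -/
theorem PData.far_card (hd : PData q n μ x N) {v : ℕ} (hv : v < n) (a : ℝ) :
    (((N v).filter (fun u => a ≤ |x u - x v|)).card : ℝ) * a ≤ J μ x v + J μ x (v + 1) := by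
  have h1 : (((N v).filter (fun u => a ≤ |x u - x v|)).card : ℝ) * a ≤
      ∑ u ∈ (N v).filter (fun u => a ≤ |x u - x v|), |x u - x v| := by
    rw [← nsmul_eq_mul]
    exact card_nsmul_le_sum _ _ _ fun u hu => (mem_filter.mp hu).2
  have h2 : ∑ u ∈ (N v).filter (fun u => a ≤ |x u - x v|), |x u - x v| ≤
      ∑ u ∈ N v, |x u - x v| :=
    sum_le_sum_of_subset_of_nonneg (filter_subset _ _) fun _ _ _ => abs_nonneg _
  have h3 : ∑ u ∈ N v, |x u - x v| = ∑ u ∈ (N v).filter (fun u => u < v), (x u - x v) +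
      ∑ u ∈ (N v).filter (fun u => v + 1 ≤ u), (x v - x u) := by
    rw [← sum_filter_add_sum_filter_not (N v) (fun u => u < v)]
    congr 1
    · refine sum_congr rfl fun u hu => ?_
      have : x v ≤ x u := hd.anti (by simp at hu; omega)
      rw [abs_of_nonneg (by linarith)]
    · have hset : (N v).filter (fun u => ¬ u < v) = (N v).filter (fun u => v + 1 ≤ u) := by
        ext u
        simp only [mem_filter]
        constructor
        · rintro ⟨h, h'⟩
          refine ⟨h, ?_⟩
          rcases Nat.lt_or_ge v u with h'' | h''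
          · omega
          · exfalso
            have : u = v := by omega
            subst this
            exact hd.irr u hv h
        · rintro ⟨h, h'⟩
          exact ⟨h, by omega⟩
      rw [hset]
      refine sum_congr rfl fun u hu => ?_
      have : x u ≤ x v := hd.anti (by simp at hu; omega)
      rw [abs_of_nonpos (by linarith)]
      ring
  have h4 := hd.down_flux_le hv.le (le_refl v) hv
  have h5 := hd.up_flux_le (i := v + 1) (by omega) (Nat.lt_succ_self v)
  linarith

end

end Pool.MP_048773_co
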