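import Pool.Agent.MP_048773_co.T3Dense

/-!
# T3, averages at 2-edge cuts and exact blocks
-/

namespace Pool.MP_048773_co

open Finset

noncomputable section

variable {q n : ℕ} {μ : ℝ} {x : ℕ → ℝ} {N : ℕ → Finset ℕ}

/-- average of the values of lower endpoints of a 2-edge cut -/
def lowAvg (x : ℕ → ℝ) (n : ℕ) (N : ℕ → Finset ℕ) (i : ℕ) : ℝ := (∑ e ∈ cutE n N i, x e.2) / 2

/-- normalised flux -/
def Iv (q : ℕ) (μ : ℝ) (x : ℕ → ℝ) (i : ℕ) : ℝ := J μ x i / (2 * q)

def Sing1 (n : ℕ) (N : ℕ → Finset ℕ) (i : ℕ) : Prop := ∃ b, ∀ e ∈ cutE n N i, e.1 = b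

def Sing2 (n : ℕ) (N : ℕ → Finset ℕ) (i : ℕ) : Prop := ∃ a, ∀ e ∈ cutE n N i, e.2 = a

theorem PData.Iv_sub (hq0 : (0 : ℝ) < q) {i0 i : ℕ} (h : i0 < i) :
    Iv q μ x i = Iv q μ x i0 + μ / (2 * q) * ((i - i0 : ℕ) : ℝ) * cbar x i0 i := by
  have h1 := J_sub (μ := μ) (x := x) h.le
  rw [mul_assoc, cbar_mul h]
  unfold Iv
  have : J μ x i = J μ x i0 + μ * ∑ u ∈ Ico i0 i, x u := by linarith
  rw [this]
  field_simp

theorem PData.J_eq_Iv (hq0 : (0 : ℝ) < q) (i : ℕ) : J μ x i = 2 * q * Iv q μ x i := by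
  unfold Iv; field_simp

/-- lower bound for the average below a dense cluster -/
theorem PData.dense_W (hd : PData q n μ x N) (hμ : 0 < μ) (hq : 10 ^ 7 ≤ q) {i0 i : ℕ}
    (h0 : i0 < i) (hi : i ≤ n)
    (hlen : 5 * (i - i0) ≤ 8 * (q + 3)) (hc0 : (cutE n N i0).card ≤ 2)
    (hc : (cutE n N i).card = 2) :
    cbar x i0 i - (q + 201 / 100) * Iv q μ x i ≤ lowAvg x n N i ∧
    (¬ Sing1 n N i → cbar x i0 i - (q + 101 / 100) * Iv q μ x i ≤ lowAvg x n N i) := by
  have hq' : (10 ^ 7 : ℝ) ≤ q := by exact_mod_cast hq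
  have hq0 : (0 : ℝ) < q := by linarith
  have hJ : 0 < J μ x i := hd.J_pos hμ (by omega)
  have hJI := PData.J_eq_Iv (μ := μ) (x := x) hq0 i
  have hI : 0 < Iv q μ x i := by unfold Iv; positivity
  have hfl := hd.flux hi
  rw [sum_sub_distrib] at hfl
  have hlow : lowAvg x n N i = (∑ e ∈ cutE n N i, x e.1) / 2 - q * Iv q μ x i := by
    unfold lowAvg
    linarith
  obtain ⟨e1, e2, hne, hE⟩ := card_eq_two.mp hc
  have he1 : e1 ∈ cutE n N i := by rw [hE]; simp
  have he2 : e2 ∈ cutE n N i := by rw [hE]; simp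
  have he1' := (hd.mem_cutE hi).mp he1
  have he2' := (hd.mem_cutE hi).mp he2
  have hs : ∑ e ∈ cutE n N i, x e.1 = x e1.1 + x e2.1 := by rw [hE, sum_pair hne]
  rw [hlow, hs]
  have l1 := hd.dense_lower hμ hq h0 hi hlen hc0 hc.le he1'.1
  have l2 := hd.dense_lower hμ hq h0 hi hlen hc0 hc.le he2'.1
  have hJ200 : J μ x i / (200 * q) = Iv q μ x i / 100 := by
    rw [hJI]; field_simp; norm_num
  rw [hJ200] at l1 l2
  have hdouble : e1.1 ≠ e2.1 → cbar x i0 i - (q + 101 / 100) * Iv q μ x i ≤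
      (x e1.1 + x e2.1) / 2 - q * Iv q μ x i := by
    intro hne1
    have h1 := hd.sum_up_le hi (fun e => x e.1 - x e.2) (fun e he => hd.cut_term_nonneg hi he)
      {e1.1, e2.1} (fun v hv => by
        simp only [mem_insert, mem_singleton] at hv
        rcases hv with rfl | rfl
        · exact he1'.1
        · exact he2'.1)
    rw [hd.flux hi, sum_pair hne1] at h1
    have h2 : Fout x N i e1.1 / q + Fout x N i e2.1 / q ≤ 2 * Iv q μ x i := by
      rw [← add_div, div_le_iff₀ hq0]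
      unfold Fout
      simp only at h1
      linarith
    linarith
  have hsingle : e1.1 = e2.1 → cbar x i0 i - (q + 201 / 100) * Iv q μ x i ≤
      (x e1.1 + x e2.1) / 2 - q * Iv q μ x i := by
    intro heq
    have h1 := hd.up_flux_le hi he1'.1
    have h2 : Fout x N i e1.1 / q ≤ 2 * Iv q μ x i := by
      rw [div_le_iff₀ hq0]
      unfold Fout
      linarith
    rw [← heq] at l2 ⊢
    linarith
  constructor
  · by_cases h : e1.1 = e2.1
    · exact hsingle h
    · have := hdouble h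
      nlinarith
  · intro hns
    apply hdouble
    intro heq
    apply hns
    refine ⟨e1.1, fun e he => ?_⟩
    rw [hE] at he
    simp only [mem_insert, mem_singleton] at he
    rcases he with rfl | rfl
    · rfl
    · exact heq.symm

/-- upper bound for the average above a dense cluster -/
theorem PData.dense_V (hd : PData q n μ x N) (hμ : 0 < μ) (hq : 10 ^ 7 ≤ q) {i0 i : ℕ}
    (h0 : i0 < i) (hi : i ≤ n) (hi0 : q + 3 ≤ i0)
    (hlen : 5 * (i - i0) ≤ 8 * (q + 3)) (hc0 : (cutE n N i0).card = 2)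
    (hc : (cutE n N i).card ≤ 2) :
    lowAvg x n N i0 ≤ cbar x i0 i + 201 / 100 * Iv q μ x i0 ∧
    (¬ Sing2 n N i0 → lowAvg x n N i0 ≤ cbar x i0 i + 101 / 100 * Iv q μ x i0) := by
  have hq' : (10 ^ 7 : ℝ) ≤ q := by exact_mod_cast hq
  have hq0 : (0 : ℝ) < q := by linarith
  have hi0n : i0 ≤ n := by omega
  have hJ : 0 < J μ x i0 := hd.J_pos hμ (by omega)
  have hJI := PData.J_eq_Iv (μ := μ) (x := x) hq0 i0
  have hI : 0 < Iv q μ x i0 := by unfold Iv; positivity
  obtain ⟨e1, e2, hne, hE⟩ := card_eq_two.mp hc0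
  have he1 : e1 ∈ cutE n N i0 := by rw [hE]; simp
  have he2 : e2 ∈ cutE n N i0 := by rw [hE]; simp
  have he1' := (hd.mem_cutE hi0n).mp he1
  have he2' := (hd.mem_cutE hi0n).mp he2
  have hs : lowAvg x n N i0 = (x e1.2 + x e2.2) / 2 := by
    unfold lowAvg
    rw [hE, sum_pair hne]
  rw [hs]
  have l1 := hd.dense_upper hμ hq h0 hi hi0 hlen hc0.le hc he1'.2.2
  have l2 := hd.dense_upper hμ hq h0 hi hi0 hlen hc0.le hc he2'.2.2
  have hJ200 : J μ x i0 / (200 * q) = Iv q μ x i0 / 100 := by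
    rw [hJI]; field_simp; norm_num
  rw [hJ200] at l1 l2
  -- vertices of the cut below the cluster or ground
  have hFn : ∀ v, i0 ≤ v → n ≤ v → x v ≤ cbar x i0 i := by
    intro v _ hv
    rw [hd.xzero v hv]
    have := hd.le_cbar h0
    have := hd.x_nonneg (i - 1)
    linarith
  have hflux1 : ∀ v, i0 ≤ v → v < n → Fin_ x N i0 v ≤ J μ x i0 := by
    intro v hv hvn
    exact hd.down_flux_le hi0n hv hvn
  have hx : ∀ v, i0 ≤ v → x v ≤ cbar x i0 i + Fin_ x N i0 v / q + Iv q μ x i0 / 100 →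
      x v ≤ cbar x i0 i + 201 / 100 * Iv q μ x i0 := by
    intro v hv hl
    by_cases hvn : v < n
    · have h1 := hflux1 v hv hvn
      have h2 : Fin_ x N i0 v / q ≤ 2 * Iv q μ x i0 := by
        rw [div_le_iff₀ hq0]; linarith
      linarith
    · have := hFn v hv (by omega)
      linarith
  have g1 := hx _ he1'.2.2 l1
  have g2 := hx _ he2'.2.2 l2
  refine ⟨by linarith, ?_⟩
  intro hns
  have hne2 : e1.2 ≠ e2.2 := by
    intro heq
    apply hns
    refine ⟨e1.2, fun e he => ?_⟩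
    rw [hE] at he
    simp only [mem_insert, mem_singleton] at he
    rcases he with rfl | rfl
    · rfl
    · exact heq.symm
  by_cases h1n : e1.2 < n
  · by_cases h2n : e2.2 < n
    · have h1 := hd.sum_down_le hi0n (fun e => x e.1 - x e.2)
        (fun e he => hd.cut_term_nonneg hi0n he)
        {e1.2, e2.2} (fun v hv => by
          simp only [mem_insert, mem_singleton] at hv
          rcases hv with rfl | rfl
          · exact ⟨he1'.2.2, h1n⟩
          · exact ⟨he2'.2.2, h2n⟩)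
      rw [hd.flux hi0n, sum_pair hne2] at h1
      have h2 : Fin_ x N i0 e1.2 / q + Fin_ x N i0 e2.2 / q ≤ 2 * Iv q μ x i0 := by
        rw [← add_div, div_le_iff₀ hq0]
        unfold Fin_
        simp only at h1
        linarith
      linarith
    · have := hFn _ he2'.2.2 (by omega)
      linarith
  · have := hFn _ he1'.2.2 (by omega)
    linarith

/-- the combinatorial core of the exact blocks -/
theorem PData.block_core (hd : PData q n μ x N) {i0 i : ℕ} (hi : i ≤ n) (hlen : i - i0 = q + 3)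
    {z y1 y2 : ℕ} (hz : z ∈ Ico i0 i) (hz2 : 2 ≤ (outb N i0 i z).card)
    (hy : ∀ v ∈ Ico i0 i, v ≠ z → (outb N i0 i v).Nonempty → v = y1 ∨ v = y2) :
    y1 ≠ y2 ∧ nnb N i0 i z = {y1, y2} ∧ (outb N i0 i z).card = 2 ∧ y1 ∈ Ico i0 i ∧ y2 ∈ Ico i0 i ∧
      y1 ≠ z ∧ y2 ≠ z ∧
      (∀ y, (y = y1 ∨ y = y2) → (outb N i0 i y).card ≤ 1 → nnb N i0 i y = {z}) := by
  have hcard : ∀ v ∈ Ico i0 i, (nnb N i0 i v).card = (outb N i0 i v).card := by
    intro v hv
    have := hd.card_nnb hv hi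
    omega
  have hsub : nnb N i0 i z ⊆ {y1, y2} := by
    intro u hu
    have huC : u ∈ Ico i0 i := (mem_sdiff.mp hu).1
    have hune : u ≠ z := by
      rintro rfl
      exact (mem_sdiff.mp hu).2 (mem_insert_self _ _)
    have hzu := (hd.nnb_symm hi huC hz).mp hu
    have h1 : 0 < (outb N i0 i u).card := by
      rw [← hcard u huC]
      exact card_pos.mpr ⟨z, hzu⟩
    have := hy u huC hune (card_pos.mp h1)
    simpa using this
  have hnc : 2 ≤ (nnb N i0 i z).card := by rw [hcard z hz]; exact hz2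
  have hle : ({y1, y2} : Finset ℕ).card ≤ (nnb N i0 i z).card :=
    (card_le_two).trans hnc
  have heq : nnb N i0 i z = {y1, y2} := eq_of_subset_of_card_le hsub hle
  have hne : y1 ≠ y2 := by
    rintro rfl
    rw [heq] at hnc
    simp at hnc
  have hy1 : y1 ∈ nnb N i0 i z := by rw [heq]; simp
  have hy2 : y2 ∈ nnb N i0 i z := by rw [heq]; simp
  have hy1C : y1 ∈ Ico i0 i := (mem_sdiff.mp hy1).1
  have hy2C : y2 ∈ Ico i0 i := (mem_sdiff.mp hy2).1
  refine ⟨hne, heq, ?_, hy1C, hy2C, ?_, ?_, ?_⟩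
  · rw [← hcard z hz, heq, card_pair hne]
  · rintro rfl
    exact (mem_sdiff.mp hy1).2 (mem_insert_self _ _)
  · rintro rfl
    exact (mem_sdiff.mp hy2).2 (mem_insert_self _ _)
  · intro y hy' hcy
    have hyn : y ∈ nnb N i0 i z := by rcases hy' with rfl | rfl <;> assumption
    have hyC : y ∈ Ico i0 i := (mem_sdiff.mp hyn).1
    have hzy := (hd.nnb_symm hi hyC hz).mp hyn
    rw [← hcard y hyC] at hcy
    have h1 : {z} ⊆ nnb N i0 i y := by simpa using hzy
    exact (eq_of_subset_of_card_le h1 (by simpa using hcy)).symm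

theorem PData.cut_ne (hd : PData q n μ x N) (hμ : 0 < μ) {i0 i : ℕ} (h0 : i0 < i) (hi : i ≤ n) :
    cutE n N i0 ≠ cutE n N i := by
  intro h
  have h1 := hd.flux (i := i0) (by omega)
  have h2 := hd.flux hi
  rw [h, h2] at h1
  have := hd.J_lt hμ h0 (by omega)
  linarith

/-- exact `F` block -/
theorem PData.block_F (hd : PData q n μ x N) (hμ : 0 < μ) (hq : 10 ^ 7 ≤ q) {i0 i : ℕ}
    (h0 : i0 < i) (hi : i ≤ n) (hlen : i - i0 = q + 3) (hc0 : (cutE n N i0).card = 2)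
    (hc : (cutE n N i).card = 2) (hs : Sing1 n N i) :
    (lowAvg x n N i, Iv q μ x i) = stepF q (μ / (2 * q)) (lowAvg x n N i0, Iv q μ x i0) := by
  have hq' : (10 ^ 7 : ℝ) ≤ q := by exact_mod_cast hq
  have hq0 : (0 : ℝ) < q := by linarith
  have hi0n : i0 ≤ n := by omega
  obtain ⟨w, hw⟩ := hs
  obtain ⟨⟨w1, c1⟩, ⟨w2, c2⟩, hne, hE⟩ := card_eq_two.mp hc
  have he1 : (w1, c1) ∈ cutE n N i := by rw [hE]; simp
  have he2 : (w2, c2) ∈ cutE n N i := by rw [hE]; simp
  have hw1 : w1 = w := hw _ he1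
  have hw2 : w2 = w := hw _ he2
  subst hw1
  subst hw2
  have hcne : c1 ≠ c2 := by rintro rfl; exact hne rfl
  have he1' := (hd.mem_cutE hi).mp he1
  have he2' := (hd.mem_cutE hi).mp he2
  simp only at he1' he2'
  have hwC : w2 ∈ Ico i0 i := by
    rw [mem_Ico]
    refine ⟨?_, he1'.1⟩
    by_contra hlt
    push Not at hlt
    have hsub : cutE n N i ⊆ cutE n N i0 := by
      rw [hE]
      intro e he
      simp only [mem_insert, mem_singleton] at he
      rw [hd.mem_cutE hi0n]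
      rcases he with rfl | rfl
      · exact ⟨hlt, he1'.2.1, by simp only; omega⟩
      · exact ⟨hlt, he2'.2.1, by simp only; omega⟩
    exact hd.cut_ne hμ h0 hi (eq_of_subset_of_card_le hsub (by omega)).symm
  have hwC' := mem_Ico.mp hwC
  obtain ⟨⟨b1, a1⟩, ⟨b2, a2⟩, hne0, hE0⟩ := card_eq_two.mp hc0
  have hf1 : (b1, a1) ∈ cutE n N i0 := by rw [hE0]; simp
  have hf2 : (b2, a2) ∈ cutE n N i0 := by rw [hE0]; simp
  have hf1' := (hd.mem_cutE hi0n).mp hf1
  have hf2' := (hd.mem_cutE hi0n).mp hf2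
  simp only at hf1' hf2'
  -- description of outside neighbours
  have hout : ∀ v ∈ Ico i0 i, ∀ u ∈ outb N i0 i v,
      (v = w2 ∧ (u = c1 ∨ u = c2)) ∨ (v = a1 ∧ u = b1) ∨ (v = a2 ∧ u = b2) := by
    intro v hv u hu
    have hv' := mem_Ico.mp hv
    rw [outb_eq (by omega), mem_union, mem_filter, mem_filter] at hu
    rcases hu with ⟨h1, h2⟩ | ⟨h1, h2⟩
    · have : (u, v) ∈ cutE n N i0 := by
        rw [hd.mem_cutE hi0n]
        exact ⟨h2, (hd.symm u v (by omega) (by omega)).mp h1, hv'.1⟩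
      rw [hE0] at this
      simp only [mem_insert, mem_singleton, Prod.mk.injEq] at this
      rcases this with ⟨h3, h4⟩ | ⟨h3, h4⟩
      · exact Or.inr (Or.inl ⟨h4, h3⟩)
      · exact Or.inr (Or.inr ⟨h4, h3⟩)
    · have : (v, u) ∈ cutE n N i := by
        rw [hd.mem_cutE hi]
        exact ⟨hv'.2, h1, h2⟩
      rw [hE] at this
      simp only [mem_insert, mem_singleton, Prod.mk.injEq] at this
      rcases this with ⟨h3, h4⟩ | ⟨h3, h4⟩
      · exact Or.inl ⟨h3, Or.inl h4⟩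
      · exact Or.inl ⟨h3, Or.inr h4⟩
  have hc1o : c1 ∈ outb N i0 i w2 := by
    rw [outb_eq (by omega), mem_union, mem_filter, mem_filter]
    exact Or.inr ⟨he1'.2.1, he1'.2.2⟩
  have hc2o : c2 ∈ outb N i0 i w2 := by
    rw [outb_eq (by omega), mem_union, mem_filter, mem_filter]
    exact Or.inr ⟨he2'.2.1, he2'.2.2⟩
  have hpair : ({c1, c2} : Finset ℕ) ⊆ outb N i0 i w2 := by
    intro u hu
    simp only [mem_insert, mem_singleton] at hu
    rcases hu with rfl | rfl <;> assumption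
  have hz2 : 2 ≤ (outb N i0 i w2).card := by
    rw [← card_pair hcne]
    exact card_le_card hpair
  obtain ⟨hane, hnnw, hoc, ha1C, ha2C, ha1w, ha2w, hrest⟩ := hd.block_core hi hlen
    (y1 := a1) (y2 := a2) hwC hz2 (by
      intro v hv hvw ⟨u, hu⟩
      rcases hout v hv u hu with h | h | h
      · exact absurd h.1 hvw
      · exact Or.inl h.1
      · exact Or.inr h.1)
  have houtw : outb N i0 i w2 = {c1, c2} :=
    (eq_of_subset_of_card_le hpair (by rw [hoc, card_pair hcne])).symm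
  have hb1o : b1 ∈ outb N i0 i a1 := by
    rw [outb_eq (by omega), mem_union, mem_filter, mem_filter]
    refine Or.inl ⟨(hd.symm b1 a1 (by omega) (by have := mem_Ico.mp ha1C; omega)).mpr hf1'.2.1,
      hf1'.1⟩
  have hb2o : b2 ∈ outb N i0 i a2 := by
    rw [outb_eq (by omega), mem_union, mem_filter, mem_filter]
    refine Or.inl ⟨(hd.symm b2 a2 (by omega) (by have := mem_Ico.mp ha2C; omega)).mpr hf2'.2.1,
      hf2'.1⟩
  have houta1 : outb N i0 i a1 = {b1} := by
    ext u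
    rw [mem_singleton]
    constructor
    · intro hu
      rcases hout a1 ha1C u hu with h | h | h
      · exact absurd h.1 ha1w
      · exact h.2
      · exact absurd h.1 hane
    · rintro rfl; exact hb1o
  have houta2 : outb N i0 i a2 = {b2} := by
    ext u
    rw [mem_singleton]
    constructor
    · intro hu
      rcases hout a2 ha2C u hu with h | h | h
      · exact absurd h.1 ha2w
      · exact absurd h.1.symm hane
      · exact h.2
    · rintro rfl; exact hb2o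
  have hnna1 := hrest a1 (Or.inl rfl) (by rw [houta1]; simp)
  have hnna2 := hrest a2 (Or.inr rfl) (by rw [houta2]; simp)
  have sw := hd.star hwC hi
  have s1 := hd.star ha1C hi
  have s2 := hd.star ha2C hi
  rw [hnnw, houtw, sum_pair hane, sum_pair hcne] at sw
  rw [hnna1, houta1, sum_singleton, sum_singleton] at s1
  rw [hnna2, houta2, sum_singleton, sum_singleton] at s2
  have f0 := hd.flux hi0n
  rw [hE0, sum_pair hne0] at f0
  have f1 := hd.flux hi
  rw [hE, sum_pair hne] at f1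
  have hJs := J_sub (μ := μ) (x := x) h0.le
  set X := ∑ u ∈ Ico i0 i, x u with hX
  simp only at f0 f1
  have hV0 : lowAvg x n N i0 = (x a1 + x a2) / 2 := by
    unfold lowAvg; rw [hE0, sum_pair hne0]
  have hVi : lowAvg x n N i = (x c1 + x c2) / 2 := by
    unfold lowAvg; rw [hE, sum_pair hne]
  have hJ0 := PData.J_eq_Iv (μ := μ) (x := x) hq0 i0
  have hJ1 := PData.J_eq_Iv (μ := μ) (x := x) hq0 i
  obtain ⟨ε, hε⟩ : ∃ ε, ε = μ / (2 * q) := ⟨_, rfl⟩
  have hμε : μ = 2 * q * ε := by rw [hε]; field_simp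
  rw [← hε]
  obtain ⟨V0, hV0'⟩ : ∃ V0, V0 = lowAvg x n N i0 := ⟨_, rfl⟩
  obtain ⟨V1, hV1'⟩ : ∃ V1, V1 = lowAvg x n N i := ⟨_, rfl⟩
  obtain ⟨I0, hI0'⟩ : ∃ I0, I0 = Iv q μ x i0 := ⟨_, rfl⟩
  obtain ⟨I1, hI1'⟩ : ∃ I1, I1 = Iv q μ x i := ⟨_, rfl⟩
  rw [← hV0', ← hV1', ← hI0', ← hI1']
  rw [← hV0'] at hV0
  rw [← hV1'] at hVi
  rw [← hI0'] at hJ0
  rw [← hI1'] at hJ1
  rw [hJ0] at f0 hJs
  rw [hJ1] at f1 hJs
  rw [hμε] at hJs sw s1 s2
  obtain ⟨xw, hxw⟩ : ∃ xw, xw = x w2 := ⟨_, rfl⟩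
  rw [← hxw] at sw s1 s2 f1
  have hI1 : I1 = I0 + ε * X := by
    have : 2 * (q : ℝ) * (I1 - (I0 + ε * X)) = 0 := by linarith
    have h2q : 2 * (q : ℝ) ≠ 0 := by positivity
    have := (mul_eq_zero.mp this).resolve_left h2q
    linarith
  have hXe : X = xw + (q + 2 - 2 * q * ε) * V0 - q * I0 := by
    rw [hV0]; linarith
  have hxw1 : xw = V1 + q * I1 := by rw [hVi]; linarith
  have hxw2 : (q : ℝ) * xw = q * ((V0 - (I0 + 2 * ε * V0)) - 2 * (I0 + 2 * ε * V0 +
      q * ε * (V0 - (I0 + 2 * ε * V0)))) := by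
    have e1 : ((q : ℝ) + 3 - 2 * q * ε) * xw = X - 2 * V0 + 2 * (xw - q * I1) := by
      rw [hV0]
      have : x c1 + x c2 = 2 * (xw - q * I1) := by linarith
      linarith
    rw [hI1, hXe] at e1
    linear_combination e1
  have hxw3 : xw = (V0 - (I0 + 2 * ε * V0)) - 2 * (I0 + 2 * ε * V0 +
      q * ε * (V0 - (I0 + 2 * ε * V0))) := mul_left_cancel₀ hq0.ne' hxw2
  have hI1e : I1 = I0 + 2 * ε * V0 + q * ε * (V0 - (I0 + 2 * ε * V0)) + ε * xw := by
    rw [hI1, hXe]; ring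
  have hV1e : V1 = xw - q * I1 := by linarith
  unfold stepF addRes addMass
  ext
  · simp only
    rw [hV1e, hI1e, hxw3]; ring
  · simp only
    rw [hI1e, hxw3]; ring

/-- exact `R` block -/
theorem PData.block_R (hd : PData q n μ x N) (hμ : 0 < μ) (hq : 10 ^ 7 ≤ q) {i0 i : ℕ}
    (h0 : i0 < i) (hi : i ≤ n) (hlen : i - i0 = q + 3) (hc0 : (cutE n N i0).card = 2)
    (hc : (cutE n N i).card = 2) (hs2 : Sing2 n N i0) (hs1 : ¬ Sing1 n N i) :
    (lowAvg x n N i, Iv q μ x i) = stepR q (μ / (2 * q)) (lowAvg x n N i0, Iv q μ x i0) := by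
  have hq' : (10 ^ 7 : ℝ) ≤ q := by exact_mod_cast hq
  have hq0 : (0 : ℝ) < q := by linarith
  have hi0n : i0 ≤ n := by omega
  obtain ⟨a, ha⟩ := hs2
  obtain ⟨⟨b1, a1⟩, ⟨b2, a2⟩, hne0, hE0⟩ := card_eq_two.mp hc0
  have hf1 : (b1, a1) ∈ cutE n N i0 := by rw [hE0]; simp
  have hf2 : (b2, a2) ∈ cutE n N i0 := by rw [hE0]; simp
  have ha1 : a1 = a := ha _ hf1
  have ha2 : a2 = a := ha _ hf2
  subst ha1
  subst ha2
  have hbne : b1 ≠ b2 := by rintro rfl; exact hne0 rfl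
  have hf1' := (hd.mem_cutE hi0n).mp hf1
  have hf2' := (hd.mem_cutE hi0n).mp hf2
  simp only at hf1' hf2'
  obtain ⟨⟨w1, c1⟩, ⟨w2, c2⟩, hne, hE⟩ := card_eq_two.mp hc
  have he1 : (w1, c1) ∈ cutE n N i := by rw [hE]; simp
  have he2 : (w2, c2) ∈ cutE n N i := by rw [hE]; simp
  have he1' := (hd.mem_cutE hi).mp he1
  have he2' := (hd.mem_cutE hi).mp he2
  simp only at he1' he2'
  have haC : a2 ∈ Ico i0 i := by
    rw [mem_Ico]
    refine ⟨hf1'.2.2, ?_⟩
    by_contra hlt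
    push Not at hlt
    have hsub : cutE n N i0 ⊆ cutE n N i := by
      rw [hE0]
      intro e he
      simp only [mem_insert, mem_singleton] at he
      rw [hd.mem_cutE hi]
      rcases he with rfl | rfl
      · exact ⟨by simp only; omega, hf1'.2.1, hlt⟩
      · exact ⟨by simp only; omega, hf2'.2.1, hlt⟩
    exact hd.cut_ne hμ h0 hi (eq_of_subset_of_card_le hsub (by omega))
  have haC' := mem_Ico.mp haC
  have hwne : w1 ≠ w2 := by
    rintro rfl
    apply hs1
    refine ⟨w1, fun e he => ?_⟩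
    rw [hE] at he
    simp only [mem_insert, mem_singleton] at he
    rcases he with rfl | rfl <;> rfl
  -- description of outside neighbours
  have hout : ∀ v ∈ Ico i0 i, ∀ u ∈ outb N i0 i v,
      (v = a2 ∧ (u = b1 ∨ u = b2)) ∨ (v = w1 ∧ u = c1) ∨ (v = w2 ∧ u = c2) := by
    intro v hv u hu
    have hv' := mem_Ico.mp hv
    rw [outb_eq (by omega), mem_union, mem_filter, mem_filter] at hu
    rcases hu with ⟨h1, h2⟩ | ⟨h1, h2⟩
    · have : (u, v) ∈ cutE n N i0 := by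
        rw [hd.mem_cutE hi0n]
        exact ⟨h2, (hd.symm u v (by omega) (by omega)).mp h1, hv'.1⟩
      rw [hE0] at this
      simp only [mem_insert, mem_singleton, Prod.mk.injEq] at this
      rcases this with ⟨h3, h4⟩ | ⟨h3, h4⟩
      · exact Or.inl ⟨h4, Or.inl h3⟩
      · exact Or.inl ⟨h4, Or.inr h3⟩
    · have : (v, u) ∈ cutE n N i := by
        rw [hd.mem_cutE hi]
        exact ⟨hv'.2, h1, h2⟩
      rw [hE] at this
      simp only [mem_insert, mem_singleton, Prod.mk.injEq] at this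
      rcases this with ⟨h3, h4⟩ | ⟨h3, h4⟩
      · exact Or.inr (Or.inl ⟨h3, h4⟩)
      · exact Or.inr (Or.inr ⟨h3, h4⟩)
  have hb1o : b1 ∈ outb N i0 i a2 := by
    rw [outb_eq (by omega), mem_union, mem_filter, mem_filter]
    exact Or.inl ⟨(hd.symm b1 a2 (by omega) (by omega)).mpr hf1'.2.1, hf1'.1⟩
  have hb2o : b2 ∈ outb N i0 i a2 := by
    rw [outb_eq (by omega), mem_union, mem_filter, mem_filter]
    exact Or.inl ⟨(hd.symm b2 a2 (by omega) (by omega)).mpr hf2'.2.1, hf2'.1⟩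
  have hpair : ({b1, b2} : Finset ℕ) ⊆ outb N i0 i a2 := by
    intro u hu
    simp only [mem_insert, mem_singleton] at hu
    rcases hu with rfl | rfl <;> assumption
  have hz2 : 2 ≤ (outb N i0 i a2).card := by
    rw [← card_pair hbne]
    exact card_le_card hpair
  obtain ⟨_, hnna, hoc, hw1C, hw2C, hw1a, hw2a, hrest⟩ := hd.block_core hi hlen
    (y1 := w1) (y2 := w2) haC hz2 (by
      intro v hv hvw ⟨u, hu⟩
      rcases hout v hv u hu with h | h | h
      · exact absurd h.1 hvw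
      · exact Or.inl h.1
      · exact Or.inr h.1)
  have houta : outb N i0 i a2 = {b1, b2} :=
    (eq_of_subset_of_card_le hpair (by rw [hoc, card_pair hbne])).symm
  have hc1o : c1 ∈ outb N i0 i w1 := by
    rw [outb_eq (by omega), mem_union, mem_filter, mem_filter]
    exact Or.inr ⟨he1'.2.1, he1'.2.2⟩
  have hc2o : c2 ∈ outb N i0 i w2 := by
    rw [outb_eq (by omega), mem_union, mem_filter, mem_filter]
    exact Or.inr ⟨he2'.2.1, he2'.2.2⟩
  have houtw1 : outb N i0 i w1 = {c1} := by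
    ext u
    rw [mem_singleton]
    constructor
    · intro hu
      rcases hout w1 hw1C u hu with h | h | h
      · exact absurd h.1 hw1a
      · exact h.2
      · exact absurd h.1 hwne
    · rintro rfl; exact hc1o
  have houtw2 : outb N i0 i w2 = {c2} := by
    ext u
    rw [mem_singleton]
    constructor
    · intro hu
      rcases hout w2 hw2C u hu with h | h | h
      · exact absurd h.1 hw2a
      · exact absurd h.1.symm hwne
      · exact h.2
    · rintro rfl; exact hc2o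
  have hnnw1 := hrest w1 (Or.inl rfl) (by rw [houtw1]; simp)
  have hnnw2 := hrest w2 (Or.inr rfl) (by rw [houtw2]; simp)
  have sa := hd.star haC hi
  have s1 := hd.star hw1C hi
  have s2 := hd.star hw2C hi
  rw [hnna, houta, sum_pair hwne, sum_pair hbne] at sa
  rw [hnnw1, houtw1, sum_singleton, sum_singleton] at s1
  rw [hnnw2, houtw2, sum_singleton, sum_singleton] at s2
  have f0 := hd.flux hi0n
  rw [hE0, sum_pair hne0] at f0
  have f1 := hd.flux hi
  rw [hE, sum_pair hne] at f1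
  have hJs := J_sub (μ := μ) (x := x) h0.le
  set X := ∑ u ∈ Ico i0 i, x u with hX
  simp only at f0 f1
  have hV0 : lowAvg x n N i0 = x a2 := by
    unfold lowAvg; rw [hE0, sum_pair hne0]; ring
  have hVi : lowAvg x n N i = (x c1 + x c2) / 2 := by
    unfold lowAvg; rw [hE, sum_pair hne]
  have hJ0 := PData.J_eq_Iv (μ := μ) (x := x) hq0 i0
  have hJ1 := PData.J_eq_Iv (μ := μ) (x := x) hq0 i
  obtain ⟨ε, hε⟩ : ∃ ε, ε = μ / (2 * q) := ⟨_, rfl⟩
  have hμε : μ = 2 * q * ε := by rw [hε]; field_simp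
  rw [← hε]
  obtain ⟨V0, hV0'⟩ : ∃ V0, V0 = lowAvg x n N i0 := ⟨_, rfl⟩
  obtain ⟨V1, hV1'⟩ : ∃ V1, V1 = lowAvg x n N i := ⟨_, rfl⟩
  obtain ⟨I0, hI0'⟩ : ∃ I0, I0 = Iv q μ x i0 := ⟨_, rfl⟩
  obtain ⟨I1, hI1'⟩ : ∃ I1, I1 = Iv q μ x i := ⟨_, rfl⟩
  rw [← hV0', ← hV1', ← hI0', ← hI1']
  rw [← hV0'] at hV0
  rw [← hV1'] at hVi
  rw [← hI0'] at hJ0
  rw [← hI1'] at hJ1
  rw [hJ0] at f0 hJs
  rw [hJ1] at f1 hJs
  rw [hμε] at hJs sa s1 s2
  rw [← hV0] at sa s1 s2 f0
  obtain ⟨W, hW⟩ : ∃ W, W = (x w1 + x w2) / 2 := ⟨_, rfl⟩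
  have hI1 : I1 = I0 + ε * X := by
    have : 2 * (q : ℝ) * (I1 - (I0 + ε * X)) = 0 := by linarith
    have h2q : 2 * (q : ℝ) ≠ 0 := by positivity
    have := (mul_eq_zero.mp this).resolve_left h2q
    linarith
  have hXe : X = 2 * W + (q + 1 - 2 * q * ε) * V0 - 2 * q * I0 := by
    rw [hW]; linarith
  have hV1e : V1 = W - q * I1 := by rw [hVi, hW]; linarith
  have hW2 : (q : ℝ) * W = q * ((V0 - 2 * (I0 + ε * V0)) - (I0 + ε * V0 +
      q * ε * (V0 - 2 * (I0 + ε * V0)))) := by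
    have e1 : ((q : ℝ) + 3 - 2 * q * ε) * (2 * W) = 2 * X - 2 * V0 + 2 * V1 := by
      rw [hW, hVi]; linarith
    rw [hV1e, hI1, hXe] at e1
    linear_combination e1 / 2
  have hW3 : W = (V0 - 2 * (I0 + ε * V0)) - (I0 + ε * V0 +
      q * ε * (V0 - 2 * (I0 + ε * V0))) := mul_left_cancel₀ hq0.ne' hW2
  have hI1e : I1 = I0 + ε * V0 + q * ε * (V0 - 2 * (I0 + ε * V0)) + 2 * ε * W := by
    rw [hI1, hXe]; ring
  unfold stepR addRes addMass
  ext
  · simp only
    rw [hV1e, hI1e, hW3]; ring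
  · simp only
    rw [hI1e, hW3]; ring

end

end Pool.MP_048773_co
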