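import Pool.Agent.MP_048773_co.T3Spread

/-!
# T3, dense clusters
-/

namespace Pool.MP_048773_co

open Finset

noncomputable section

variable {q n : ℕ} {μ : ℝ} {x : ℕ → ℝ} {N : ℕ → Finset ℕ}

/-- non-neighbours of `v` in the cluster -/
def nnb (N : ℕ → Finset ℕ) (i0 i v : ℕ) : Finset ℕ := (Ico i0 i) \ (insert v (N v))

/-- neighbours of `v` outside the cluster -/
def outb (N : ℕ → Finset ℕ) (i0 i v : ℕ) : Finset ℕ := (N v) \ (Ico i0 i)

theorem outb_eq {i0 i v : ℕ} (_h : i0 ≤ i) : outb N i0 i v =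
    ((N v).filter (fun u => u < i0)) ∪ ((N v).filter (fun u => i ≤ u)) := by
  ext u
  simp only [outb, mem_sdiff, mem_Ico, mem_union, mem_filter]
  constructor
  · rintro ⟨h1, h2⟩
    by_cases h3 : u < i0
    · exact Or.inl ⟨h1, h3⟩
    · exact Or.inr ⟨h1, by omega⟩
  · rintro (⟨h1, h2⟩ | ⟨h1, h2⟩)
    · exact ⟨h1, by omega⟩
    · exact ⟨h1, by omega⟩

theorem outb_disj {i0 i v : ℕ} (h : i0 ≤ i) :
    Disjoint ((N v).filter (fun u => u < i0)) ((N v).filter (fun u => i ≤ u)) := by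
  rw [disjoint_left]
  intro u hu hu'
  simp only [mem_filter] at hu hu'
  omega

theorem PData.card_nnb (hd : PData q n μ x N) {i0 i v : ℕ} (hv : v ∈ Ico i0 i) (hi : i ≤ n) :
    (nnb N i0 i v).card + (q + 3) = (i - i0) + (outb N i0 i v).card := by
  have hv' := mem_Ico.mp hv
  have h1 : (nnb N i0 i v).card + ((Ico i0 i) ∩ (insert v (N v))).card = (Ico i0 i).card :=
    card_sdiff_add_card_inter _ _
  have h2 : (outb N i0 i v).card + ((N v) ∩ (Ico i0 i)).card = (N v).card :=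
    card_sdiff_add_card_inter _ _
  have h3 : (Ico i0 i) ∩ (insert v (N v)) = insert v ((N v) ∩ (Ico i0 i)) := by
    ext u
    simp only [mem_inter, mem_insert, mem_Ico]
    constructor
    · rintro ⟨h, rfl | h'⟩
      · exact Or.inl rfl
      · exact Or.inr ⟨h', h⟩
    · rintro (rfl | ⟨h, h'⟩)
      · exact ⟨hv', Or.inl rfl⟩
      · exact ⟨h', Or.inr h⟩
  have h4 : v ∉ (N v) ∩ (Ico i0 i) := by
    rw [mem_inter]; intro h; exact hd.irr v (by omega) h.1
  rw [h3, card_insert_of_notMem h4, Nat.card_Ico] at h1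
  rw [hd.card v (by omega)] at h2
  omega

theorem PData.star (hd : PData q n μ x N) {i0 i v : ℕ} (hv : v ∈ Ico i0 i) (hi : i ≤ n) :
    ((q : ℝ) + 3 - μ) * x v = ∑ u ∈ Ico i0 i, x u - ∑ u ∈ nnb N i0 i v, x u +
      ∑ u ∈ outb N i0 i v, x u := by
  have hv' := mem_Ico.mp hv
  have h0 := hd.eig v (by omega)
  rw [sum_sub_distrib, sum_const, hd.card v (by omega), nsmul_eq_mul] at h0
  have h1 : ∑ u ∈ Ico i0 i, x u = ∑ u ∈ nnb N i0 i v, x u +
      ∑ u ∈ (Ico i0 i) ∩ (insert v (N v)), x u := by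
    unfold nnb
    rw [add_comm, sum_inter_add_sum_sdiff]
  have h2 : ∑ u ∈ N v, x u = ∑ u ∈ outb N i0 i v, x u + ∑ u ∈ (N v) ∩ (Ico i0 i), x u := by
    unfold outb
    rw [add_comm, sum_inter_add_sum_sdiff]
  have h3 : (Ico i0 i) ∩ (insert v (N v)) = insert v ((N v) ∩ (Ico i0 i)) := by
    ext u
    simp only [mem_inter, mem_insert, mem_Ico]
    constructor
    · rintro ⟨h, rfl | h'⟩
      · exact Or.inl rfl
      · exact Or.inr ⟨h', h⟩
    · rintro (rfl | ⟨h, h'⟩)
      · exact ⟨hv', Or.inl rfl⟩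
      · exact ⟨h', Or.inr h⟩
  have h4 : v ∉ (N v) ∩ (Ico i0 i) := by
    rw [mem_inter]; intro h; exact hd.irr v (by omega) h.1
  rw [h3, sum_insert h4] at h1
  push_cast at h0
  linarith

theorem PData.nnb_symm (hd : PData q n μ x N) {i0 i u v : ℕ} (hi : i ≤ n) (hu : u ∈ Ico i0 i)
    (hv : v ∈ Ico i0 i) : u ∈ nnb N i0 i v ↔ v ∈ nnb N i0 i u := by
  have hu' := mem_Ico.mp hu
  have hv' := mem_Ico.mp hv
  simp only [nnb, mem_sdiff, mem_insert, hu, hv, true_and, not_or]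
  rw [hd.symm u v (by omega) (by omega)]
  constructor <;> rintro ⟨h1, h2⟩ <;> exact ⟨fun h => h1 h.symm, h2⟩

/-- upward flux into `v` from above the cluster -/
def Fin_ (x : ℕ → ℝ) (N : ℕ → Finset ℕ) (i0 v : ℕ) : ℝ :=
  ∑ u ∈ (N v).filter (fun u => u < i0), (x u - x v)

/-- flux out of `v` to below the cluster -/
def Fout (x : ℕ → ℝ) (N : ℕ → Finset ℕ) (i v : ℕ) : ℝ :=
  ∑ u ∈ (N v).filter (fun u => i ≤ u), (x v - x u)

theorem PData.Fin_nonneg (hd : PData q n μ x N) {i0 v : ℕ} (hv : i0 ≤ v) : 0 ≤ Fin_ x N i0 v := by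
  refine sum_nonneg fun u hu => ?_
  have : x v ≤ x u := hd.anti (by simp at hu; omega)
  linarith

theorem PData.Fout_nonneg (hd : PData q n μ x N) {i v : ℕ} (hv : v < i) : 0 ≤ Fout x N i v := by
  refine sum_nonneg fun u hu => ?_
  have : x u ≤ x v := hd.anti (by simp at hu; omega)
  linarith

/-- mean of the cluster -/
def cbar (x : ℕ → ℝ) (i0 i : ℕ) : ℝ := (∑ u ∈ Ico i0 i, x u) / ((i - i0 : ℕ) : ℝ)

theorem cbar_mul {i0 i : ℕ} (h : i0 < i) :
    ((i - i0 : ℕ) : ℝ) * cbar x i0 i = ∑ u ∈ Ico i0 i, x u := by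
  unfold cbar
  have : ((i - i0 : ℕ) : ℝ) ≠ 0 := by
    have : 0 < i - i0 := by omega
    positivity
  field_simp

theorem PData.cbar_le (hd : PData q n μ x N) {i0 i : ℕ} (h : i0 < i) : cbar x i0 i ≤ x i0 := by
  unfold cbar
  have hp : (0 : ℝ) < ((i - i0 : ℕ) : ℝ) := by
    have : 0 < i - i0 := by omega
    positivity
  rw [div_le_iff₀ hp]
  have := sum_le_card_nsmul (Ico i0 i) x (x i0) (fun u hu => hd.anti (by simp at hu; omega))
  rw [Nat.card_Ico, nsmul_eq_mul] at this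
  linarith

theorem PData.le_cbar (hd : PData q n μ x N) {i0 i : ℕ} (h : i0 < i) :
    x (i - 1) ≤ cbar x i0 i := by
  unfold cbar
  have hp : (0 : ℝ) < ((i - i0 : ℕ) : ℝ) := by
    have : 0 < i - i0 := by omega
    positivity
  rw [le_div_iff₀ hp]
  have := card_nsmul_le_sum (Ico i0 i) x (x (i - 1)) (fun u hu => hd.anti (by simp at hu; omega))
  rw [Nat.card_Ico, nsmul_eq_mul] at this
  linarith

theorem J_sub {i0 i : ℕ} (h : i0 ≤ i) : J μ x i - J μ x i0 = μ * ∑ u ∈ Ico i0 i, x u := by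
  unfold J
  rw [← sum_range_add_sum_Ico x h]
  ring

theorem PData.outb_card_le (hd : PData q n μ x N) {i0 i v : ℕ} (hv : v ∈ Ico i0 i) (hi : i ≤ n)
    (hc0 : (cutE n N i0).card ≤ 2) (hc : (cutE n N i).card ≤ 2) :
    (outb N i0 i v).card ≤ 4 := by
  have hv' := mem_Ico.mp hv
  have hup := hd.sum_up_le hi (fun _ => (1 : ℝ)) (fun _ _ => zero_le_one) {v}
    (fun w hw => by simp at hw; omega)
  have hdn := hd.sum_down_le (i := i0) (by omega) (fun _ => (1 : ℝ)) (fun _ _ => zero_le_one)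
    {v} (fun w hw => by simp at hw; omega)
  simp only [sum_const, nsmul_eq_mul, mul_one, sum_singleton] at hup hdn
  have hup' : ((N v).filter (fun u => i ≤ u)).card ≤ (cutE n N i).card := by exact_mod_cast hup
  have hdn' : ((N v).filter (fun u => u < i0)).card ≤ (cutE n N i0).card := by exact_mod_cast hdn
  rw [outb_eq (by omega), card_union_of_disjoint (outb_disj (by omega))]
  omega

theorem PData.dense_key (hd : PData q n μ x N) {i0 i v : ℕ} (hv : v ∈ Ico i0 i) (hi : i ≤ n) :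
    ((q : ℝ) + 3 - (outb N i0 i v).card) * (x v - cbar x i0 i) =
      μ * x v + ∑ u ∈ nnb N i0 i v, (cbar x i0 i - x u) + (Fin_ x N i0 v - Fout x N i v) := by
  have hv' := mem_Ico.mp hv
  have h1 := hd.star hv hi
  have h2 := cbar_mul (x := x) (show i0 < i by omega)
  have h3 := hd.card_nnb hv hi
  have h3' : ((nnb N i0 i v).card : ℝ) + ((q : ℝ) + 3) =
      ((i - i0 : ℕ) : ℝ) + ((outb N i0 i v).card : ℝ) := by exact_mod_cast h3
  have h4 : Fin_ x N i0 v - Fout x N i v = ∑ u ∈ outb N i0 i v, (x u - x v) := by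
    rw [outb_eq (by omega), sum_union (outb_disj (by omega))]
    unfold Fin_ Fout
    rw [sub_eq_add_neg, ← sum_neg_distrib]
    congr 1
    refine sum_congr rfl fun u _ => by ring
  rw [h4, sum_sub_distrib, sum_sub_distrib, sum_const, sum_const, nsmul_eq_mul, nsmul_eq_mul]
  have h5 : ((nnb N i0 i v).card : ℝ) = ((i - i0 : ℕ) : ℝ) + ((outb N i0 i v).card : ℝ) -
      ((q : ℝ) + 3) := by linarith
  rw [h5]
  rw [← h2] at h1
  linarith

theorem PData.dense_l1 (hd : PData q n μ x N) (hμ : 0 < μ) (hq : 10 ^ 7 ≤ q) {i0 i : ℕ}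
    (h0 : i0 < i) (hi : i ≤ n)
    (hlen : 5 * (i - i0) ≤ 8 * (q + 3)) (hc0 : (cutE n N i0).card ≤ 2)
    (hc : (cutE n N i).card ≤ 2) :
    ∑ v ∈ Ico i0 i, |x v - cbar x i0 i| ≤ 51 / 10 * J μ x i / q := by
  have hq' : (10 ^ 7 : ℝ) ≤ q := by exact_mod_cast hq
  have hq0 : (0 : ℝ) < q := by linarith
  have hJ : 0 < J μ x i := hd.J_pos hμ (by omega)
  set S := ∑ v ∈ Ico i0 i, |x v - cbar x i0 i| with hS
  have hS0 : 0 ≤ S := sum_nonneg fun _ _ => abs_nonneg _
  have hlen' : 5 * ((i - i0 : ℕ) : ℝ) ≤ 8 * ((q : ℝ) + 3) := by exact_mod_cast hlen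
  have h1 : ∀ v ∈ Ico i0 i, ((q : ℝ) - 1) * |x v - cbar x i0 i| ≤
      μ * x v + ∑ u ∈ nnb N i0 i v, |x u - cbar x i0 i| + (Fin_ x N i0 v + Fout x N i v) := by
    intro v hv
    have hv' := mem_Ico.mp hv
    have k1 := hd.dense_key hv hi
    have k2 : ((outb N i0 i v).card : ℝ) ≤ 4 := by
      exact_mod_cast hd.outb_card_le hv hi hc0 hc
    have k3 : |((q : ℝ) + 3 - (outb N i0 i v).card) * (x v - cbar x i0 i)| ≤
        μ * x v + ∑ u ∈ nnb N i0 i v, |x u - cbar x i0 i| + (Fin_ x N i0 v + Fout x N i v) := by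
      rw [k1]
      have a1 : |μ * x v| = μ * x v := abs_of_nonneg (mul_nonneg hμ.le (hd.x_nonneg v))
      have a2 : |∑ u ∈ nnb N i0 i v, (cbar x i0 i - x u)| ≤
          ∑ u ∈ nnb N i0 i v, |x u - cbar x i0 i| := by
        refine (abs_sum_le_sum_abs _ _).trans (le_of_eq ?_)
        exact sum_congr rfl fun u _ => abs_sub_comm _ _
      have a3 : |Fin_ x N i0 v - Fout x N i v| ≤ Fin_ x N i0 v + Fout x N i v := by
        have b1 := hd.Fin_nonneg (i0 := i0) (v := v) (by omega)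
        have b2 := hd.Fout_nonneg (i := i) (v := v) (by omega)
        rw [abs_le]; constructor <;> linarith
      have a4 := abs_add_le (μ * x v + ∑ u ∈ nnb N i0 i v, (cbar x i0 i - x u))
        (Fin_ x N i0 v - Fout x N i v)
      have a5 := abs_add_le (μ * x v) (∑ u ∈ nnb N i0 i v, (cbar x i0 i - x u))
      linarith
    rw [abs_mul, abs_of_nonneg (by linarith : (0:ℝ) ≤ (q : ℝ) + 3 - (outb N i0 i v).card)] at k3
    have k4 : 0 ≤ |x v - cbar x i0 i| := abs_nonneg _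
    nlinarith
  have h2 := sum_le_sum h1
  rw [← mul_sum, sum_add_distrib, sum_add_distrib, ← mul_sum, sum_add_distrib] at h2
  have h3 : ∑ v ∈ Ico i0 i, Fin_ x N i0 v ≤ J μ x i0 := by
    have := hd.sum_down_le (i := i0) (by omega) (fun e => x e.1 - x e.2)
      (fun e he => hd.cut_term_nonneg (by omega) he) (Ico i0 i) (fun v hv => by simp at hv; omega)
    rw [hd.flux (by omega)] at this
    exact this
  have h4 : ∑ v ∈ Ico i0 i, Fout x N i v ≤ J μ x i := by
    have := hd.sum_up_le hi (fun e => x e.1 - x e.2)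
      (fun e he => hd.cut_term_nonneg hi he) (Ico i0 i) (fun v hv => by simp at hv; omega)
    rw [hd.flux hi] at this
    exact this
  have h5 := J_sub (μ := μ) (x := x) h0.le
  have h6 : ∑ v ∈ Ico i0 i, ∑ u ∈ nnb N i0 i v, |x u - cbar x i0 i| ≤
      (((i - i0 : ℕ) : ℝ) - ((q : ℝ) + 3) + 4) * S := by
    have g1 : ∀ v ∈ Ico i0 i, ∑ u ∈ nnb N i0 i v, |x u - cbar x i0 i| =
        ∑ u ∈ Ico i0 i, if u ∈ nnb N i0 i v then |x u - cbar x i0 i| else 0 := by
      intro v hv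
      rw [← sum_filter]
      refine sum_congr ?_ fun _ _ => rfl
      ext u
      simp only [mem_filter]
      constructor
      · intro h; exact ⟨(mem_sdiff.mp h).1, h⟩
      · rintro ⟨_, h⟩; exact h
    rw [sum_congr rfl g1, sum_comm, hS, mul_sum]
    refine sum_le_sum fun u hu => ?_
    rw [← sum_filter, sum_const, nsmul_eq_mul]
    refine mul_le_mul_of_nonneg_right ?_ (abs_nonneg _)
    have g2 : (Ico i0 i).filter (fun v => u ∈ nnb N i0 i v) = nnb N i0 i u := by
      ext v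
      simp only [mem_filter]
      constructor
      · rintro ⟨h, h'⟩
        exact (hd.nnb_symm hi hu h).mp h'
      · intro h
        have hv : v ∈ Ico i0 i := (mem_sdiff.mp h).1
        exact ⟨hv, (hd.nnb_symm hi hu hv).mpr h⟩
    rw [g2]
    have g3 := hd.card_nnb hu hi
    have g3' : ((nnb N i0 i u).card : ℝ) + ((q : ℝ) + 3) =
      ((i - i0 : ℕ) : ℝ) + ((outb N i0 i u).card : ℝ) := by exact_mod_cast g3
    have g4 : ((outb N i0 i u).card : ℝ) ≤ 4 := by
      exact_mod_cast hd.outb_card_le hu hi hc0 hc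
    linarith
  have h7 : ((q : ℝ) - 1) * S ≤ (((i - i0 : ℕ) : ℝ) - ((q : ℝ) + 3) + 4) * S + 2 * J μ x i := by
    linarith
  have h8 : (2 / 5 * (q : ℝ) - 34 / 5) * S ≤ 2 * J μ x i := by
    nlinarith
  rw [le_div_iff₀ hq0]
  nlinarith

/-- lower bound for a vertex above the lower cut -/
theorem PData.dense_lower (hd : PData q n μ x N) (hμ : 0 < μ) (hq : 10 ^ 7 ≤ q) {i0 i : ℕ}
    (h0 : i0 < i) (hi : i ≤ n)
    (hlen : 5 * (i - i0) ≤ 8 * (q + 3)) (hc0 : (cutE n N i0).card ≤ 2)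
    (hc : (cutE n N i).card ≤ 2) {v : ℕ} (hv : v < i) :
    cbar x i0 i - Fout x N i v / q - J μ x i / (200 * q) ≤ x v := by
  have hq' : (10 ^ 7 : ℝ) ≤ q := by exact_mod_cast hq
  have hq0 : (0 : ℝ) < q := by linarith
  have hJ : 0 < J μ x i := hd.J_pos hμ (by omega)
  have hF := hd.Fout_nonneg hv
  have hJq : 0 ≤ J μ x i / (200 * q) := by positivity
  have hFq : 0 ≤ Fout x N i v / q := by positivity
  by_cases hv0 : v < i0
  · have h1 : x i0 ≤ x v := hd.anti hv0.le
    have h2 := hd.cbar_le h0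
    linarith
  · have hvm : v ∈ Ico i0 i := mem_Ico.mpr ⟨by omega, hv⟩
    have hl := hd.dense_l1 hμ hq h0 hi hlen hc0 hc
    set S := ∑ v ∈ Ico i0 i, |x v - cbar x i0 i| with hS
    have hS0 : 0 ≤ S := sum_nonneg fun _ _ => abs_nonneg _
    have k1 := hd.dense_key hvm hi
    have k2 : ((outb N i0 i v).card : ℝ) ≤ 4 := by
      exact_mod_cast hd.outb_card_le hvm hi hc0 hc
    have k2' : (0 : ℝ) ≤ ((outb N i0 i v).card : ℝ) := Nat.cast_nonneg _
    have k3 : |x v - cbar x i0 i| ≤ S :=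
      single_le_sum (f := fun v => |x v - cbar x i0 i|) (fun _ _ => abs_nonneg _) hvm
    have k4 : - S ≤ ∑ u ∈ nnb N i0 i v, (cbar x i0 i - x u) := by
      have : |∑ u ∈ nnb N i0 i v, (cbar x i0 i - x u)| ≤ S := by
        refine (abs_sum_le_sum_abs _ _).trans ?_
        have : ∑ u ∈ nnb N i0 i v, |cbar x i0 i - x u| = ∑ u ∈ nnb N i0 i v, |x u - cbar x i0 i| :=
          sum_congr rfl fun u _ => abs_sub_comm _ _
        rw [this]
        exact sum_le_sum_of_subset_of_nonneg sdiff_subset fun _ _ _ => abs_nonneg _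
      exact (abs_le.mp this).1
    have k5 := hd.Fin_nonneg (i0 := i0) (v := v) (by omega)
    have k6 : 0 ≤ μ * x v := mul_nonneg hμ.le (hd.x_nonneg v)
    have k7 : - (4 * S) ≤ ((outb N i0 i v).card : ℝ) * (x v - cbar x i0 i) := by
      have := abs_le.mp k3
      nlinarith
    have k8 : - (5 * S) - Fout x N i v ≤ ((q : ℝ) + 3) * (x v - cbar x i0 i) := by
      nlinarith
    have k9 : 5 * S ≤ ((q : ℝ) + 3) * (J μ x i / (200 * q)) := by
      have : ((q : ℝ) + 3) * (J μ x i / (200 * q)) = (((q : ℝ) + 3) / 200) * (J μ x i / q) := by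
        field_simp
      rw [this]
      have e1 : 5 * S ≤ 51 / 2 * (J μ x i / q) := by
        have : 51 / 10 * J μ x i / q = 51 / 10 * (J μ x i / q) := by ring
        linarith
      have e2 : (51 / 2 : ℝ) * (J μ x i / q) ≤ (((q : ℝ) + 3) / 200) * (J μ x i / q) := by
        refine mul_le_mul_of_nonneg_right ?_ (by positivity)
        linarith
      linarith
    have k10 : Fout x N i v ≤ ((q : ℝ) + 3) * (Fout x N i v / q) := by
      have : ((q : ℝ) + 3) * (Fout x N i v / q) = Fout x N i v + 3 * (Fout x N i v / q) := by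
        field_simp
      linarith
    have k11 : ((q : ℝ) + 3) * (cbar x i0 i - Fout x N i v / q - J μ x i / (200 * q)) ≤
        ((q : ℝ) + 3) * x v := by nlinarith
    exact le_of_mul_le_mul_left k11 (by linarith)

/-- upper bound for a vertex below the upper cut -/
theorem PData.dense_upper (hd : PData q n μ x N) (hμ : 0 < μ) (hq : 10 ^ 7 ≤ q) {i0 i : ℕ}
    (h0 : i0 < i) (hi : i ≤ n) (hi0 : q + 3 ≤ i0)
    (hlen : 5 * (i - i0) ≤ 8 * (q + 3)) (hc0 : (cutE n N i0).card ≤ 2)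
    (hc : (cutE n N i).card ≤ 2) {v : ℕ} (hv : i0 ≤ v) :
    x v ≤ cbar x i0 i + Fin_ x N i0 v / q + J μ x i0 / (200 * q) := by
  have hq' : (10 ^ 7 : ℝ) ≤ q := by exact_mod_cast hq
  have hq0 : (0 : ℝ) < q := by linarith
  have hJ : 0 < J μ x i := hd.J_pos hμ (by omega)
  have hJ0 : 0 < J μ x i0 := hd.J_pos hμ (by omega)
  have hF := hd.Fin_nonneg hv
  have hJq : 0 ≤ J μ x i0 / (200 * q) := by positivity
  have hFq : 0 ≤ Fin_ x N i0 v / q := by positivity
  by_cases hv0 : i ≤ v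
  · have h1 : x v ≤ x (i - 1) := hd.anti (by omega)
    have h2 := hd.le_cbar h0
    linarith
  · have hvm : v ∈ Ico i0 i := mem_Ico.mpr ⟨hv, by omega⟩
    have hl := hd.dense_l1 hμ hq h0 hi hlen hc0 hc
    set S := ∑ v ∈ Ico i0 i, |x v - cbar x i0 i| with hS
    have hS0 : 0 ≤ S := sum_nonneg fun _ _ => abs_nonneg _
    have k1 := hd.dense_key hvm hi
    have k2 : ((outb N i0 i v).card : ℝ) ≤ 4 := by
      exact_mod_cast hd.outb_card_le hvm hi hc0 hc
    have k2' : (0 : ℝ) ≤ ((outb N i0 i v).card : ℝ) := Nat.cast_nonneg _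
    have k3 : |x v - cbar x i0 i| ≤ S :=
      single_le_sum (f := fun v => |x v - cbar x i0 i|) (fun _ _ => abs_nonneg _) hvm
    have k4 : ∑ u ∈ nnb N i0 i v, (cbar x i0 i - x u) ≤ S := by
      have : |∑ u ∈ nnb N i0 i v, (cbar x i0 i - x u)| ≤ S := by
        refine (abs_sum_le_sum_abs _ _).trans ?_
        have : ∑ u ∈ nnb N i0 i v, |cbar x i0 i - x u| = ∑ u ∈ nnb N i0 i v, |x u - cbar x i0 i| :=
          sum_congr rfl fun u _ => abs_sub_comm _ _
        rw [this]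
        exact sum_le_sum_of_subset_of_nonneg sdiff_subset fun _ _ _ => abs_nonneg _
      exact (abs_le.mp this).2
    have k5 := hd.Fout_nonneg (i := i) (v := v) (by omega)
    -- comparison of fluxes
    have hi0r : (q : ℝ) + 3 ≤ (i0 : ℝ) := by exact_mod_cast hi0
    have m1 : (i0 : ℝ) * (μ * x (i0 - 1)) ≤ J μ x i0 := by
      have := card_nsmul_le_sum (range i0) x (x (i0 - 1))
        (fun u hu => hd.anti (by simp at hu; omega))
      rw [card_range, nsmul_eq_mul] at this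
      unfold J
      nlinarith
    have m0 : 0 ≤ μ * x (i0 - 1) := mul_nonneg hμ.le (hd.x_nonneg _)
    have m2 : ((q : ℝ) + 3) * (μ * x (i0 - 1)) ≤ J μ x i0 :=
      (mul_le_mul_of_nonneg_right hi0r m0).trans m1
    have m3 : J μ x i ≤ 13 / 5 * J μ x i0 := by
      have e1 := J_sub (μ := μ) (x := x) h0.le
      have e2 := sum_le_card_nsmul (Ico i0 i) x (x (i0 - 1))
        (fun u hu => hd.anti (by simp at hu; omega))
      rw [Nat.card_Ico, nsmul_eq_mul] at e2
      have hlen' : 5 * ((i - i0 : ℕ) : ℝ) ≤ 8 * ((q : ℝ) + 3) := by exact_mod_cast hlen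
      have e3 : μ * ∑ u ∈ Ico i0 i, x u ≤ ((i - i0 : ℕ) : ℝ) * (μ * x (i0 - 1)) := by
        nlinarith
      have e4 : ((i - i0 : ℕ) : ℝ) * (μ * x (i0 - 1)) ≤
          (8 / 5 * ((q : ℝ) + 3)) * (μ * x (i0 - 1)) :=
        mul_le_mul_of_nonneg_right (by linarith) m0
      nlinarith
    have m4 : μ * x v ≤ J μ x i0 / q := by
      have e1 : μ * x v ≤ μ * x (i0 - 1) :=
        mul_le_mul_of_nonneg_left (hd.anti (by omega)) hμ.le
      rw [le_div_iff₀ hq0]
      nlinarith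
    have k7 : ((outb N i0 i v).card : ℝ) * (x v - cbar x i0 i) ≤ 4 * S := by
      have := abs_le.mp k3
      nlinarith
    have k8 : ((q : ℝ) + 3) * (x v - cbar x i0 i) ≤ μ * x v + 5 * S + Fin_ x N i0 v := by
      nlinarith
    have k9 : μ * x v + 5 * S ≤ ((q : ℝ) + 3) * (J μ x i0 / (200 * q)) := by
      have : ((q : ℝ) + 3) * (J μ x i0 / (200 * q)) = (((q : ℝ) + 3) / 200) * (J μ x i0 / q) := by
        field_simp
      rw [this]
      have e1 : 5 * S ≤ 51 / 2 * (13 / 5 * (J μ x i0 / q)) := by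
        have e3 : 51 / 10 * J μ x i / q = 51 / 10 * (J μ x i / q) := by ring
        have e4 : J μ x i / q ≤ 13 / 5 * (J μ x i0 / q) := by
          rw [← mul_div_assoc]
          exact div_le_div_of_nonneg_right m3 hq0.le
        linarith
      have e2 : (1000 : ℝ) * (J μ x i0 / q) ≤ (((q : ℝ) + 3) / 200) * (J μ x i0 / q) := by
        refine mul_le_mul_of_nonneg_right ?_ (by positivity)
        linarith
      have e5 : 0 ≤ J μ x i0 / q := by positivity
      linarith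
    have k10 : Fin_ x N i0 v ≤ ((q : ℝ) + 3) * (Fin_ x N i0 v / q) := by
      have : ((q : ℝ) + 3) * (Fin_ x N i0 v / q) = Fin_ x N i0 v + 3 * (Fin_ x N i0 v / q) := by
        field_simp
      linarith
    have k11 : ((q : ℝ) + 3) * x v ≤
        ((q : ℝ) + 3) * (cbar x i0 i + Fin_ x N i0 v / q + J μ x i0 / (200 * q)) := by nlinarith
    exact le_of_mul_le_mul_left k11 (by linarith)

end

end Pool.MP_048773_co
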