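import Pool.Agent.MP_048773_co.T3Basics

/-!
# T3, significant cuts, cluster sizes, spread of short runs
-/

namespace Pool.MP_048773_co

open Finset

noncomputable section

/-- cut `i` is significant -/
def Sig (μ : ℝ) (x : ℕ → ℝ) (i : ℕ) : Prop := J μ x i < 200000 * (x (i - 1) - x i)

variable {q n : ℕ} {μ : ℝ} {x : ℕ → ℝ} {N : ℕ → Finset ℕ}

theorem PData.J_n (hd : PData q n μ x N) : J μ x n = 2 * x (n - 1) := by
  rw [← hd.flux le_rfl, hd.cutE_n, sum_pair (by simp), hd.xzero n le_rfl,
    hd.xzero (n + 1) (by omega)]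
  ring

theorem PData.sig_n (hd : PData q n μ x N) : Sig μ x n := by
  unfold Sig
  rw [hd.J_n, hd.xzero n le_rfl]
  have := hd.xpos (n - 1) (by have := hd.npos; omega)
  linarith

theorem PData.sig_card (hd : PData q n μ x N) {i : ℕ} (hi : i ≤ n)
    (hs : Sig μ x i) : ((cutE n N i).card : ℝ) < 200000 := by
  have h1 := hd.card_mul_gap hi
  have h2 := hd.gap_nonneg i
  unfold Sig at hs
  by_contra h
  push Not at h
  have := mul_le_mul_of_nonneg_right h h2
  linarith

theorem cutE_zero : cutE n N 0 = ∅ := by
  unfold cutE; simp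

theorem PData.size_ge (hd : PData q n μ x N) (hq : 10 ^ 7 ≤ q) {i0 i : ℕ} (h0 : i0 < i)
    (hi : i ≤ n) (hs0 : i0 = 0 ∨ Sig μ x i0) (hs : Sig μ x i) : q + 3 ≤ i - i0 := by
  by_contra hlt
  push Not at hlt
  have hc0 : ((cutE n N i0).card : ℝ) < 200000 := by
    rcases hs0 with h | h
    · subst h; rw [cutE_zero]; norm_num
    · exact hd.sig_card (by omega) h
  have hc := hd.sig_card hi hs
  have hup := hd.sum_up_le hi (fun _ => (1 : ℝ)) (fun _ _ => zero_le_one) (Ico i0 i)
    (fun v hv => by simp at hv; omega)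
  have hdn := hd.sum_down_le (i := i0) (by omega) (fun _ => (1 : ℝ)) (fun _ _ => zero_le_one)
    (Ico i0 i) (fun v hv => by simp at hv; omega)
  simp only [sum_const, nsmul_eq_mul, mul_one] at hup hdn
  have key : ∀ v ∈ Ico i0 i, ((q : ℝ) + 3 - ((i - i0 : ℕ) : ℝ)) ≤
      (((N v).filter (fun u => i ≤ u)).card : ℝ) + (((N v).filter (fun u => u < i0)).card : ℝ) := by
    intro v hv
    have hv' := mem_Ico.mp hv
    have h1 : (N v).card ≤ ((N v).filter (fun u => i ≤ u)).card +
        ((N v).filter (fun u => u < i0)).card + ((Ico i0 i).erase v).card := by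
      have : N v ⊆ ((N v).filter (fun u => i ≤ u)) ∪ ((N v).filter (fun u => u < i0)) ∪
          ((Ico i0 i).erase v) := by
        intro u hu
        simp only [mem_union, mem_filter, mem_erase, mem_Ico]
        by_cases h1 : i ≤ u
        · exact Or.inl (Or.inl ⟨hu, h1⟩)
        · by_cases h2 : u < i0
          · exact Or.inl (Or.inr ⟨hu, h2⟩)
          · refine Or.inr ⟨?_, by omega, by omega⟩
            rintro rfl
            exact hd.irr u (by omega) hu
      exact (card_le_card this).trans ((card_union_le _ _).trans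
        (Nat.add_le_add_right (card_union_le _ _) _))
    rw [hd.card v (by omega), card_erase_of_mem hv, Nat.card_Ico] at h1
    have h2 : q + 3 ≤ ((N v).filter (fun u => i ≤ u)).card +
        ((N v).filter (fun u => u < i0)).card + (i - i0) := by omega
    have h3 : ((q + 3 : ℕ) : ℝ) ≤ ((((N v).filter (fun u => i ≤ u)).card +
        ((N v).filter (fun u => u < i0)).card + (i - i0) : ℕ) : ℝ) := by exact_mod_cast h2
    push_cast at h3
    linarith
  have hsum := sum_le_sum key
  rw [sum_add_distrib, sum_const, nsmul_eq_mul, Nat.card_Ico] at hsum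
  have hp1 : (1 : ℝ) ≤ ((i - i0 : ℕ) : ℝ) := by
    have : 1 ≤ i - i0 := by omega
    exact_mod_cast this
  have hp2 : ((i - i0 : ℕ) : ℝ) ≤ (q : ℝ) + 2 := by
    have : i - i0 ≤ q + 2 := by omega
    exact_mod_cast this
  have hq' : (10 ^ 7 : ℝ) ≤ q := by exact_mod_cast hq
  nlinarith [mul_nonneg (sub_nonneg.mpr hp1) (sub_nonneg.mpr hp2)]

theorem PData.near_card (hd : PData q n μ x N) (hμ : 0 < μ) (hq : 10 ^ 7 ≤ q) {v i : ℕ}
    (hv : v < i) (hi : i ≤ n) :
    (q : ℝ) + 3 - (q : ℝ) / 25 ≤
      ((insert v ((N v).filter (fun u => |x u - x v| < 50 * J μ x i / q))).card : ℝ) := by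
  have hq' : (10 ^ 7 : ℝ) ≤ q := by exact_mod_cast hq
  have hq0 : (0 : ℝ) < q := by linarith
  set a := 50 * J μ x i / q with ha
  have hJ : 0 < J μ x i := hd.J_pos hμ (by omega)
  have ha0 : 0 < a := by positivity
  have h1 := hd.far_card (v := v) (by omega) a
  have h2 : J μ x v ≤ J μ x i := hd.J_mono hμ hv.le
  have h3 : J μ x (v + 1) ≤ J μ x i := hd.J_mono hμ hv
  have h4 : (((N v).filter (fun u => a ≤ |x u - x v|)).card : ℝ) ≤ (q : ℝ) / 25 := by
    have h5 : (((N v).filter (fun u => a ≤ |x u - x v|)).card : ℝ) * a ≤ (q : ℝ) / 25 * a := by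
      have : (q : ℝ) / 25 * a = 2 * J μ x i := by rw [ha]; field_simp; ring
      linarith
    exact le_of_mul_le_mul_right h5 ha0
  rw [card_insert_of_notMem (by
    simp only [mem_filter, not_and]
    intro h; exact absurd h (hd.irr v (by omega)))]
  have h6 : ((N v).filter (fun u => |x u - x v| < a)).card +
      ((N v).filter (fun u => a ≤ |x u - x v|)).card = q + 2 := by
    rw [← hd.card v (by omega)]
    have := card_filter_add_card_filter_not (s := N v) (fun u => |x u - x v| < a)
    simpa only [not_lt] using this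
  have h7 : (((N v).filter (fun u => |x u - x v| < a)).card : ℝ) +
      (((N v).filter (fun u => a ≤ |x u - x v|)).card : ℝ) = (q : ℝ) + 2 := by
    exact_mod_cast h6
  push_cast
  linarith

theorem PData.spread (hd : PData q n μ x N) (hμ : 0 < μ) (hq : 10 ^ 7 ≤ q) {i0 i : ℕ}
    (h0 : i0 < i) (hi : i ≤ n) (hlen : i - i0 ≤ 4 * (q + 3))
    (hns : ∀ j, i0 < j → j < i → ¬ Sig μ x j) :
    x i0 - x (i - 1) ≤ J μ x i / 2000 := by
  have hq' : (10 ^ 7 : ℝ) ≤ q := by exact_mod_cast hq
  have hq0 : (0 : ℝ) < q := by linarith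
  have hJ : 0 < J μ x i := hd.J_pos hμ (by omega)
  set a := 50 * J μ x i / q with ha
  set g := J μ x i / 200000 with hg
  have ha0 : 0 < a := by positivity
  have hg0 : 0 < g := by positivity
  set m : ℝ := (q : ℝ) + 3 - (q : ℝ) / 25 with hm
  have claim : ∀ k : ℕ, x (i - 1) ≤ x i0 - k * (2 * a + g) →
      (k : ℝ) * m ≤ (((Ico i0 i).filter (fun u => x i0 - k * (2 * a + g) < x u)).card : ℝ) := by
    intro k
    induction k with
    | zero => intro _; simp
    | succ k ih =>
      intro hk
      push_cast at hk ⊢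
      set t : ℝ := k * (2 * a + g) with ht
      have ht0 : 0 ≤ t := by positivity
      have ihk := ih (by linarith)
      have hex : ∃ v, i0 ≤ v ∧ v < i ∧ x v ≤ x i0 - t - a :=
        ⟨i - 1, by omega, by omega, by linarith⟩
      classical
      obtain ⟨v, ⟨hv1, hv2, hv3⟩, hmin⟩ : ∃ v, (i0 ≤ v ∧ v < i ∧ x v ≤ x i0 - t - a) ∧
          ∀ w < v, ¬ (i0 ≤ w ∧ w < i ∧ x w ≤ x i0 - t - a) :=
        ⟨Nat.find hex, Nat.find_spec hex, fun w hw => Nat.find_min hex hw⟩
      have hne : v ≠ i0 := by
        rintro rfl
        linarith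
      have hprev : x i0 - t - a < x (v - 1) := by
        by_contra h
        push Not at h
        exact hmin (v - 1) (by omega) ⟨by omega, by omega, h⟩
      have hgap : x (v - 1) - x v ≤ g := by
        have h1 := hns v (by omega) hv2
        unfold Sig at h1
        push Not at h1
        have h2 : J μ x v ≤ J μ x i := hd.J_mono hμ hv2.le
        rw [hg]; linarith
      have hS := hd.near_card hμ hq hv2 hi
      rw [← ha] at hS
      set S := insert v ((N v).filter (fun u => |x u - x v| < a)) with hSdef
      have hSmem : ∀ u ∈ S, |x u - x v| < a := by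
        intro u hu
        rw [hSdef, mem_insert, mem_filter] at hu
        rcases hu with rfl | hu
        · simpa using ha0
        · exact hu.2
      have hsub : (Ico i0 i).filter (fun u => x i0 - t < x u) ∪ S ⊆
          (Ico i0 i).filter (fun u => x i0 - (k + 1) * (2 * a + g) < x u) := by
        intro u hu
        rw [mem_union] at hu
        rcases hu with hu | hu
        · simp only [mem_filter, mem_Ico] at hu ⊢
          exact ⟨hu.1, by linarith⟩
        · have h1 := abs_lt.mp (hSmem u hu)
          have h2 : x u < x i0 := by linarith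
          have h3 : x i0 - (k + 1) * (2 * a + g) < x u := by linarith
          have h4 : x (i - 1) < x u := by linarith
          simp only [mem_filter, mem_Ico]
          refine ⟨⟨?_, ?_⟩, h3⟩
          · by_contra h
            have : x i0 ≤ x u := hd.anti (by omega)
            linarith
          · by_contra h
            have : x u ≤ x (i - 1) := hd.anti (by omega)
            linarith
      have hdisj : Disjoint ((Ico i0 i).filter (fun u => x i0 - t < x u)) S := by
        rw [disjoint_left]
        intro u hu hu'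
        have h1 := abs_lt.mp (hSmem u hu')
        simp only [mem_filter] at hu
        linarith
      have hcard := card_le_card hsub
      rw [card_union_of_disjoint hdisj] at hcard
      have hcard' : (((Ico i0 i).filter (fun u => x i0 - t < x u)).card : ℝ) + (S.card : ℝ) ≤
          (((Ico i0 i).filter (fun u => x i0 - (k + 1) * (2 * a + g) < x u)).card : ℝ) := by
        exact_mod_cast hcard
      linarith
  by_contra hcon
  push Not at hcon
  have h5 : 5 * (2 * a + g) ≤ J μ x i / 2000 := by
    have e1 : a ≤ 50 * J μ x i / 10 ^ 7 := by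
      rw [ha]
      exact div_le_div_of_nonneg_left (by positivity) (by positivity) hq'
    rw [hg]
    linarith
  have h6 := claim 5 (by push_cast; linarith)
  have h7 : (((Ico i0 i).filter (fun u => x i0 - (5 : ℕ) * (2 * a + g) < x u)).card : ℝ) ≤
      4 * ((q : ℝ) + 3) := by
    have h8 : ((Ico i0 i).filter (fun u => x i0 - (5 : ℕ) * (2 * a + g) < x u)).card ≤
        4 * (q + 3) := by
      refine (card_filter_le _ _).trans ?_
      rw [Nat.card_Ico]; exact hlen
    exact_mod_cast h8
  push_cast at h6 h7
  rw [hm] at h6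
  linarith

end

end Pool.MP_048773_co
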